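import Pool.Agent.Run7.h180.Base

/-!
A combinatorial lemma: a function on the vertices whose differences along edges are given by four
darts is constant, under the cut condition.
-/

namespace Run7.h180

variable {V : Type}

open Classical in
/-- how many of the four darts are `(u, v)` -/
noncomputable def miss4 (X c1 c2 Y1 D1 Y2 D2 u v : V) : ℕ :=
  (if u = X ∧ v = c1 then 1 else 0) + (if u = X ∧ v = c2 then 1 else 0) +
    (if u = Y1 ∧ v = D1 then 1 else 0) + if u = Y2 ∧ v = D2 then 1 else 0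

theorem miss4_pos {X c1 c2 Y1 D1 Y2 D2 u v : V} (h : 1 ≤ miss4 X c1 c2 Y1 D1 Y2 D2 u v) :
    ((u = X ∧ v = c1) ∨ (u = X ∧ v = c2)) ∨ ((u = Y1 ∧ v = D1) ∨ (u = Y2 ∧ v = D2)) := by
  unfold miss4 at h
  split_ifs at h <;> simp_all

theorem miss4_two {X c1 c2 Y1 D1 Y2 D2 u v : V} (hc : c1 ≠ c2)
    (h : 2 ≤ miss4 X c1 c2 Y1 D1 Y2 D2 u v) :
    ((u = Y1 ∧ v = D1) ∧ (u = Y2 ∧ v = D2)) ∨
      (((u = X ∧ v = c1) ∨ (u = X ∧ v = c2)) ∧ ((u = Y1 ∧ v = D1) ∨ (u = Y2 ∧ v = D2))) := by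
  have hx : ¬ ((u = X ∧ v = c1) ∧ (u = X ∧ v = c2)) := fun h => hc (h.1.2.symm.trans h.2.2)
  unfold miss4 at h
  rcases em (u = X ∧ v = c1) with h1 | h1 <;> rcases em (u = X ∧ v = c2) with h2 | h2 <;>
    rcases em (u = Y1 ∧ v = D1) with h3 | h3 <;> rcases em (u = Y2 ∧ v = D2) with h4 | h4 <;>
    first
    | exact (hx (And.intro h1 h2)).elim
    | exact Or.inl ⟨h3, h4⟩
    | exact Or.inr ⟨Or.inl h1, Or.inl h3⟩
    | exact Or.inr ⟨Or.inl h1, Or.inr h4⟩
    | exact Or.inr ⟨Or.inr h2, Or.inl h3⟩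
    | exact Or.inr ⟨Or.inr h2, Or.inr h4⟩
    | (exfalso
       first | rw [if_pos h1] at h | rw [if_neg h1] at h
       first | rw [if_pos h2] at h | rw [if_neg h2] at h
       first | rw [if_pos h3] at h | rw [if_neg h3] at h
       first | rw [if_pos h4] at h | rw [if_neg h4] at h
       omega)

theorem miss4_one1 {X c1 c2 Y1 D1 Y2 D2 : V} : 1 ≤ miss4 X c1 c2 Y1 D1 Y2 D2 X c1 := by
  unfold miss4; simp; omega

theorem miss4_one2 {X c1 c2 Y1 D1 Y2 D2 : V} : 1 ≤ miss4 X c1 c2 Y1 D1 Y2 D2 X c2 := by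
  unfold miss4; simp; omega

theorem balance [Fintype V] {H : SimpleGraph V} (hcut : Cut2 H) {g : V → ℕ}
    (hdvd : Fintype.card V ∣ ∑ v, g v) {X Y1 Y2 c1 c2 D1 D2 : V} (hc : c1 ≠ c2)
    (h1 : H.Adj X c1) (h2 : H.Adj X c2) (h3 : H.Adj Y1 D1) (h4 : H.Adj Y2 D2)
    (hb : ∀ u v, H.Adj u v → g u + miss4 X c1 c2 Y1 D1 Y2 D2 v u =
      g v + miss4 X c1 c2 Y1 D1 Y2 D2 u v) :
    D1 = X ∧ D2 = X ∧ (Y1 = c1 ∧ Y2 = c2 ∨ Y1 = c2 ∧ Y2 = c1) := by
  classical
  by_cases hconst : ∀ u v, g u = g v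
  · have hsw : ∀ u v, H.Adj u v → miss4 X c1 c2 Y1 D1 Y2 D2 v u = miss4 X c1 c2 Y1 D1 Y2 D2 u v :=
      fun u v h => by have := hb u v h; have := hconst u v; omega
    have q1 := miss4_pos (u := c1) (v := X) (by rw [hsw _ _ h1]; exact miss4_one1)
    have q2 := miss4_pos (u := c2) (v := X) (by rw [hsw _ _ h2]; exact miss4_one2)
    have n1 := h1.ne
    have n2 := h2.ne
    rcases q1 with (q1 | q1) | (q1 | q1)
    · exact absurd q1.1.symm n1
    · exact absurd q1.1.symm n1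
    · rcases q2 with (q2 | q2) | (q2 | q2)
      · exact absurd q2.1.symm n2
      · exact absurd q2.1.symm n2
      · exact absurd (q1.1.trans q2.1.symm) hc
      · exact ⟨q1.2.symm, q2.2.symm, Or.inl ⟨q1.1.symm, q2.1.symm⟩⟩
    · rcases q2 with (q2 | q2) | (q2 | q2)
      · exact absurd q2.1.symm n2
      · exact absurd q2.1.symm n2
      · exact ⟨q2.2.symm, q1.2.symm, Or.inr ⟨q2.1.symm, q1.1.symm⟩⟩
      · exact absurd (q1.1.trans q2.1.symm) hc
  exfalso
  obtain ⟨vM, -, hM⟩ := Finset.exists_max_image Finset.univ g ⟨X, Finset.mem_univ _⟩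
  obtain ⟨vm, -, hm⟩ := Finset.exists_min_image Finset.univ g ⟨X, Finset.mem_univ _⟩
  have hM' : ∀ v, g v ≤ g vM := fun v => hM v (Finset.mem_univ v)
  have hm' : ∀ v, g vm ≤ g v := fun v => hm v (Finset.mem_univ v)
  have hlt : g vm < g vM := by
    by_contra hn
    refine hconst fun u v => ?_
    have := hM' u; have := hM' v; have := hm' u; have := hm' v
    omega
  have hlt2 : g vm + 2 ≤ g vM := by
    by_contra hn
    have hs : ∑ v, g v = ∑ v, (g vm + if g v = g vM then 1 else 0) := by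
      refine Finset.sum_congr rfl fun v _ => ?_
      have := hM' v; have := hm' v
      split_ifs <;> omega
    rw [hs, Finset.sum_add_distrib, Finset.sum_const, Finset.card_univ, smul_eq_mul,
      ← Finset.card_filter] at hdvd
    have hd := (Nat.dvd_add_right (Dvd.intro _ rfl)).1 hdvd
    have hpos : 0 < (Finset.univ.filter fun v => g v = g vM).card :=
      Finset.card_pos.2 ⟨vM, by simp⟩
    have hle := Nat.le_of_dvd hpos hd
    have hlt' : (Finset.univ.filter fun v => g v = g vM).card < Fintype.card V := by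
      rw [← Finset.card_univ]
      refine Finset.card_lt_card ⟨Finset.subset_univ _, fun h => ?_⟩
      have := (Finset.mem_filter.1 (h (Finset.mem_univ vm))).2
      omega
    omega
  have hg : ∀ u v, H.Adj u v → g u ≤ g v + miss4 X c1 c2 Y1 D1 Y2 D2 u v := fun u v h => by
    have := hb u v h
    omega
  have F1 : ∀ u v, H.Adj u v → g v < g u →
      ((u = X ∧ v = c1) ∨ (u = X ∧ v = c2)) ∨ ((u = Y1 ∧ v = D1) ∨ (u = Y2 ∧ v = D2)) := by
    intro u v h h'
    exact miss4_pos (by have := hg u v h; omega)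
  have F2 : ∀ u v, H.Adj u v → g u = g vM → g v = g vm →
      ((u = Y1 ∧ v = D1) ∧ (u = Y2 ∧ v = D2)) ∨
      (((u = X ∧ v = c1) ∨ (u = X ∧ v = c2)) ∧ ((u = Y1 ∧ v = D1) ∨ (u = Y2 ∧ v = D2))) := by
    intro u v h h' h''
    exact miss4_two hc (by have := hg u v h; omega)
  have cutA : ∀ a b c, H.Adj a b → H.Adj a c → ∃ u v, H.Adj u v ∧ g u = g vM ∧ g v < g vM ∧
      s(u, v) ≠ s(a, b) ∧ s(u, v) ≠ s(a, c) := by
    intro a b c hab hac
    obtain ⟨u, hu, v, hv, h⟩ := hcut {v | g v = g vM} ⟨vM, rfl⟩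
      ⟨vm, by simp only [Set.mem_compl_iff, Set.mem_ofPred_eq]; omega⟩ a b c hab hac
    have hv' : g v ≠ g vM := hv
    exact ⟨u, v, h.1, hu, by have := hM' v; omega, h.2⟩
  have cutB : ∀ a b c, H.Adj a b → H.Adj a c → ∃ u v, H.Adj u v ∧ g vm < g u ∧ g v = g vm ∧
      s(u, v) ≠ s(a, b) ∧ s(u, v) ≠ s(a, c) := by
    intro a b c hab hac
    obtain ⟨u, hu, v, hv, h⟩ := hcut {v | g v ≠ g vm} ⟨vM, by simp only [Set.mem_ofPred_eq]; omega⟩
      ⟨vm, by simp⟩ a b c hab hac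
    have hu' : g u ≠ g vm := hu
    have hv' : ¬ g v ≠ g vm := hv
    exact ⟨u, v, h.1, by have := hm' u; omega, not_not.1 hv', h.2⟩
  obtain ⟨u, v, huv, hu, hv, n1, n2⟩ := cutA X c1 c2 h1 h2
  obtain ⟨u', v', huv', hu', hv', n1', n2'⟩ := cutB X c1 c2 h1 h2
  have nX : ¬ ((u = X ∧ v = c1) ∨ (u = X ∧ v = c2)) := by
    rintro (⟨rfl, rfl⟩ | ⟨rfl, rfl⟩)
    · exact n1 rfl
    · exact n2 rfl
  have nX' : ¬ ((u' = X ∧ v' = c1) ∨ (u' = X ∧ v' = c2)) := by
    rintro (⟨rfl, rfl⟩ | ⟨rfl, rfl⟩)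
    · exact n1' rfl
    · exact n2' rfl
  have hY := (F1 u v huv (by omega)).resolve_left nX
  have hY' := (F1 u' v' huv' (by omega)).resolve_left nX'
  have gX : g X = g vM := by
    obtain ⟨p, q, hpq, hp, hq, m1, -⟩ := cutA u v v huv huv
    rcases F1 p q hpq (by omega) with h | h
    · rcases h with h | h <;> rw [← h.1, hp]
    · exfalso
      have hne : ¬ (p = u ∧ q = v) := by rintro ⟨rfl, rfl⟩; exact m1 rfl
      have key : ∀ s t, H.Adj s t → g s = g vM → g t = g vm → s = u' → t = v' →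
          ¬ ((u = p ∧ v = q)) → False := by
        rintro s t hst e1 e2 rfl rfl -
        rcases F2 _ _ hst e1 e2 with h' | h'
        · apply hne
          have eY : Y1 = Y2 := h'.1.1.symm.trans h'.2.1
          have eD : D1 = D2 := h'.1.2.symm.trans h'.2.2
          rcases h with h | h <;> rcases hY with h5 | h5 <;>
            refine ⟨h.1.trans (Eq.trans ?_ h5.1.symm), h.2.trans (Eq.trans ?_ h5.2.symm)⟩ <;>
            first | rfl | exact eY | exact eY.symm | exact eD | exact eD.symm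
        · exact nX' h'.1
      rcases hY with h5 | h5 <;> rcases h with h6 | h6 <;> rcases hY' with h7 | h7
      · exact hne ⟨h6.1.trans h5.1.symm, h6.2.trans h5.2.symm⟩
      · exact hne ⟨h6.1.trans h5.1.symm, h6.2.trans h5.2.symm⟩
      · exact key u' v' huv' (by rw [h7.1, ← h5.1, hu]) hv' rfl rfl fun h => hne ⟨h.1.symm, h.2.symm⟩
      · exact key u' v' huv' (by rw [h7.1, ← h6.1, hp]) hv' rfl rfl fun h => hne ⟨h.1.symm, h.2.symm⟩
      · exact key u' v' huv' (by rw [h7.1, ← h6.1, hp]) hv' rfl rfl fun h => hne ⟨h.1.symm, h.2.symm⟩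
      · exact key u' v' huv' (by rw [h7.1, ← h5.1, hu]) hv' rfl rfl fun h => hne ⟨h.1.symm, h.2.symm⟩
      · exact hne ⟨h6.1.trans h5.1.symm, h6.2.trans h5.2.symm⟩
      · exact hne ⟨h6.1.trans h5.1.symm, h6.2.trans h5.2.symm⟩
  have gc : ∃ q, (q = c1 ∨ q = c2) ∧ g q = g vm := by
    obtain ⟨p, q, hpq, hp, hq, m1, -⟩ := cutB u' v' v' huv' huv'
    rcases F1 p q hpq (by omega) with h | h
    · rcases h with h | h
      · exact ⟨q, Or.inl h.2, hq⟩
      · exact ⟨q, Or.inr h.2, hq⟩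
    · exfalso
      have hne : ¬ (p = u' ∧ q = v') := by rintro ⟨rfl, rfl⟩; exact m1 rfl
      have key : g v = g vm → False := by
        intro e2
        rcases F2 _ _ huv hu e2 with h' | h'
        · apply hne
          have eY : Y1 = Y2 := h'.1.1.symm.trans h'.2.1
          have eD : D1 = D2 := h'.1.2.symm.trans h'.2.2
          rcases h with h | h <;> rcases hY' with h5 | h5 <;>
            refine ⟨h.1.trans (Eq.trans ?_ h5.1.symm), h.2.trans (Eq.trans ?_ h5.2.symm)⟩ <;>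
            first | rfl | exact eY | exact eY.symm | exact eD | exact eD.symm
        · exact nX h'.1
      rcases hY' with h5 | h5 <;> rcases h with h6 | h6 <;> rcases hY with h7 | h7
      · exact hne ⟨h6.1.trans h5.1.symm, h6.2.trans h5.2.symm⟩
      · exact hne ⟨h6.1.trans h5.1.symm, h6.2.trans h5.2.symm⟩
      · exact key (by rw [h7.2, ← h5.2, hv'])
      · exact key (by rw [h7.2, ← h6.2, hq])
      · exact key (by rw [h7.2, ← h6.2, hq])
      · exact key (by rw [h7.2, ← h5.2, hv'])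
      · exact hne ⟨h6.1.trans h5.1.symm, h6.2.trans h5.2.symm⟩
      · exact hne ⟨h6.1.trans h5.1.symm, h6.2.trans h5.2.symm⟩
  obtain ⟨q, hq, gq⟩ := gc
  have hXq : H.Adj X q := by rcases hq with rfl | rfl <;> assumption
  have hXq' : (X = X ∧ q = c1) ∨ (X = X ∧ q = c2) := by
    rcases hq with h | h
    · exact Or.inl ⟨rfl, h⟩
    · exact Or.inr ⟨rfl, h⟩
  have hYq : (X = Y1 ∧ q = D1) ∨ (X = Y2 ∧ q = D2) := by
    rcases F2 X q hXq gX gq with h | h
    · exact Or.inl h.1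
    · exact h.2
  have hnq : ¬ (u = X ∧ v = q) := by
    rintro ⟨rfl, rfl⟩
    exact nX hXq'
  have hnq' : ¬ (u' = X ∧ v' = q) := by
    rintro ⟨rfl, rfl⟩
    exact nX' hXq'
  have hsame : u = u' ∧ v = v' := by
    rcases hYq with h5 | h5 <;> rcases hY with h6 | h6 <;> rcases hY' with h7 | h7
    · exact (hnq ⟨h6.1.trans h5.1.symm, h6.2.trans h5.2.symm⟩).elim
    · exact (hnq ⟨h6.1.trans h5.1.symm, h6.2.trans h5.2.symm⟩).elim
    · exact (hnq' ⟨h7.1.trans h5.1.symm, h7.2.trans h5.2.symm⟩).elim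
    · exact ⟨h6.1.trans h7.1.symm, h6.2.trans h7.2.symm⟩
    · exact ⟨h6.1.trans h7.1.symm, h6.2.trans h7.2.symm⟩
    · exact (hnq' ⟨h7.1.trans h5.1.symm, h7.2.trans h5.2.symm⟩).elim
    · exact (hnq ⟨h6.1.trans h5.1.symm, h6.2.trans h5.2.symm⟩).elim
    · exact (hnq ⟨h6.1.trans h5.1.symm, h6.2.trans h5.2.symm⟩).elim
  obtain ⟨rfl, rfl⟩ := hsame
  rcases F2 u v huv hu hv' with h | h
  · rcases hYq with h5 | h5
    · exact hnq ⟨h.1.1.trans h5.1.symm, h.1.2.trans h5.2.symm⟩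
    · exact hnq ⟨h.2.1.trans h5.1.symm, h.2.2.trans h5.2.symm⟩
  · exact nX h.1

end Run7.h180
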