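import Pool.Agent.Run7.h180.Defs

/-!
Basic notions used in the proof.
-/

namespace Run7.h180

variable {U V W : Type}

/-- locally injective homomorphism, elementwise form -/
def LI (G : SimpleGraph W) (H : SimpleGraph V) (f : W → V) : Prop :=
  (∀ u v, G.Adj u v → H.Adj (f u) (f v)) ∧ ∀ u v w, G.Adj u v → G.Adj u w → f v = f w → v = w

theorem isLIHom_iff {G : SimpleGraph W} {H : SimpleGraph V} {f : W → V} :
    IsLIHom G H f ↔ LI G H f := by
  refine and_congr Iff.rfl ⟨fun h u v w hv hw e => h u hv hw e, fun h u v hv w hw e => ?_⟩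
  exact h u v w hv hw e

theorem LI.mono {G G' : SimpleGraph W} {H : SimpleGraph V} {f : W → V} (h : LI G' H f)
    (hG : ∀ u v, G.Adj u v → G'.Adj u v) : LI G H f :=
  ⟨fun u v e => h.1 u v (hG u v e), fun u v w a b e => h.2 u v w (hG _ _ a) (hG _ _ b) e⟩

/-- `c` is a neighbour of `f z` that is not the image of a neighbour of `z` -/
def Miss (H : SimpleGraph V) (G : SimpleGraph W) (f : W → V) (z : W) (c : V) : Prop :=
  H.Adj (f z) c ∧ ∀ w, G.Adj z w → f w ≠ c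

/-- the connectivity assumption in the form of cuts -/
def Cut2 (H : SimpleGraph V) : Prop :=
  ∀ A : Set V, A.Nonempty → Aᶜ.Nonempty → ∀ a b c, H.Adj a b → H.Adj a c →
    ∃ u ∈ A, ∃ v ∉ A, H.Adj u v ∧ s(u, v) ≠ s(a, b) ∧ s(u, v) ≠ s(a, c)

/-- all degrees are at least 3 -/
def D3 (H : SimpleGraph V) : Prop := ∀ v x y, ∃ z, H.Adj v z ∧ z ≠ x ∧ z ≠ y

/-- the finite set of neighbours -/
noncomputable def nb [Fintype V] (H : SimpleGraph V) (v : V) : Finset V := by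
  classical exact Finset.univ.filter fun w => H.Adj v w

theorem mem_nb [Fintype V] {H : SimpleGraph V} {v w : V} : w ∈ nb H v ↔ H.Adj v w := by
  classical simp [nb]

/-- `w 0, w 1, ..., w n` is a non-backtracking walk -/
def NBW (H : SimpleGraph V) (n : ℕ) (w : ℕ → V) : Prop :=
  (∀ i < n, H.Adj (w i) (w (i + 1))) ∧ ∀ i, i + 2 ≤ n → w i ≠ w (i + 2)

/-- there is a non-backtracking walk of length `n` that starts with the dart `(x, y)` and ends with
the dart `(z, t)` -/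
def Rch (H : SimpleGraph V) (n : ℕ) (x y z t : V) : Prop :=
  ∃ w, NBW H n w ∧ w 0 = x ∧ w 1 = y ∧ w (n - 1) = z ∧ w n = t

/-- tie gadgets exist: `f` sends the two ends `y1`, `y2` to the two colours missing at `x`, and the
colour missing at `y1` and `y2` is the colour of `x` -/
def TieThm (H : SimpleGraph V) : Prop :=
  ∀ a b1 b2, H.Adj a b1 → H.Adj a b2 → b1 ≠ b2 →
    ∃ (W : Type) (_ : Finite W) (Q : SimpleGraph W) (p : W → V) (x y1 y2 : W),
      LI Q H p ∧ p x = a ∧ p y1 = b1 ∧ p y2 = b2 ∧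
      Miss H Q p x b1 ∧ Miss H Q p x b2 ∧ Miss H Q p y1 a ∧ Miss H Q p y2 a ∧
      ∀ f, LI Q H f → (∀ c, Miss H Q f y1 c → c = f x) ∧ (∀ c, Miss H Q f y2 c → c = f x) ∧
        ∀ c, Miss H Q f x c → c = f y1 ∨ c = f y2

/-- block graphs exist: graphs with designated nodes `q i` of label `a i` such that every locally
injective homomorphism `f` is, on the designated nodes, an automorphism `α` of `H` composed with the
labelling, and only darts `(a i, c)` with `c ∈ M i` are missing at `q i` (up to `α`) -/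
def BlockThm (H : SimpleGraph V) : Prop :=
  ∀ (ι : Type) [Finite ι] (a : ι → V) (M : ι → Set V), (∀ i, ∃ c, H.Adj (a i) c ∧ c ∉ M i) →
    ∃ (N : ℕ) (G : SimpleGraph ℕ) (p : ℕ → V) (q : ι → ℕ),
      Function.Injective q ∧ (∀ u v, G.Adj u v → u < N) ∧ (∀ i, q i < N) ∧ LI G H p ∧
      (∀ i, p (q i) = a i) ∧ (∀ i c, H.Adj (a i) c → c ∈ M i → Miss H G p (q i) c) ∧
      ∀ f, LI G H f → ∃ α : H ≃g H, ∀ i, f (q i) = α (a i) ∧
        ∀ c, Miss H G f (q i) c → α.symm c ∈ M i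

/-- the walk pattern used by the reduction -/
structure Pat (H : SimpleGraph V) where
  ℓ : ℕ
  h : ℕ
  μ : ℕ
  c : V
  v : V
  b : V
  e : V
  /-- the two neighbours of `c` -/
  cc : Bool → V
  /-- three neighbours of `v` -/
  kk : Fin 3 → V
  /-- two neighbours of `b` -/
  β : Bool → V
  /-- two neighbours of `e` -/
  ε : Bool → V
  hℓ : 2 ≤ ℓ
  hh : 2 ≤ h
  hμ : 1 ≤ μ
  cc_ne : cc false ≠ cc true
  β_ne : β false ≠ β true
  ε_ne : ε false ≠ ε true
  kk_inj : Function.Injective kk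
  v4 : ∃ x, H.Adj v x ∧ ∀ j, kk j ≠ x
  r0 : ¬ Rch H ℓ c (cc false) (kk 0) v
  r1 : Rch H ℓ c (cc false) (kk 1) v
  r2 : Rch H ℓ c (cc false) (kk 2) v
  r3 : Rch H ℓ c (cc true) (kk 0) v
  m1 : ∀ i j, Rch H h c (cc i) (β j) b → j = i
  m2 : ∀ i, ∃ w u : ℕ → V, NBW H h w ∧ w 0 = c ∧ w 1 = cc i ∧ w (h - 1) = β i ∧ w h = b ∧
    NBW H μ u ∧ u 0 = cc i ∧ u (μ - 1) = ε i ∧ u μ = e ∧ u 1 ≠ c ∧ u 1 ≠ w 2
  m3 : ∀ i j k, ∀ w u : ℕ → V, NBW H h w → w 0 = c → w 1 = cc i → w (h - 1) = β j → w h = b →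
    NBW H μ u → u 0 = cc i → u (μ - 1) = ε k → u μ = e → u 1 ≠ c → u 1 ≠ w 2 → k = i

/-- which colours can arrive at `v` -/
def Pat.R {H : SimpleGraph V} (P : Pat H) (b : Bool) (j : Fin 3) : Prop :=
  Rch H P.ℓ P.c (P.cc b) (P.kk j) P.v

end Run7.h180
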