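import Pool.Agent.Run7.h180.Produce

/-!
The block theorem.
-/

namespace Run7.h180

variable {V W : Type} {H : SimpleGraph V}

theorem Inv.ext {C C' : Cfg H} {S : Set ℕ} {r0 res : V → ℕ} (hI : Inv C r0 res) (e : Ext C C' S)
    (h : ∀ c, res c ∉ S) : Inv C' r0 res := by
  refine ⟨fun c => (hI.kn c).ext e, fun c => ?_⟩
  obtain ⟨b, b', hbb, h1, h2⟩ := hI.free c
  exact ⟨b, b', hbb, e.miss (hI.kn c).1 (h c) h1, e.miss (hI.kn c).1 (h c) h2⟩

theorem cherry [Finite V] (ht : TieThm H) (h3 : D3 H) {C : Cfg H} {r0 res : V → ℕ}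
    (hI : Inv C r0 res) {a κ : V} (hκ : H.Adj a κ) :
    ∃ (C' : Cfg H) (res' : V → ℕ), Mv C res C' res' ∅ ∧ Inv C' r0 res' ∧
      ∀ f, LI C'.G H f → ∀ b, H.Adj a b → b ≠ κ → H.Adj (f (r0 a)) (f (r0 b)) ∧
        ∀ b', H.Adj a b' → b' ≠ κ → f (r0 b) = f (r0 b') → b = b' := by
  classical
  cases nonempty_fintype V
  obtain ⟨C1, res1, s, hm1, hI1, hs, hsr, hks, hfs⟩ := supply ht hI hκ
  obtain ⟨C2, res2, hm2, hI2, hL, -⟩ := attach_list ht h3 (((nb H a).erase κ).toList) hI1 hks.1 hsr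
    (Finset.nodup_toList _) (fun b hb => by
      rw [Finset.mem_toList, Finset.mem_erase, mem_nb] at hb
      exact hfs b hb.2 hb.1)
  refine ⟨C2, res2, hm1.trans hm2 (fun _ _ h => h) (fun x hx h => ?_), hI2, fun f hf => ?_⟩
  · have : x = s := h
    omega
  · have hu : ∀ b, H.Adj a b → b ≠ κ → ∃ u, C2.G.Adj s u ∧ f u = f (r0 b) ∧ C2.p u = b := by
      intro b hb hbκ
      obtain ⟨u, -, h1, h2⟩ := hL b (by
        rw [Finset.mem_toList, Finset.mem_erase, mem_nb]; exact ⟨hbκ, hb⟩)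
      exact ⟨u, h2, h1.2.2 f hf, h1.2.1⟩
    have hfs' : f s = f (r0 a) := (hks.ext hm2.1).2.2 f hf
    intro b hb hbκ
    obtain ⟨u, u1, u2, u3⟩ := hu b hb hbκ
    refine ⟨by rw [← hfs', ← u2]; exact hf.1 _ _ u1, fun b' hb' hbκ' e => ?_⟩
    obtain ⟨u', v1, v2, v3⟩ := hu b' hb' hbκ'
    rw [← u3, ← v3, hf.2 s u u' u1 v1 (by rw [u2, v2, e])]

theorem pin [Finite V] (ht : TieThm H) (h3 : D3 H) {C : Cfg H} {r0 res : V → ℕ}
    (hI : Inv C r0 res) {a : V} {M : Set V} (hM : ∃ κ, H.Adj a κ ∧ κ ∉ M) :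
    ∃ (C' : Cfg H) (res' : V → ℕ) (s : ℕ), Mv C res C' res' ∅ ∧ Inv C' r0 res' ∧
      C.N ≤ s ∧ s < C'.N ∧ s ∉ Set.range res' ∧ C'.p s = a ∧
      (∀ c, H.Adj a c → c ∈ M → Miss H C'.G C'.p s c) ∧
      ∀ f, LI C'.G H f → LI H H (f ∘ r0) → f s = f (r0 a) ∧
        ∀ c, H.Adj a c → c ∉ M → ∃ n, C'.G.Adj s n ∧ f n = f (r0 c) := by
  classical
  cases nonempty_fintype V
  obtain ⟨κ, hκ, hκM⟩ := hM
  obtain ⟨κ1, hκ1, n1, -⟩ := h3 a κ κ
  obtain ⟨κ2, hκ2, n2, n3⟩ := h3 a κ κ1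
  obtain ⟨C1, res1, t, hm1, hI1, htN, htr, hkt, hft⟩ := supply ht hI hκ2
  obtain ⟨C2, x, y1, y2, s, hext, hx, hs, hy1, hy2, hxs, px, ps, py1, py2, mx1, mx2, ad1, ad2, nt,
    ns, key⟩ := produce ht C1 hkt.1 hkt.2.1 (hft κ1 hκ1 n3.symm) hκ n1
  have hI2 : Inv C2 r0 res1 := hI1.ext hext fun c h => htr ⟨c, h⟩
  have hm2 : Mv C1 res1 C2 res1 {t} := ⟨hext.mono fun _ _ h => Or.inl h, fun c => Or.inl rfl⟩
  have hr1 : ∀ y, C1.N ≤ y → y ∉ Set.range res1 := by
    rintro y hy ⟨c, rfl⟩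
    have := (hI1.kn c).1
    omega
  obtain ⟨C3, res3, hm3, hI3, hL3, -⟩ := attach_list ht h3 [κ, κ1] hI2 hx.2 (hr1 x hx.1)
    (by simp [n1.symm]) (fun b hb => by
      rcases List.mem_cons.1 hb with rfl | hb
      · exact mx2
      · rw [List.mem_singleton.1 hb]; exact mx1)
  obtain ⟨u1, hu1, ku1, au1⟩ := hL3 κ (by simp)
  obtain ⟨u2, hu2, ku2, au2⟩ := hL3 κ1 (by simp)
  have N12 := hext.N_le
  have N23 := hm3.1.N_le
  have N01 := hm1.1.N_le
  have ht1 : t < C1.N := hkt.1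
  have htx : t ≠ x := by have := hx.1; omega
  have hts : t ≠ s := by have := hs.1; omega
  have ht3r : t ∉ Set.range res3 := hm3.notin (by omega) htr
  have hmt2 : Miss H C2.G C2.p t κ := by
    have h5 := hft κ hκ n2.symm
    refine ⟨by rw [hext.p_eq t ht1]; exact h5.1, fun v hv => ?_⟩
    rcases nt v hv with h | rfl
    · rw [hext.p_eq v (C1.supp _ _ h.symm)]; exact h5.2 v h
    · rw [py1]; exact n1
  have hmt3 : Miss H C3.G C3.p t κ := hm3.1.miss (by omega) (by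
    rintro (h | h)
    · exact htx h
    · exact htr h) hmt2
  obtain ⟨C4, res4, u', hm4, hI4, hu', ku', au', -⟩ := attach ht h3 hI3 (by omega) ht3r hmt3
  have N34 := hm4.1.N_le
  have hs2r : s ∉ Set.range res1 := hr1 s hs.1
  have hs3r : s ∉ Set.range res3 := hm3.notin hs.2 hs2r
  have hs4r : s ∉ Set.range res4 := hm4.notin (by omega) hs3r
  have hns4 : ∀ v, C4.G.Adj s v → v = y2 := by
    intro v hv
    refine ns v (hm3.1.new s hs.2 ?_ v (hm4.1.new s (by omega) ?_ v hv))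
    · rintro (h | h)
      · exact hxs h.symm
      · exact hs2r h
    · rintro (h | h)
      · exact hts h.symm
      · exact hs3r h
  have ps4 : C4.p s = a := by rw [hm4.1.p_eq s (by omega), hm3.1.p_eq s hs.2, ps]
  have py24 : C4.p y2 = κ := by rw [hm4.1.p_eq y2 (by omega), hm3.1.p_eq y2 hy2.2, py2]
  obtain ⟨C5, res5, hm5, hI5, hL5, hn5⟩ := attach_list ht h3
    ((((nb H a).erase κ).filter fun c => c ∉ M).toList) hI4 (by omega) hs4r
    (Finset.nodup_toList _) (fun b hb => by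
      rw [Finset.mem_toList, Finset.mem_filter, Finset.mem_erase, mem_nb] at hb
      refine ⟨by rw [ps4]; exact hb.1.2, fun v hv => ?_⟩
      rw [hns4 v hv, py24]
      exact hb.1.1.symm)
  have N45 := hm5.1.N_le
  refine ⟨C5, res5, s, ?_, hI5, by omega, by omega, hm5.notin (by omega) hs4r, ?_, ?_, ?_⟩
  · have m12 : Mv C res C2 res1 {t} := hm1.trans hm2 (fun _ _ h => by simp at h) (fun _ _ h => h)
    have m13 : Mv C res C3 res3 {t, x} := m12.trans hm3 (fun _ _ h => Or.inl h)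
      (fun _ _ h => Or.inr h)
    have m14 : Mv C res C4 res4 {t, x} := m13.trans hm4 (fun _ _ h => h) (fun _ _ h => Or.inl h)
    have hx1 := hx.1
    have hs1 := hs.1
    exact m14.trans hm5 (fun y hy h => by
      rcases h with h | h
      · have : y = t := h
        omega
      · have : y = x := h
        omega) (fun y hy h => by
        have : y = s := h
        omega)
  · rw [hm5.1.p_eq s (by omega), ps4]
  · intro c hc hcM
    refine ⟨by rw [hm5.1.p_eq s (by omega), ps4]; exact hc, fun v hv => ?_⟩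
    rcases hn5 v hv with h | h
    · rw [hns4 v h, hm5.1.p_eq y2 (by omega), py24]
      rintro rfl
      exact hκM hcM
    · have h6 := h.2
      rw [Finset.mem_toList, Finset.mem_filter] at h6
      intro h7
      exact h6.2 (h7 ▸ hcM)
  · intro f hf hφ
    have hf4 : LI C4.G H f := hm5.1.li hf
    have hf3 : LI C3.G H f := hm4.1.li hf4
    have hf2 : LI C2.G H f := hm3.1.li hf3
    have hf1 : LI C1.G H f := hext.li hf2
    obtain ⟨k1, k2, k3⟩ := key f hf2
    have hft' : f t = f (r0 a) := hkt.2.2 f hf1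
    have hux : ∀ u, C2.N ≤ u → C3.G.Adj x u → f u = f y1 ∨ f u = f y2 := by
      intro u hu hadj
      refine k3 _ ⟨hf3.1 _ _ hadj, fun w hw e => ?_⟩
      have h1 := hf3.2 x w u (hm3.1.G_le _ _ hw) hadj e
      have h2 := C2.supp _ _ hw.symm
      omega
    have e1 : f u1 = f (r0 κ) := ku1.2.2 f hf3
    have e2 : f u2 = f (r0 κ1) := ku2.2.2 f hf3
    have e3 : f u' = f (r0 κ) := ku'.2.2 f hf4
    have hne : f (r0 κ) ≠ f (r0 κ1) := fun h => n1.symm (hφ.2 a κ κ1 hκ hκ1 h)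
    have hne' : f (r0 κ) ≠ f y1 := by
      intro h
      have h1 := hf4.2 t u' y1 au' (hm4.1.G_le _ _ (hm3.1.G_le _ _ ad1)) (by rw [e3, h])
      have := hy1.2
      omega
    have hy2' : f y2 = f (r0 κ) := by
      rcases hux u1 hu1 au1 with h | h
      · exact absurd (e1.symm.trans h) hne'
      · rw [← h, e1]
    refine ⟨k2.trans hft', fun c hc hcM => ?_⟩
    by_cases hcκ : c = κ
    · subst hcκ
      exact ⟨y2, hm5.1.G_le _ _ (hm4.1.G_le _ _ (hm3.1.G_le _ _ ad2)), hy2'⟩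
    · obtain ⟨u, -, h1, h2⟩ := hL5 c (by
        rw [Finset.mem_toList, Finset.mem_filter, Finset.mem_erase, mem_nb]
        exact ⟨⟨hcκ, hc⟩, hcM⟩)
      exact ⟨u, h2, h1.2.2 f hf⟩

/-- the first stage: labels of the reference vertices form an automorphism -/
theorem stage1 [Finite V] [Nonempty V] (ht : TieThm H) (h3 : D3 H) :
    ∃ (C : Cfg H) (r0 res : V → ℕ), Inv C r0 res ∧ ∀ f, LI C.G H f → LI H H (f ∘ r0) := by
  classical
  cases nonempty_fintype V
  obtain ⟨v0⟩ := ‹Nonempty V›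
  let Ce : Cfg H := ⟨0, ⊥, fun _ => v0, fun u v h => h.elim, ⟨fun _ _ h => h.elim,
    fun _ _ _ h => h.elim⟩⟩
  obtain ⟨C0, r0, hg, hgN, -, hp0, -, hn0⟩ := exists_add Ce (⊥ : SimpleGraph V) id
    ⟨fun _ _ h => h.elim, fun _ _ _ h => h.elim⟩
  have hI0 : Inv C0 r0 r0 := by
    refine ⟨fun a => ⟨(hgN a).2, hp0 a, fun f _ => rfl⟩, fun a => ?_⟩
    obtain ⟨b, hb, -⟩ := h3 a a a
    obtain ⟨b', hb', hbb, -⟩ := h3 a b b
    have hm : ∀ c, H.Adj a c → Miss H C0.G C0.p (r0 a) c := fun c hc =>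
      ⟨by rw [hp0]; exact hc, fun v hv => by
        obtain ⟨w', -, h5⟩ := hn0 _ _ hv
        exact h5.elim⟩
    exact ⟨b, b', hbb.symm, hm b hb, hm b' hb'⟩
  have hlist : ∀ L : List (V × V), (∀ q ∈ L, H.Adj q.1 q.2) →
      ∃ (C : Cfg H) (res : V → ℕ), Inv C r0 res ∧ ∀ f, LI C.G H f → ∀ q ∈ L,
        ∀ b, H.Adj q.1 b → b ≠ q.2 → H.Adj (f (r0 q.1)) (f (r0 b)) ∧
        ∀ b', H.Adj q.1 b' → b' ≠ q.2 → f (r0 b) = f (r0 b') → b = b' := by
    intro L
    induction L with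
    | nil => intro _; exact ⟨C0, r0, hI0, fun f _ q hq => by simp at hq⟩
    | cons q L ih =>
      intro hL
      obtain ⟨C, res, hI, hf⟩ := ih fun q' hq' => hL q' (by simp [hq'])
      obtain ⟨C', res', hm, hI', hf'⟩ := cherry ht h3 hI (hL q (by simp))
      refine ⟨C', res', hI', fun f hfl q' hq' => ?_⟩
      rcases List.mem_cons.1 hq' with rfl | hq'
      · exact hf' f hfl
      · exact hf f (hm.1.li hfl) q' hq'
  obtain ⟨C, res, hI, hf⟩ := hlist ((Finset.univ.filter fun q : V × V => H.Adj q.1 q.2).toList)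
    (fun q hq => by simpa using hq)
  refine ⟨C, r0, res, hI, fun f hfl => ?_⟩
  have key : ∀ a κ, H.Adj a κ → ∀ b, H.Adj a b → b ≠ κ → H.Adj (f (r0 a)) (f (r0 b)) ∧
        ∀ b', H.Adj a b' → b' ≠ κ → f (r0 b) = f (r0 b') → b = b' := fun a κ h =>
    hf f hfl (a, κ) (by simpa using h)
  refine ⟨fun a b hab => ?_, fun a b b' hb hb' e => ?_⟩
  · obtain ⟨κ, hκ, hn, -⟩ := h3 a b b
    exact (key a κ hκ b hab hn.symm).1
  · obtain ⟨κ, hκ, hn, hn'⟩ := h3 a b b'
    exact (key a κ hκ b hb hn.symm).2 b' hb' hn'.symm e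

theorem blockThm [Finite V] [Nonempty V] (h3 : D3 H)
    (hiso : ∀ φ : V → V, LI H H φ → ∃ α : H ≃g H, ∀ v, α v = φ v) (ht : TieThm H) :
    BlockThm H := by
  classical
  intro ι _ a M hM
  cases nonempty_fintype ι
  obtain ⟨C0, r0, res0, hI0, hφ0⟩ := stage1 ht h3
  have key : ∀ S : Finset ι, ∃ (C : Cfg H) (res : V → ℕ) (q : ι → ℕ), Inv C r0 res ∧
      (∀ f, LI C.G H f → LI H H (f ∘ r0)) ∧ (∀ i ∈ S, ∀ j ∈ S, q i = q j → i = j) ∧
      ∀ i ∈ S, q i < C.N ∧ q i ∉ Set.range res ∧ C.p (q i) = a i ∧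
        (∀ c, H.Adj (a i) c → c ∈ M i → Miss H C.G C.p (q i) c) ∧
        ∀ f, LI C.G H f → f (q i) = f (r0 (a i)) ∧
          ∀ c, H.Adj (a i) c → c ∉ M i → ∃ n, C.G.Adj (q i) n ∧ f n = f (r0 c) := by
    intro S
    induction S using Finset.induction_on with
    | empty => exact ⟨C0, res0, fun _ => 0, hI0, hφ0, by simp, by simp⟩
    | insert j S hj ih =>
      obtain ⟨C, res, q, hI, hφ, hq, hS⟩ := ih
      obtain ⟨C', res', s, hm, hI', hs, hs', hsr, hps, hms, hfs⟩ := pin ht h3 hI (hM j)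
      refine ⟨C', res', Function.update q j s, hI', fun f hf => hφ f (hm.1.li hf), ?_, ?_⟩
      · intro i hi i' hi' e
        by_cases h1 : i = j <;> by_cases h2 : i' = j
        · rw [h1, h2]
        · exfalso
          subst h1
          rw [Function.update_self, Function.update_of_ne h2] at e
          have := (hS i' (Finset.mem_of_mem_insert_of_ne hi' h2)).1
          omega
        · exfalso
          subst h2
          rw [Function.update_self, Function.update_of_ne h1] at e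
          have := (hS i (Finset.mem_of_mem_insert_of_ne hi h1)).1
          omega
        · rw [Function.update_of_ne h1, Function.update_of_ne h2] at e
          exact hq i (Finset.mem_of_mem_insert_of_ne hi h1) i'
            (Finset.mem_of_mem_insert_of_ne hi' h2) e
      · intro i hi
        by_cases h1 : i = j
        · subst h1
          rw [Function.update_self]
          exact ⟨hs', hsr, hps, hms, fun f hf => hfs f hf (hφ f (hm.1.li hf))⟩
        · rw [Function.update_of_ne h1]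
          obtain ⟨k1, k2, k3, k4, k5⟩ := hS i (Finset.mem_of_mem_insert_of_ne hi h1)
          refine ⟨k1.trans_le hm.1.N_le, hm.notin k1 k2, by rw [hm.1.p_eq _ k1, k3],
            fun c hc hcM => hm.1.miss k1 (by simpa using k2) (k4 c hc hcM), fun f hf => ?_⟩
          obtain ⟨l1, l2⟩ := k5 f (hm.1.li hf)
          refine ⟨l1, fun c hc hcM => ?_⟩
          obtain ⟨n, hn, hn'⟩ := l2 c hc hcM
          exact ⟨n, hm.1.G_le _ _ hn, hn'⟩
  obtain ⟨C, res, q, hI, hφ, hq, hS⟩ := key Finset.univ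
  refine ⟨C.N, C.G, C.p, q, fun i j e => hq i (Finset.mem_univ i) j (Finset.mem_univ j) e, C.supp,
    fun i => (hS i (Finset.mem_univ i)).1, C.li, fun i => (hS i (Finset.mem_univ i)).2.2.1,
    fun i => (hS i (Finset.mem_univ i)).2.2.2.1, fun f hf => ?_⟩
  obtain ⟨α, hα⟩ := hiso _ (hφ f hf)
  refine ⟨α, fun i => ?_⟩
  obtain ⟨l1, l2⟩ := (hS i (Finset.mem_univ i)).2.2.2.2 f hf
  have e1 : f (q i) = α (a i) := by rw [l1, hα]; rfl
  refine ⟨e1, fun c hc => ?_⟩
  by_contra hn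
  have h5 : H.Adj (a i) (α.symm c) := by
    have h6 := hc.1
    rw [e1] at h6
    have h7 := (α.map_adj_iff (v := a i) (w := α.symm c)).1 (by simpa using h6)
    exact h7
  obtain ⟨n, hn1, hn2⟩ := l2 _ h5 hn
  refine hc.2 n hn1 ?_
  rw [hn2]
  have := hα (α.symm c)
  simpa using this.symm

end Run7.h180
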