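import Pool.Agent.Run7.h180.Base

/-!
Configurations: graphs on the naturals with a locally injective labelling.
-/

namespace Run7.h180

variable {V W : Type}

/-- a finite graph with a locally injective labelling -/
structure Cfg (H : SimpleGraph V) where
  /-- bound for the vertices -/
  N : ℕ
  /-- the graph -/
  G : SimpleGraph ℕ
  /-- the labelling -/
  p : ℕ → V
  supp : ∀ u v, G.Adj u v → u < N
  li : LI G H p

variable {H : SimpleGraph V}

/-- `C'` extends `C`, and only vertices of `S` get new neighbours -/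
structure Ext (C C' : Cfg H) (S : Set ℕ) : Prop where
  N_le : C.N ≤ C'.N
  p_eq : ∀ u < C.N, C'.p u = C.p u
  G_le : ∀ u v, C.G.Adj u v → C'.G.Adj u v
  new : ∀ u < C.N, u ∉ S → ∀ v, C'.G.Adj u v → C.G.Adj u v

theorem Ext.refl (C : Cfg H) (S : Set ℕ) : Ext C C S :=
  ⟨le_rfl, fun _ _ => rfl, fun _ _ h => h, fun _ _ _ _ h => h⟩

theorem Ext.trans {C C' C'' : Cfg H} {S S' T : Set ℕ} (h : Ext C C' S) (h' : Ext C' C'' S')
    (h1 : ∀ u < C.N, u ∈ S → u ∈ T) (h2 : ∀ u < C.N, u ∈ S' → u ∈ T) : Ext C C'' T := by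
  refine ⟨h.N_le.trans h'.N_le, fun u hu => ?_, fun u v e => h'.G_le _ _ (h.G_le _ _ e),
    fun u hu hT v e => ?_⟩
  · rw [h'.p_eq u (hu.trans_le h.N_le), h.p_eq u hu]
  · refine h.new u hu (fun h5 => hT (h1 u hu h5)) v ?_
    exact h'.new u (hu.trans_le h.N_le) (fun h5 => hT (h2 u hu h5)) v e

theorem Ext.mono {C C' : Cfg H} {S T : Set ℕ} (h : Ext C C' S)
    (h1 : ∀ u < C.N, u ∈ S → u ∈ T) : Ext C C' T :=
  ⟨h.N_le, h.p_eq, h.G_le, fun u hu hT v e => h.new u hu (fun h5 => hT (h1 u hu h5)) v e⟩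

theorem Ext.miss {C C' : Cfg H} {S : Set ℕ} (h : Ext C C' S) {u : ℕ} (hu : u < C.N) (hS : u ∉ S)
    {b : V} (hb : Miss H C.G C.p u b) : Miss H C'.G C'.p u b := by
  refine ⟨by rw [h.p_eq u hu]; exact hb.1, fun v hv => ?_⟩
  have h1 := h.new u hu hS v hv
  rw [h.p_eq v (C.supp v u h1.symm)]
  exact hb.2 v h1

theorem Ext.li {C C' : Cfg H} {S : Set ℕ} (h : Ext C C' S) {f : ℕ → V} (hf : LI C'.G H f) :
    LI C.G H f := hf.mono h.G_le

/-- add a disjoint finite graph -/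
theorem exists_add [Finite W] (C : Cfg H) (Q : SimpleGraph W) (p2 : W → V) (h : LI Q H p2) :
    ∃ (C' : Cfg H) (g : W → ℕ), Function.Injective g ∧ (∀ w, C.N ≤ g w ∧ g w < C'.N) ∧
      Ext C C' ∅ ∧ (∀ w, C'.p (g w) = p2 w) ∧ (∀ w w', Q.Adj w w' → C'.G.Adj (g w) (g w')) ∧
      ∀ w n, C'.G.Adj (g w) n → ∃ w', n = g w' ∧ Q.Adj w w' := by
  classical
  cases nonempty_fintype W
  let e := Fintype.equivFin W
  let g : W → ℕ := fun w => C.N + (e w).val
  have hg : Function.Injective g := by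
    intro w w' h
    have : (e w).val = (e w').val := by simp only [g] at h; omega
    exact e.injective (Fin.ext this)
  have hgN : ∀ w, C.N ≤ g w ∧ g w < C.N + Fintype.card W := fun w => by
    have := (e w).2
    simp only [g]; omega
  have hp1 : ∀ w, Function.extend g p2 C.p (g w) = p2 w := fun w => hg.extend_apply _ _ _
  have hp2 : ∀ u < C.N, Function.extend g p2 C.p u = C.p u := by
    intro u hu
    refine Function.extend_apply' _ _ _ ?_
    rintro ⟨w, rfl⟩
    have := (hgN w).1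
    omega
  have hsupp2 : ∀ u v, C.G.Adj u v → v < C.N := fun u v h => C.supp v u h.symm
  let G' : SimpleGraph ℕ :=
    { Adj := fun u v => C.G.Adj u v ∨ ∃ w w', u = g w ∧ v = g w' ∧ Q.Adj w w'
      symm := ⟨by
        rintro u v (h | ⟨w, w', h1, h2, h3⟩)
        · exact Or.inl h.symm
        · exact Or.inr ⟨w', w, h2, h1, h3.symm⟩⟩
      loopless := ⟨by
        rintro u (h | ⟨w, w', h1, h2, h3⟩)
        · exact C.G.loopless.irrefl u h
        · exact h3.ne (hg (h1.symm.trans h2))⟩ }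
  have hG' : ∀ u v, G'.Adj u v ↔ C.G.Adj u v ∨ ∃ w w', u = g w ∧ v = g w' ∧ Q.Adj w w' :=
    fun _ _ => Iff.rfl
  have hgw : ∀ w n, G'.Adj (g w) n → ∃ w', n = g w' ∧ Q.Adj w w' := by
    intro w n h
    rcases (hG' _ _).1 h with h | ⟨w1, w', h1, h2, h3⟩
    · have := C.supp _ _ h
      have := (hgN w).1
      omega
    · exact ⟨w', h2, by rwa [hg h1]⟩
  refine ⟨⟨C.N + Fintype.card W, G', Function.extend g p2 C.p, ?_, ?_, ?_⟩, g, hg, hgN,
    ⟨by simp, hp2, fun u v h => Or.inl h, ?_⟩, hp1, fun w w' h => Or.inr ⟨w, w', rfl, rfl, h⟩, hgw⟩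
  · rintro u v (h | ⟨w, w', h1, h2, h3⟩)
    · have := C.supp u v h; omega
    · rw [h1]; exact (hgN w).2
  · rintro u v (h | ⟨w, w', rfl, rfl, h3⟩)
    · rw [hp2 u (C.supp u v h), hp2 v (hsupp2 u v h)]
      exact C.li.1 u v h
    · rw [hp1, hp1]
      exact h.1 w w' h3
  · intro u v w hv hw he
    rcases hv with hv | ⟨w1, w1', rfl, rfl, h3⟩
    · rcases hw with hw | ⟨w2, w2', rfl, rfl, h4⟩
      · rw [hp2 v (hsupp2 u v hv), hp2 w (hsupp2 u w hw)] at he
        exact C.li.2 u v w hv hw he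
      · have := C.supp _ _ hv
        have := (hgN w2).1
        omega
    · obtain ⟨w2', rfl, h5⟩ := hgw w1 w hw
      rw [hp1, hp1] at he
      rw [h.2 w1 w1' w2' h3 h5 he]
  · rintro u hu - v (h | ⟨w, w', rfl, rfl, h3⟩)
    · exact h
    · have := (hgN w).1
      omega

/-- add an edge -/
theorem exists_edge (C : Cfg H) {u v : ℕ} (hu : u < C.N) (hv : v < C.N)
    (h1 : Miss H C.G C.p u (C.p v)) (h2 : Miss H C.G C.p v (C.p u)) :
    ∃ C' : Cfg H, C'.N = C.N ∧ C'.p = C.p ∧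
      (∀ x y, C'.G.Adj x y ↔ C.G.Adj x y ∨ (x = u ∧ y = v) ∨ (x = v ∧ y = u)) ∧
      Ext C C' {u, v} := by
  have huv : u ≠ v := by
    rintro rfl
    exact h1.1.ne rfl
  let G' : SimpleGraph ℕ :=
    { Adj := fun x y => C.G.Adj x y ∨ (x = u ∧ y = v) ∨ (x = v ∧ y = u)
      symm := ⟨by
        rintro x y (h | h | h)
        · exact Or.inl h.symm
        · exact Or.inr (Or.inr ⟨h.2, h.1⟩)
        · exact Or.inr (Or.inl ⟨h.2, h.1⟩)⟩
      loopless := ⟨by
        rintro x (h | h | h)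
        · exact C.G.loopless.irrefl x h
        · exact huv (h.1.symm.trans h.2)
        · exact huv (h.2.symm.trans h.1)⟩ }
  refine ⟨⟨C.N, G', C.p, ?_, ?_, ?_⟩, rfl, rfl, fun _ _ => Iff.rfl, le_rfl, fun _ _ => rfl,
    fun x y h => Or.inl h, ?_⟩
  · rintro x y (h | h | h)
    · exact C.supp x y h
    · rw [h.1]; exact hu
    · rw [h.1]; exact hv
  · rintro x y (h | ⟨rfl, rfl⟩ | ⟨rfl, rfl⟩)
    · exact C.li.1 x y h
    · exact h1.1
    · exact h2.1
  · intro x y z hy hz e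
    rcases hy with hy | ⟨rfl, rfl⟩ | ⟨rfl, rfl⟩ <;> rcases hz with hz | ⟨q1, q2⟩ | ⟨q1, q2⟩
    · exact C.li.2 x y z hy hz e
    · subst q1 q2
      exact absurd e (h1.2 y hy)
    · subst q1 q2
      exact absurd e (h2.2 y hy)
    · exact absurd e.symm (h1.2 z hz)
    · exact q2.symm
    · exact absurd q1 huv
    · exact absurd e.symm (h2.2 z hz)
    · exact absurd q1.symm huv
    · exact q2.symm
  · intro x hx hS y h
    rcases h with h | h | h
    · exact h
    · exact absurd (Or.inl h.1) hS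
    · exact absurd (Or.inr h.1) hS

end Run7.h180
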