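import Pool.Agent.Run7.h180.Walks

/-!
A finite cover of `H` that contains the ball of radius `R` of the universal cover.
-/

namespace Run7.h180

variable {U V W K : Type}

/-- a partial injection of a finite set extends to a permutation -/
theorem exists_perm_of_rel [Finite K] (rel : K → K → Prop)
    (h1 : ∀ k k1 k2, rel k k1 → rel k k2 → k1 = k2) (h2 : ∀ k k1 k2, rel k1 k → rel k2 k → k1 = k2) :
    ∃ e : Equiv.Perm K, ∀ k k', rel k k' → e k = k' := by
  classical
  cases nonempty_fintype K
  let A : {k // ∃ k', rel k k'} ≃ {k' // ∃ k, rel k k'} :=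
    { toFun := fun x => ⟨x.2.choose, x.1, x.2.choose_spec⟩
      invFun := fun y => ⟨y.2.choose, y.1, y.2.choose_spec⟩
      left_inv := by
        rintro ⟨k, hk⟩
        have hh : ∃ k1, rel k1 hk.choose := ⟨k, hk.choose_spec⟩
        exact Subtype.ext (h2 _ _ _ hh.choose_spec hk.choose_spec)
      right_inv := by
        rintro ⟨k, hk⟩
        have hh : ∃ k1, rel hk.choose k1 := ⟨k, hk.choose_spec⟩
        exact Subtype.ext (h1 _ _ _ hh.choose_spec hk.choose_spec) }
  refine ⟨A.extendSubtype, fun k k' h => ?_⟩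
  have hk : ∃ k', rel k k' := ⟨k', h⟩
  rw [Equiv.extendSubtype_apply_of_mem A k hk]
  exact h1 _ _ _ hk.choose_spec h

/-- `l` is a non-backtracking walk that starts at `a` (the last entry) and ends at its head -/
def NBc (H : SimpleGraph V) (a : V) : List V → Prop
  | [] => False
  | [u] => u = a
  | u :: v :: l => H.Adj u v ∧ l.head? ≠ some u ∧ NBc H a (v :: l)

/-- the non-backtracking walks with at most `R` steps from `a` -/
def KK (H : SimpleGraph V) (a : V) (R : ℕ) : Type := {l : List V // l.length ≤ R + 1 ∧ NBc H a l}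

instance [Finite V] (H : SimpleGraph V) (a : V) (R : ℕ) : Finite (KK H a R) :=
  ((List.finite_length_le V (R + 1)).subset
    (t := {l : List V | l.length ≤ R + 1 ∧ NBc H a l}) fun _ h => h.1).to_subtype

variable {H : SimpleGraph V} {a : V} {R : ℕ}

/-- the move along the dart `(u, v)` -/
def St (u v : V) (k k' : KK H a R) : Prop :=
  k.1.head? = some u ∧ k'.1.head? = some v ∧ (k'.1 = v :: k.1 ∨ k.1 = u :: k'.1)

theorem St.symm {u v : V} {k k' : KK H a R} (h : St u v k k') : St v u k' k :=
  ⟨h.2.1, h.1, h.2.2.symm⟩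

theorem St.fn {u v : V} {k k1 k2 : KK H a R} (h1 : St u v k k1) (h2 : St u v k k2) : k1 = k2 := by
  have key : ∀ k1 k2 : KK H a R, St u v k k1 → St u v k k2 → k1.1 = v :: k.1 → k.1 = u :: k2.1 →
      False := by
    intro k1 k2 h1 h2 e1 e2
    have := k1.2.2
    rw [e1, e2] at this
    exact this.2.1 h2.2.1
  rcases h1.2.2 with e1 | e1 <;> rcases h2.2.2 with e2 | e2
  · exact Subtype.ext (e1.trans e2.symm)
  · exact (key k1 k2 h1 h2 e1 e2).elim
  · exact (key k2 k1 h2 h1 e2 e1).elim
  · exact Subtype.ext (List.cons.inj (e1.symm.trans e2)).2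

theorem St.exists {u v : V} {k : KK H a R} (huv : H.Adj u v) (hk : k.1.head? = some u)
    (hl : k.1.length ≤ R) : ∃ k', St u v k k' := by
  obtain ⟨l, h1, h2⟩ := k
  cases l with
  | nil => simp at hk
  | cons x t =>
    obtain rfl : x = u := by simpa using hk
    by_cases ht : t.head? = some v
    · cases t with
      | nil => simp at ht
      | cons y t =>
        obtain rfl : y = v := by simpa using ht
        exact ⟨⟨y :: t, by simp at h1 ⊢; omega, h2.2.2⟩, rfl, rfl, Or.inr rfl⟩
    · exact ⟨⟨v :: x :: t, by simp at hl ⊢; omega, huv.symm, ht, h2⟩, rfl, rfl, Or.inl rfl⟩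

/-- the permutations of the cover -/
theorem exists_perms [Finite V] (H : SimpleGraph V) (a : V) (R : ℕ) :
    ∃ e : V → V → Equiv.Perm (KK H a R), (∀ u v, e v u = (e u v)⁻¹) ∧
      ∀ u v k k', u ≠ v → St u v k k' → e u v k = k' := by
  classical
  cases nonempty_fintype V
  have : ∀ u v : V, ∃ e : Equiv.Perm (KK H a R), ∀ k k', St u v k k' → e k = k' := fun u v =>
    exists_perm_of_rel _ (fun _ _ _ h1 h2 => h1.fn h2) fun _ _ _ h1 h2 => h1.symm.fn h2.symm
  choose e he using this
  let o := Fintype.equivFin V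
  refine ⟨fun u v => if o u < o v then e u v else if o v < o u then (e v u)⁻¹ else 1,
    fun u v => ?_, fun u v k k' hne h => ?_⟩
  · rcases lt_trichotomy (o u) (o v) with h | h | h
    · simp [h, h.not_gt]
    · simp [h]
    · simp [h, h.not_gt]
  · rcases lt_trichotomy (o u) (o v) with h' | h' | h'
    · simp only [h', if_true]
      exact he _ _ _ _ h
    · exact absurd (o.injective h') hne
    · simp only [h', h'.not_gt, if_true, if_false]
      rw [Equiv.Perm.inv_eq_iff_eq]
      exact (he _ _ _ _ h.symm).symm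

/-- the cover -/
def FF (H : SimpleGraph V) (e : V → V → Equiv.Perm K) (he : ∀ u v, e v u = (e u v)⁻¹) :
    SimpleGraph (V × K) where
  Adj z z' := H.Adj z.1 z'.1 ∧ e z.1 z'.1 z.2 = z'.2
  symm := ⟨fun z z' h => ⟨h.1.symm, by rw [he, Equiv.Perm.inv_eq_iff_eq]; exact h.2.symm⟩⟩
  loopless := ⟨fun z h => H.loopless.irrefl _ h.1⟩

theorem ff_adj {H : SimpleGraph V} {e : V → V → Equiv.Perm K} {he : ∀ u v, e v u = (e u v)⁻¹}
    {z z' : V × K} : (FF H e he).Adj z z' ↔ H.Adj z.1 z'.1 ∧ e z.1 z'.1 z.2 = z'.2 := Iff.rfl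

end Run7.h180
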