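import Pool.Agent.Run7.h180.Base

/-!
Piece H: from connectivity to cuts.
-/

namespace Run7.h180

variable {V : Type}

/-- a connected graph has an edge across every cut -/
theorem exists_cross {H : SimpleGraph V} (hc : H.Connected) {A : Set V} (h1 : A.Nonempty)
    (h2 : Aᶜ.Nonempty) : ∃ u ∈ A, ∃ v ∉ A, H.Adj u v := by
  obtain ⟨x, hx⟩ := h1
  obtain ⟨y, hy⟩ := h2
  obtain ⟨p⟩ := hc.preconnected x y
  obtain ⟨d, -, hd1, hd2⟩ := p.exists_boundary_dart A hx hy
  exact ⟨d.fst, hd1, d.snd, hd2, d.adj⟩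

/-- the hypothesis of the main theorem -/
theorem cut2_of {H : SimpleGraph V} [Finite V]
    (hC : ∀ a b c, H.Adj a b → H.Adj a c → (H.deleteEdges {s(a, b), s(a, c)}).Connected) :
    Cut2 H := by
  intro A h1 h2 a b c hab hac
  obtain ⟨u, hu, v, hv, h⟩ := exists_cross (hC a b c hab hac) h1 h2
  rw [SimpleGraph.deleteEdges_adj] at h
  simp only [Set.mem_insert_iff, Set.mem_singleton_iff, not_or] at h
  exact ⟨u, hu, v, hv, h.1, h.2.1, h.2.2⟩

/-- `hne` : there is a dart -/
theorem d3_of {H : SimpleGraph V} {x y : V} (hxy : H.Adj x y)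
    (hC : ∀ a b c, H.Adj a b → H.Adj a c → (H.deleteEdges {s(a, b), s(a, c)}).Connected) :
    D3 H := by
  classical
  have hne : ∀ v : V, ({v} : Set V)ᶜ.Nonempty := by
    intro v
    by_cases h : x = v
    · exact ⟨y, fun h' => hxy.ne (h.trans (Set.mem_singleton_iff.1 h').symm)⟩
    · exact ⟨x, fun h' => h (Set.mem_singleton_iff.1 h')⟩
  have hnb : ∀ v b c, H.Adj v b → H.Adj v c → ∃ z, H.Adj v z ∧ z ≠ b ∧ z ≠ c := by
    intro v b c hb hc
    obtain ⟨u, hu, z, hz, h⟩ := exists_cross (hC v b c hb hc) (Set.singleton_nonempty v) (hne v)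
    rw [Set.mem_singleton_iff] at hu
    subst hu
    rw [SimpleGraph.deleteEdges_adj] at h
    simp only [Set.mem_insert_iff, Set.mem_singleton_iff, not_or] at h
    exact ⟨z, h.1, fun e => h.2.1 (by rw [e]), fun e => h.2.2 (by rw [e])⟩
  intro v a b
  have hw : ∃ w, H.Adj v w := by
    have hc : H.Connected := (hC x y y hxy hxy).mono (SimpleGraph.deleteEdges_le _)
    obtain ⟨u, hu, z, hz, h⟩ := exists_cross hc (Set.singleton_nonempty v) (hne v)
    rw [Set.mem_singleton_iff] at hu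
    subst hu
    exact ⟨z, h⟩
  obtain ⟨w, hw⟩ := hw
  obtain ⟨z, h1, h2, h3⟩ := hnb v (if H.Adj v a then a else w) (if H.Adj v b then b else w)
    (by split_ifs with h; exacts [h, hw]) (by split_ifs with h; exacts [h, hw])
  refine ⟨z, h1, ?_, ?_⟩
  · rintro rfl; rw [if_pos h1] at h2; exact h2 rfl
  · rintro rfl; rw [if_pos h1] at h3; exact h3 rfl

end Run7.h180
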