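import Pool.Agent.H38.NP.Graphs

/-!
Locally injective homomorphisms and the decision problem `H`-LIHOM.
-/

namespace Run7.h180

open Pool.Agent.H38.NP

/-- `f` is a locally injective homomorphism from `G` to `H`: adjacent vertices go to adjacent
vertices, and distinct neighbours of a vertex go to distinct vertices. -/
def IsLIHom {U W : Type} (G : SimpleGraph U) (H : SimpleGraph W) (f : U → W) : Prop :=
  (∀ u v, G.Adj u v → H.Adj (f u) (f v)) ∧ ∀ v, Set.InjOn f (G.neighborSet v)

/-- The decision problem `H`-LIHOM. An instance is the pair of a number `n` of vertices (in unary)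
and a list of edges on the vertices `0, ..., n - 1`. -/
def LIHOM {k : ℕ} (H : SimpleGraph (Fin k)) (I : ℕ × List (ℕ × ℕ)) : Prop :=
  ∃ f : Fin I.1 → Fin k, IsLIHom (graphOf I.1 I.2) H f

end Run7.h180
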