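import Pool.Agent.Run7.h180.Glue

/-!
The reduction: basic facts and normal form of locally injective homomorphisms.
-/

namespace Run7.h180

open Pool.Agent.H38.NP

variable {V W X T : Type} {H : SimpleGraph V}

theorem Fm.nx_spec {F : Fm} {k m : ℕ} (h : F.nx k = some m) :
    k < m ∧ m < F.K ∧ F.var m = F.var k ∧ ∀ j, k < j → j < m → F.var j ≠ F.var k := by
  unfold Fm.nx at h
  rw [List.head?_filter, List.find?_range_eq_some] at h
  obtain ⟨h1, h2, h3⟩ := h
  simp only [Bool.and_eq_true, decide_eq_true_eq, List.mem_range] at h1 h2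
  refine ⟨h1.1, h2, h1.2, fun j hj hjm e => ?_⟩
  have := h3 j hjm
  simp [hj, e] at this

theorem Fm.nx_exists {F : Fm} {k m : ℕ} (h : k < m) (hm : m < F.K) (hv : F.var m = F.var k) :
    ∃ m', F.nx k = some m' ∧ m' ≤ m := by
  cases h' : F.nx k with
  | none =>
    unfold Fm.nx at h'
    rw [List.head?_filter, List.find?_range_eq_none] at h'
    have := h' m hm
    simp [h, hv] at this
  | some m' =>
    refine ⟨m', rfl, ?_⟩
    by_contra hn
    exact (Fm.nx_spec h').2.2.2 m h (by omega) hv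

theorem Fm.nx_inj {F : Fm} {k k' m : ℕ} (h : F.nx k = some m) (h' : F.nx k' = some m) : k = k' := by
  obtain ⟨a1, a2, a3, a4⟩ := Fm.nx_spec h
  obtain ⟨b1, b2, b3, b4⟩ := Fm.nx_spec h'
  rcases lt_trichotomy k k' with h5 | h5 | h5
  · exact absurd (b3.symm.trans a3) (a4 k' h5 b1)
  · exact h5
  · exact absurd (a3.symm.trans b3) (b4 k h5 a1)

theorem Fm.state {F : Fm} {I : ℕ → Bool} (hI : ∀ k m, F.nx k = some m → I k = I m) :
    ∀ d k m, m = k + d → m < F.K → F.var m = F.var k → I k = I m := by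
  intro d
  induction d using Nat.strong_induction_on with
  | _ d ih =>
    intro k m hm hmK hv
    rcases Nat.eq_zero_or_pos d with h | h
    · rw [hm, h]; rfl
    · obtain ⟨m', h1, h2⟩ := Fm.nx_exists (F := F) (k := k) (m := m) (by omega) hmK hv
      obtain ⟨c1, c2, c3, c4⟩ := Fm.nx_spec h1
      rw [hI k m' h1]
      exact ih (m - m') (by omega) m' m (by omega) hmK (hv.trans c3.symm)

/-- the labels of the nodes -/
def lab (P : Pat H) (ν : V → V) : Nd V → V
  | Sum.inl a => a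
  | Sum.inr (Sum.inl a) => ν a
  | Sum.inr (Sum.inr j) => if j = 2 then P.b else if j = 3 then P.e else if j = 4 then P.v else P.c

/-- the sets of missing colours -/
def MM (P : Pat H) (ν : V → V) : Nd V → Set V
  | Sum.inl a => {ν a}
  | Sum.inr (Sum.inl a) => {a}
  | Sum.inr (Sum.inr j) => if j = 2 then Set.range P.β else if j = 3 then Set.range P.ε else
      if j = 4 then Set.range P.kk else Set.range P.cc

theorem RD.loc_inj {D : RD V} (hq : Function.Injective D.q) {x y : Nd V ⊕ Bool}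
    (h : D.loc x = D.loc y) : x = y := by
  have hN : ∀ b, D.N ≤ D.loc (Sum.inr b) := fun b => by cases b <;> simp [RD.loc]
  rcases x with x | x <;> rcases y with y | y
  · rw [hq h]
  · have h1 := D.qN x
    have h2 := hN y
    have h3 : D.loc (Sum.inl x) = D.q x := rfl
    omega
  · have h1 := D.qN y
    have h2 := hN x
    have h3 : D.loc (Sum.inl y) = D.q y := rfl
    omega
  · cases x <;> cases y <;> simp [RD.loc] at h ⊢

theorem nod_ne (sg : Bool) (kd : Kd V) : nod sg kd false ≠ nod sg kd true := by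
  cases kd <;> cases sg <;> simp [nod]

theorem RD.len_pos (D : RD V) (kd : Kd V) : 1 ≤ D.len kd := by
  have := D.hh
  have := D.hℓ
  have := D.hμ
  cases kd <;> simp [RD.len] <;> omega

theorem RD.ep_ne {D : RD V} (hq : Function.Injective D.q) (F : Fm) (t : ℕ × Kd V) :
    D.ep F false t ≠ D.ep F true t := fun h =>
  nod_ne _ _ (RD.loc_inj hq (congrArg Prod.snd h))

theorem RD.no_par {D : RD V} (F : Fm) (t : ℕ × Kd V) (h1 : D.len t.2 = 1) :
    ¬ (D.base F).Adj (D.ep F false t) (D.ep F true t) := by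
  rintro ⟨e1, -, h⟩
  have hN : ∀ b, D.N ≤ D.loc (Sum.inr b) := fun b => by cases b <;> simp [RD.loc]
  have s1 := D.supp _ _ h
  have s2 := D.supp _ _ h.symm
  obtain ⟨k, kd⟩ := t
  have h0 := hN false
  have h0' := hN true
  have := D.hℓ
  cases kd
  case ch a =>
    simp only [RD.ep, Fm.blk] at e1
    omega
  case out =>
    simp only [RD.len] at h1
    omega
  all_goals
    simp only [RD.ep, nod] at s1 s2
    omega

theorem LI.iso {G : SimpleGraph W} {f : W → V} (h : LI G H f) (α : H ≃g H) :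
    LI G H fun x => α (f x) :=
  ⟨fun u v e => α.map_adj_iff.2 (h.1 u v e), fun u v w a b e => h.2 u v w a b (α.injective e)⟩

theorem red_block_li {D : RD V} {F : Fm} {f : (ℕ × ℕ) ⊕ ((ℕ × Kd V) × ℕ) → V}
    (hf : LI (D.graph F) H f) {k : ℕ} (hk : k < F.K) : LI D.G H fun j => f (Sum.inl (k, j)) := by
  have h1 := glue_li_base hf
  refine ⟨fun u v h => h1.1 _ _ ⟨rfl, hk, h⟩, fun u v w h h' e => ?_⟩
  exact congrArg Prod.snd (h1.2 (k, u) (k, v) (k, w) ⟨rfl, hk, h⟩ ⟨rfl, hk, h'⟩ e)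

theorem red_miss {D : RD V} (hq : Function.Injective D.q) {F : Fm}
    {f : (ℕ × ℕ) ⊕ ((ℕ × Kd V) × ℕ) → V} (hf : LI (D.graph F) H f) {t : ℕ × Kd V} (ht : F.ok t)
    (s : Bool) (hb : F.blk t s < F.K) :
    Miss H D.G (fun j => f (Sum.inl (F.blk t s, j))) (D.loc (nod (F.sgn t.1) t.2 s))
      (f (hv (fun t => D.len t.2) (D.ep F false) (D.ep F true) t s)) := by
  have h := glue_miss hf ht (D.len_pos t.2) (RD.ep_ne hq F t) (RD.no_par F t) s
  have e : epv (D.ep F false) (D.ep F true) t s =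
      (F.blk t s, D.loc (nod (F.sgn t.1) t.2 s)) := by cases s <;> rfl
  rw [e] at h
  exact ⟨h.1, fun w hw => h.2 (F.blk t s, w) ⟨rfl, hb, hw⟩⟩

theorem red_ne {D : RD V} (hq : Function.Injective D.q) {F : Fm}
    {f : (ℕ × ℕ) ⊕ ((ℕ × Kd V) × ℕ) → V} (hf : LI (D.graph F) H f) {t t' : ℕ × Kd V}
    (ht : F.ok t) (ht' : F.ok t') (htt : t ≠ t') {s s' : Bool} (hb : F.blk t s = F.blk t' s')
    (hnd : nod (F.sgn t.1) t.2 s = nod (F.sgn t'.1) t'.2 s')
    (ho : nod (F.sgn t.1) t.2 (!s) ≠ nod (F.sgn t'.1) t'.2 (!s') ∨ F.blk t (!s) ≠ F.blk t' (!s')) :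
    f (hv (fun t => D.len t.2) (D.ep F false) (D.ep F true) t s) ≠
      f (hv (fun t => D.len t.2) (D.ep F false) (D.ep F true) t' s') := by
  have e : ∀ t s, epv (D.ep F false) (D.ep F true) t s =
      (F.blk t s, D.loc (nod (F.sgn t.1) t.2 s)) := by intro t s; cases s <;> rfl
  refine glue_ne hf ht ht' (D.len_pos t.2) (D.len_pos t'.2) (RD.ep_ne hq F t) (RD.ep_ne hq F t')
    htt ?_ ?_
  · rw [e, e, hb, hnd]
  · rw [e, e]
    intro h
    rcases ho with ho | ho
    · exact ho (RD.loc_inj hq (congrArg Prod.snd h))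
    · exact ho (congrArg Prod.fst h)

theorem red_normal {P : Pat H} {ν : V → V} {D : RD V} (hq : Function.Injective D.q)
    (hblk : ∀ f, LI D.G H f → ∃ α : H ≃g H, ∀ i, f (D.q i) = α (lab P ν i) ∧
      ∀ c, Miss H D.G f (D.q i) c → α.symm c ∈ MM P ν i) {F : Fm}
    {f : (ℕ × ℕ) ⊕ ((ℕ × Kd V) × ℕ) → V} (hf : LI (D.graph F) H f) :
    ∃ f' : (ℕ × ℕ) ⊕ ((ℕ × Kd V) × ℕ) → V, LI (D.graph F) H f' ∧ ∀ k < F.K, ∀ i,
      f' (Sum.inl (k, D.q i)) = lab P ν i ∧
        ∀ c, Miss H D.G (fun j => f' (Sum.inl (k, j))) (D.q i) c → c ∈ MM P ν i := by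
  have hα : ∀ k, ∃ α : H ≃g H, k < F.K → ∀ i, f (Sum.inl (k, D.q i)) = α (lab P ν i) ∧
      ∀ c, Miss H D.G (fun j => f (Sum.inl (k, j))) (D.q i) c → α.symm c ∈ MM P ν i := by
    intro k
    by_cases hk : k < F.K
    · obtain ⟨α, h⟩ := hblk _ (red_block_li hf hk)
      exact ⟨α, fun _ => h⟩
    · exact ⟨SimpleGraph.Iso.refl, fun h => absurd h hk⟩
  choose α hα using hα
  have hstep : ∀ k, k + 1 < F.K → ∀ a, α (k + 1) a = α k a := by
    intro k hk a
    have ht : F.ok (k, Kd.ch a) := ⟨by show k < F.K; omega, hk⟩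
    have h := red_miss hq hf ht false (by show k < F.K; omega)
    have e1 : hv (fun t : ℕ × Kd V => D.len t.2) (D.ep F false) (D.ep F true) (k, Kd.ch a) false =
        Sum.inl (k + 1, D.q (Sum.inl a)) :=
      pv_last (A := D.ep F false) (n := fun t : ℕ × Kd V => D.len t.2) (t := (k, Kd.ch a))
        (le_refl 1)
    rw [e1, (hα (k + 1) hk (Sum.inl a)).1] at h
    have h5 := (hα k (by omega) (Sum.inr (Sum.inl a))).2 _ h
    have h6 : (α k).symm (α (k + 1) a) = a := h5
    have h7 := congrArg (α k) h6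
    simpa using h7
  have hall : ∀ k, k < F.K → ∀ a, α k a = α 0 a := by
    intro k
    induction k with
    | zero => intro _ _; rfl
    | succ k ih => intro hk a; rw [hstep k hk a, ih (by omega) a]
  refine ⟨fun x => (α 0).symm (f x), hf.iso (α 0).symm, fun k hk i => ?_⟩
  obtain ⟨h1, h2⟩ := hα k hk i
  refine ⟨?_, fun c hc => ?_⟩
  · show (α 0).symm (f (Sum.inl (k, D.q i))) = _
    rw [h1, hall k hk]; simp
  · have h5 : Miss H D.G (fun j => f (Sum.inl (k, j))) (D.q i) (α 0 c) := by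
      refine ⟨?_, fun w hw e => hc.2 w hw ?_⟩
      · have := (α 0).map_adj_iff.2 hc.1
        simpa using this
      · show (α 0).symm (f (Sum.inl (k, w))) = c
        have e' : f (Sum.inl (k, w)) = α 0 c := e
        rw [e']; simp
    have h6 := h2 _ h5
    have h7 : (α k).symm (α 0 c) = c := by rw [← hall k hk c]; simp
    rwa [h7] at h6

end Run7.h180
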