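import Pool.Agent.Run7.h180.Glue
import Pool.Agent.Run7.h180.Red1

/-!
Encoding of the reduction graph by a list of edges, in polynomial time.
-/

namespace Run7.h180

open Pool.Agent.H38.NP

variable {V X : Type}

/-- transfer of locally injective homomorphisms to a graph on an initial segment -/
theorem transfer [Nonempty V] {r : X → X → Prop} {enc : X → ℕ} {U : Set X}
    (hU : ∀ x y, r x y → x ∈ U ∧ y ∈ U) (hinj : ∀ x ∈ U, ∀ y ∈ U, enc x = enc y → x = y) {n : ℕ}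
    (hn : ∀ x ∈ U, enc x < n) {E : List (ℕ × ℕ)}
    (hE : ∀ a b, (a, b) ∈ E ↔ ∃ x y, r x y ∧ a = enc x ∧ b = enc y) (H : SimpleGraph V) :
    (∃ f : Fin n → V, LI (graphOf n E) H f) ↔ ∃ f : X → V, LI (SimpleGraph.fromRel r) H f := by
  classical
  obtain ⟨v0⟩ := ‹Nonempty V›
  constructor
  · rintro ⟨f, hf⟩
    have hadj : ∀ x y, (SimpleGraph.fromRel r).Adj x y → ∃ (hx : enc x < n) (hy : enc y < n),
        x ∈ U ∧ y ∈ U ∧ (graphOf n E).Adj ⟨enc x, hx⟩ ⟨enc y, hy⟩ := by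
      intro x y h
      rw [SimpleGraph.fromRel_adj] at h
      obtain ⟨hne, h⟩ := h
      have hxy : x ∈ U ∧ y ∈ U := h.elim (fun h => hU x y h) fun h => (hU y x h).symm
      refine ⟨hn x hxy.1, hn y hxy.2, hxy.1, hxy.2, ?_⟩
      rw [graphOf_adj]
      refine ⟨fun e => hne (hinj x hxy.1 y hxy.2 (congrArg Fin.val e)), ?_⟩
      rcases h with h | h
      · exact Or.inl ((hE _ _).2 ⟨x, y, h, rfl, rfl⟩)
      · exact Or.inr ((hE _ _).2 ⟨y, x, h, rfl, rfl⟩)
    refine ⟨fun x => if h : enc x < n then f ⟨enc x, h⟩ else v0, fun x y h => ?_,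
      fun x y z h h' e => ?_⟩
    · obtain ⟨hx, hy, -, -, h5⟩ := hadj x y h
      simp only [hx, hy, dif_pos]
      exact hf.1 _ _ h5
    · obtain ⟨hx, hy, -, h6, h5⟩ := hadj x y h
      obtain ⟨hx', hz, -, h8, h7⟩ := hadj x z h'
      simp only [hy, hz, dif_pos] at e
      exact hinj y h6 z h8 (congrArg Fin.val (hf.2 _ _ _ h5 h7 e))
  · rintro ⟨g, hg⟩
    have hadj : ∀ i j, (graphOf n E).Adj i j → ∃ x ∈ U, ∃ y ∈ U, enc x = i.val ∧ enc y = j.val ∧
        (SimpleGraph.fromRel r).Adj x y := by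
      intro i j h
      rw [graphOf_adj] at h
      obtain ⟨hne, h⟩ := h
      have hne' : i.val ≠ j.val := fun e => hne (Fin.ext e)
      rcases h with h | h
      · obtain ⟨x, y, h1, h2, h3⟩ := (hE _ _).1 h
        refine ⟨x, (hU _ _ h1).1, y, (hU _ _ h1).2, h2.symm, h3.symm, ?_⟩
        rw [SimpleGraph.fromRel_adj]
        exact ⟨by rintro rfl; exact hne' (h2.trans h3.symm), Or.inl h1⟩
      · obtain ⟨x, y, h1, h2, h3⟩ := (hE _ _).1 h
        refine ⟨y, (hU _ _ h1).2, x, (hU _ _ h1).1, h3.symm, h2.symm, ?_⟩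
        rw [SimpleGraph.fromRel_adj]
        exact ⟨by rintro rfl; exact hne' (h3.trans h2.symm), Or.inr h1⟩
    have hval : ∀ x ∈ U, ∀ i : Fin n, enc x = i.val →
        (if h : ∃ x ∈ U, enc x = i.val then g h.choose else v0) = g x := by
      intro x hx i hi
      have h : ∃ x ∈ U, enc x = i.val := ⟨x, hx, hi⟩
      rw [dif_pos h, hinj _ h.choose_spec.1 x hx (h.choose_spec.2.trans hi.symm)]
    refine ⟨fun i => if h : ∃ x ∈ U, enc x = i.val then g h.choose else v0, fun i j h => ?_,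
      fun i j l h h' e => ?_⟩
    · obtain ⟨x, hx, y, hy, h1, h2, h3⟩ := hadj i j h
      simp only
      rw [hval x hx i h1, hval y hy j h2]
      exact hg.1 _ _ h3
    · obtain ⟨x, hx, y, hy, h1, h2, h3⟩ := hadj i j h
      obtain ⟨x', hx', z, hz, h4, h5, h6⟩ := hadj i l h'
      simp only at e
      rw [hval y hy j h2, hval z hz l h5] at e
      have hxx : x = x' := hinj x hx x' hx' (h1.trans h4.symm)
      subst hxx
      have := hg.2 x y z h3 h6 e
      subst this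
      exact Fin.ext (h2.symm.trans h5)

section
variable (D : RD V)

/-- a bound for the lengths -/
def RD.LL : ℕ := D.h + D.μ + D.ℓ

/-- size of a block -/
def RD.NN : ℕ := D.N + 2 + 8 * D.LL

/-- number of a kind -/
def kidx : Kd V → ℕ
  | Kd.cz => 0
  | Kd.cz' => 1
  | Kd.zb => 2
  | Kd.zb' => 3
  | Kd.ze => 4
  | Kd.ez => 5
  | Kd.out => 6
  | Kd.ch _ => 7

/-- the number of a vertex -/
def RD.en : (ℕ × ℕ) ⊕ ((ℕ × Kd V) × ℕ) → ℕ
  | Sum.inl x => x.1 * D.NN + x.2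
  | Sum.inr y => y.1.1 * D.NN + (D.N + 2 + kidx y.1.2 * D.LL + y.2)

/-- the vertices that are used -/
def RD.US (K : ℕ) : Set ((ℕ × ℕ) ⊕ ((ℕ × Kd V) × ℕ)) :=
  {z | match z with
    | Sum.inl x => x.1 < K ∧ x.2 < D.N + 2
    | Sum.inr y => y.1.1 < K ∧ 0 < y.2 ∧ y.2 < D.len y.1.2}

theorem RD.len_lt (kd : Kd V) : D.len kd < D.LL := by
  have := D.hh
  have := D.hℓ
  have := D.hμ
  cases kd <;> simp [RD.len, RD.LL] <;> omega

theorem RD.no_ch {a : V} {i : ℕ} (h0 : 0 < i) (h : i < D.len (Kd.ch a)) : False := by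
  have : D.len (Kd.ch a) = 1 := rfl
  omega

theorem kidx_inj {kd kd' : Kd V} {i : ℕ} (h0 : 0 < i) (h1 : i < D.len kd)
    (h : kidx kd = kidx kd') : kd = kd' := by
  cases kd <;> cases kd' <;> simp [kidx] at h ⊢
  exact (D.no_ch h0 h1).elim

theorem kidx_lt (kd : Kd V) : kidx kd ≤ 7 := by cases kd <;> simp [kidx]

theorem RD.in_lt (kd : Kd V) {i : ℕ} (h : i < D.LL) :
    D.N + 2 + kidx kd * D.LL + i < D.NN := by
  have h1 := kidx_lt kd
  have : kidx kd * D.LL ≤ 7 * D.LL := Nat.mul_le_mul_right _ h1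
  simp only [RD.NN]
  omega

theorem divmod_inj {a b n i j : ℕ} (hi : i < n) (hj : j < n) (h : a * n + i = b * n + j) :
    a = b ∧ i = j := by
  have hn : 0 < n := by omega
  have h1 : (a * n + i) / n = a := by
    rw [Nat.add_comm, Nat.add_mul_div_right _ _ hn, Nat.div_eq_of_lt hi, Nat.zero_add]
  have h2 : (b * n + j) / n = b := by
    rw [Nat.add_comm, Nat.add_mul_div_right _ _ hn, Nat.div_eq_of_lt hj, Nat.zero_add]
  have : a = b := by rw [← h1, h, h2]
  subst this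
  exact ⟨rfl, by omega⟩

theorem RD.en_inj (K : ℕ) : ∀ x ∈ D.US K, ∀ y ∈ D.US K, D.en x = D.en y → x = y := by
  have hNN : D.N + 2 ≤ D.NN := by simp only [RD.NN]; omega
  rintro (⟨k, j⟩ | ⟨⟨k, kd⟩, i⟩) hx (⟨k', j'⟩ | ⟨⟨k', kd'⟩, i'⟩) hy e
  · have hx2 : j < D.N + 2 := hx.2
    have hy2 : j' < D.N + 2 := hy.2
    obtain ⟨rfl, rfl⟩ := divmod_inj (show j < D.NN by omega) (show j' < D.NN by omega) e
    rfl
  · exfalso
    have hx2 : j < D.N + 2 := hx.2
    have hy2 : i' < D.len kd' := hy.2.2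
    have h1 := D.len_lt kd'
    obtain ⟨-, h⟩ := divmod_inj (show j < D.NN by omega)
      (D.in_lt kd' (show i' < D.LL by omega)) e
    omega
  · exfalso
    have hx2 : j' < D.N + 2 := hy.2
    have hy2 : i < D.len kd := hx.2.2
    have h1 := D.len_lt kd
    obtain ⟨-, h⟩ := divmod_inj (D.in_lt kd (show i < D.LL by omega))
      (show j' < D.NN by omega) e
    omega
  · have hx1 : 0 < i := hx.2.1
    have hx2 : i < D.len kd := hx.2.2
    have hy2 : i' < D.len kd' := hy.2.2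
    have h1 := D.len_lt kd
    have h2 := D.len_lt kd'
    obtain ⟨rfl, h⟩ := divmod_inj (D.in_lt kd (show i < D.LL by omega))
      (D.in_lt kd' (show i' < D.LL by omega)) e
    obtain ⟨h5, rfl⟩ := divmod_inj (show i < D.LL by omega) (show i' < D.LL by omega)
      (show kidx kd * D.LL + i = kidx kd' * D.LL + i' by omega)
    rw [kidx_inj D hx1 hx2 h5]

theorem RD.en_lt (K : ℕ) : ∀ x ∈ D.US K, D.en x < K * D.NN := by
  have hNN : D.N + 2 ≤ D.NN := by simp only [RD.NN]; omega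
  have key : ∀ k j, k < K → j < D.NN → k * D.NN + j < K * D.NN := by
    intro k j hk hj
    have : (k + 1) * D.NN ≤ K * D.NN := Nat.mul_le_mul_right _ hk
    rw [Nat.add_mul, Nat.one_mul] at this
    omega
  rintro (⟨k, j⟩ | ⟨⟨k, kd⟩, i⟩) hx
  · have hx2 : j < D.N + 2 := hx.2
    exact key _ _ hx.1 (by omega)
  · have hx2 : i < D.len kd := hx.2.2
    have h1 := D.len_lt kd
    exact key _ _ hx.1 (D.in_lt kd (by omega))

theorem RD.loc_lt (x : Nd V ⊕ Bool) : D.loc x < D.N + 2 := by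
  rcases x with x | x
  · have := D.qN x
    show D.q x < _
    omega
  · cases x <;> simp [RD.loc]

theorem Fm.blk_lt {F : Fm} {t : ℕ × Kd V} (ht : F.ok t) (s : Bool) : F.blk t s < F.K := by
  obtain ⟨k, kd⟩ := t
  obtain ⟨h1, h2⟩ := ht
  simp only at h1
  cases s
  · exact h1
  · cases kd
    case ez =>
      obtain ⟨m, hm⟩ := Option.isSome_iff_exists.1 h2
      have hm' : F.nx k = some m := hm
      show (F.nx k).getD 0 < F.K
      rw [hm', Option.getD_some]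
      exact (Fm.nx_spec hm').2.1
    case out =>
      show 3 * (k / 3) < F.K
      omega
    case ch a => exact h2
    all_goals exact h1

theorem RD.rel_mem (F : Fm) (x y : (ℕ × ℕ) ⊕ ((ℕ × Kd V) × ℕ))
    (h : glueRel (D.base F) F.ok (fun t => D.len t.2) (D.ep F false) (D.ep F true) x y) :
    x ∈ D.US F.K ∧ y ∈ D.US F.K := by
  have hpv : ∀ t, F.ok t → ∀ i ≤ D.len t.2,
      pv (fun t => D.len t.2) (D.ep F false) (D.ep F true) t i ∈ D.US F.K := by
    intro t ht i hi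
    rcases pv_cases (n := fun t : ℕ × Kd V => D.len t.2) (A := D.ep F false) (A' := D.ep F true)
      (t := t) hi (D.len_pos t.2) with ⟨-, e⟩ | ⟨-, e⟩ | ⟨h1, h2, e⟩
    · rw [e]; exact ⟨Fm.blk_lt ht false, D.loc_lt _⟩
    · rw [e]; exact ⟨Fm.blk_lt ht true, D.loc_lt _⟩
    · rw [e]; exact ⟨ht.1, h1, h2⟩
  rcases h with ⟨⟨k, a⟩, ⟨k', b⟩, ⟨h1, h2, h3⟩, rfl, rfl⟩ | ⟨t, ht, i, hi, rfl, rfl⟩
  · have a1 := D.supp _ _ h3
    have a2 := D.supp _ _ h3.symm
    simp only at h1 h2 a1 a2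
    exact ⟨⟨h2, by show a < _; omega⟩, ⟨by show k' < _; omega, by show b < _; omega⟩⟩
  · exact ⟨hpv t ht i hi.le, hpv t ht (i + 1) hi⟩

/-- the block at the end of a path, as a function of the formula -/
def bT (kd : Kd V) (φ : List (Lit × Lit × Lit)) (k : ℕ) : ℕ :=
  match kd with
  | Kd.ez => ((fmOf φ).nx k).getD 0
  | Kd.out => 3 * (k / 3)
  | Kd.ch _ => k + 1
  | _ => k

/-- whether a path exists -/
def okb (kd : Kd V) (φ : List (Lit × Lit × Lit)) (k : ℕ) : Bool :=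
  match kd with
  | Kd.ez => ((fmOf φ).nx k).isSome
  | Kd.ch _ => decide (k + 1 < 3 * φ.length)
  | _ => true

/-- the number of the `i`-th vertex of a path -/
def RD.pn (kd : Kd V) (φ : List (Lit × Lit × Lit)) (k i : ℕ) : ℕ :=
  if i = 0 then k * D.NN + (if (litAt φ k).2 = true then D.loc (nod true kd false) else
      D.loc (nod false kd false))
  else if i = D.len kd then bT kd φ k * D.NN + (if (litAt φ k).2 = true then
      D.loc (nod true kd true) else D.loc (nod false kd true))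
  else k * D.NN + (D.N + 2 + kidx kd * D.LL + i)

theorem RD.en_pv (φ : List (Lit × Lit × Lit)) (k : ℕ) (kd : Kd V) (i : ℕ) :
    D.en (pv (fun t => D.len t.2) (D.ep (fmOf φ) false) (D.ep (fmOf φ) true) (k, kd) i) =
      D.pn kd φ k i := by
  unfold RD.pn pv
  split_ifs with h1 h2 h3 h4
  · show k * D.NN + D.loc (nod ((litAt φ k).2) kd false) = _
    rw [h2]
  · show k * D.NN + D.loc (nod ((litAt φ k).2) kd false) = _
    rw [Bool.eq_false_iff.2 h2]
  · show (fmOf φ).blk (k, kd) true * D.NN + D.loc (nod ((litAt φ k).2) kd true) = _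
    rw [h4]
    cases kd <;> rfl
  · show (fmOf φ).blk (k, kd) true * D.NN + D.loc (nod ((litAt φ k).2) kd true) = _
    rw [Bool.eq_false_iff.2 h4]
    cases kd <;> rfl
  · rfl

theorem okb_iff (φ : List (Lit × Lit × Lit)) (k : ℕ) (kd : Kd V) :
    (fmOf φ).ok (k, kd) ↔ k < 3 * φ.length ∧ okb kd φ k = true := by
  unfold Fm.ok okb
  cases kd <;> simp [fmOf]

/-- the edges of a path -/
def RD.pe (kd : Kd V) (φ : List (Lit × Lit × Lit)) (k : ℕ) : List (ℕ × ℕ) :=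
  if okb kd φ k = true then (List.range (D.len kd)).map fun i => (D.pn kd φ k i, D.pn kd φ k (i + 1))
  else []

/-- the edges of the graph, `B0` is the list of the edges of the block graph, `ks` the list of kinds -/
def RD.edges (B0 : List (ℕ × ℕ)) (ks : List (Kd V)) (φ : List (Lit × Lit × Lit)) : List (ℕ × ℕ) :=
  (List.range (3 * φ.length)).flatMap fun k =>
    (B0.map fun e => (k * D.NN + e.1, k * D.NN + e.2)) ++ ks.flatMap fun kd => D.pe kd φ k

theorem RD.mem_edges {B0 : List (ℕ × ℕ)} (hB : ∀ a b, (a, b) ∈ B0 ↔ D.G.Adj a b)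
    {ks : List (Kd V)} (hks : ∀ kd, kd ∈ ks) (φ : List (Lit × Lit × Lit)) (a b : ℕ) :
    (a, b) ∈ D.edges B0 ks φ ↔ ∃ x y, glueRel (D.base (fmOf φ)) (fmOf φ).ok (fun t => D.len t.2)
      (D.ep (fmOf φ) false) (D.ep (fmOf φ) true) x y ∧ a = D.en x ∧ b = D.en y := by
  unfold RD.edges
  simp only [List.mem_flatMap, List.mem_range, List.mem_append, List.mem_map, Prod.mk.injEq]
  constructor
  · rintro ⟨k, hk, ⟨⟨j, j'⟩, hj, rfl, rfl⟩ | ⟨kd, -, h⟩⟩
    · exact ⟨Sum.inl (k, j), Sum.inl (k, j'), Or.inl ⟨(k, j), (k, j'), ⟨rfl, hk, (hB _ _).1 hj⟩,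
        rfl, rfl⟩, rfl, rfl⟩
    · unfold RD.pe at h
      split_ifs at h with ho
      · simp only [List.mem_map, List.mem_range, Prod.mk.injEq] at h
        obtain ⟨i, hi, rfl, rfl⟩ := h
        exact ⟨_, _, Or.inr ⟨(k, kd), (okb_iff φ k kd).2 ⟨hk, ho⟩, i, hi, rfl, rfl⟩,
          (D.en_pv φ k kd i).symm, (D.en_pv φ k kd (i + 1)).symm⟩
      · simp at h
  · rintro ⟨x, y, ⟨⟨k, j⟩, ⟨k', j'⟩, ⟨h1, h2, h3⟩, rfl, rfl⟩ | ⟨⟨k, kd⟩, ht, i, hi, rfl, rfl⟩, rfl,
      rfl⟩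
    · simp only at h1 h2 h3
      subst h1
      exact ⟨k, h2, Or.inl ⟨(j, j'), (hB _ _).2 h3, rfl, rfl⟩⟩
    · obtain ⟨hk, ho⟩ := (okb_iff φ k kd).1 ht
      refine ⟨k, hk, Or.inr ⟨kd, hks kd, ?_⟩⟩
      unfold RD.pe
      rw [if_pos ho, List.mem_map]
      exact ⟨i, List.mem_range.2 hi, by rw [D.en_pv, D.en_pv]⟩

theorem pt_nx : PT fun p : List (Lit × Lit × Lit) × ℕ => (fmOf p.1).nx p.2 := by
  unfold Fm.nx fmOf
  fun_prop

theorem pt_bT (kd : Kd V) : PT fun p : List (Lit × Lit × Lit) × ℕ => bT kd p.1 p.2 := by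
  have := pt_nx
  unfold bT
  cases kd <;> fun_prop

theorem pt_okb (kd : Kd V) : PT fun p : List (Lit × Lit × Lit) × ℕ => okb kd p.1 p.2 := by
  have := pt_nx
  unfold okb
  cases kd <;> fun_prop

theorem pt_pn (kd : Kd V) :
    PT fun p : (List (Lit × Lit × Lit) × ℕ) × ℕ => D.pn kd p.1.1 p.1.2 p.2 := by
  have h := pt_bT kd
  have h' : PT fun p : (List (Lit × Lit × Lit) × ℕ) × ℕ => bT kd p.1.1 p.1.2 :=
    h.comp (g := fun p : (List (Lit × Lit × Lit) × ℕ) × ℕ => p.1) (by fun_prop)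
  unfold RD.pn
  fun_prop

theorem pt_pe (kd : Kd V) : PT fun p : List (Lit × Lit × Lit) × ℕ => D.pe kd p.1 p.2 := by
  have h1 := pt_okb kd
  have h2 := pt_pn D kd
  have h3 : PT fun p : (List (Lit × Lit × Lit) × ℕ) × ℕ => D.pn kd p.1.1 p.1.2 (p.2 + 1) :=
    h2.comp (g := fun p : (List (Lit × Lit × Lit) × ℕ) × ℕ => (p.1, p.2 + 1)) (by fun_prop)
  unfold RD.pe
  fun_prop

theorem pt_kinds (ks : List (Kd V)) :
    PT fun p : List (Lit × Lit × Lit) × ℕ => ks.flatMap fun kd => D.pe kd p.1 p.2 := by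
  induction ks with
  | nil => simp only [List.flatMap_nil]; fun_prop
  | cons kd ks ih =>
    simp only [List.flatMap_cons]
    exact (pt_pe D kd).append ih

theorem pt_edges (B0 : List (ℕ × ℕ)) (ks : List (Kd V)) : PT fun φ => D.edges B0 ks φ := by
  have h := pt_kinds D ks
  unfold RD.edges
  fun_prop

end

theorem red_encode {k : ℕ} (H : SimpleGraph (Fin k)) (hk : 0 < k) (D : RD (Fin k)) :
    ∃ F : List (Lit × Lit × Lit) → ℕ × List (ℕ × ℕ), PT F ∧
      ∀ φ, LIHOM H (F φ) ↔ ∃ f, LI (D.graph (fmOf φ)) H f := by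
  classical
  have : Nonempty (Fin k) := ⟨⟨0, hk⟩⟩
  let ks : List (Kd (Fin k)) := [Kd.cz, Kd.cz', Kd.zb, Kd.zb', Kd.ze, Kd.ez, Kd.out] ++
    (List.finRange k).map Kd.ch
  have hks : ∀ kd, kd ∈ ks := by intro kd; cases kd <;> simp [ks]
  let B0 := edgesOf D.N fun u v => decide (D.G.Adj u v)
  have hB : ∀ a b, (a, b) ∈ B0 ↔ D.G.Adj a b := by
    intro a b
    simp only [B0, mem_edgesOf, decide_eq_true_eq]
    exact ⟨fun h => h.2.2, fun h => ⟨D.supp _ _ h, D.supp _ _ h.symm, h⟩⟩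
  refine ⟨fun φ => (3 * φ.length * D.NN, D.edges B0 ks φ), ?_, fun φ => ?_⟩
  · have := pt_edges D B0 ks
    fun_prop
  · unfold LIHOM
    simp only [isLIHom_iff]
    exact transfer (X := (ℕ × ℕ) ⊕ ((ℕ × Kd (Fin k)) × ℕ)) (D.rel_mem (fmOf φ))
      (D.en_inj (3 * φ.length)) (D.en_lt (3 * φ.length)) (D.mem_edges hB hks φ) H

end Run7.h180
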