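import Pool.Agent.Run7.h180.RedDefs

/-!
Locally injective homomorphisms of a graph with glued paths.
-/

namespace Run7.h180

variable {V W X T : Type} {H : SimpleGraph V} {B : SimpleGraph X} {ok : T → Prop} {n : T → ℕ}
  {A A' : T → X}

theorem pv_zero (t : T) : pv n A A' t 0 = Sum.inl (A t) := by simp [pv]

theorem pv_last {t : T} (h : 1 ≤ n t) : pv n A A' t (n t) = Sum.inl (A' t) := by
  simp [pv, show n t ≠ 0 by omega]

theorem pv_mid {t : T} {i : ℕ} (h0 : 0 < i) (h1 : i < n t) : pv n A A' t i = Sum.inr (t, i) := by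
  simp [pv, h0.ne', h1.ne]

/-- the end `s` of the path `t` -/
def epv (A A' : T → X) (t : T) (s : Bool) : X := if s then A' t else A t

/-- the vertex next to the end `s` of the path `t` -/
def hv (n : T → ℕ) (A A' : T → X) (t : T) (s : Bool) : X ⊕ (T × ℕ) :=
  if s then pv n A A' t (n t - 1) else pv n A A' t 1

/-- the colour next to the end `s` of the walk `w t` -/
def cl2 (n : T → ℕ) (w : T → ℕ → V) (t : T) (s : Bool) : V := if s then w t (n t - 1) else w t 1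

theorem pv_cases {t : T} {i : ℕ} (hi : i ≤ n t) (hn : 1 ≤ n t) :
    (i = 0 ∧ pv n A A' t i = Sum.inl (A t)) ∨ (i = n t ∧ pv n A A' t i = Sum.inl (A' t)) ∨
      (0 < i ∧ i < n t ∧ pv n A A' t i = Sum.inr (t, i)) := by
  rcases Nat.eq_zero_or_pos i with h | h
  · subst h; exact Or.inl ⟨rfl, pv_zero t⟩
  · rcases Nat.lt_or_ge i (n t) with h' | h'
    · exact Or.inr (Or.inr ⟨h, h', pv_mid h h'⟩)
    · obtain rfl : i = n t := by omega
      exact Or.inr (Or.inl ⟨rfl, pv_last hn⟩)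

theorem pv_ne {t : T} (hn : 1 ≤ n t) (hAA : A t ≠ A' t) {i j : ℕ} (hi : i ≤ n t) (hj : j ≤ n t)
    (hij : i ≠ j) : pv n A A' t i ≠ pv n A A' t j := by
  rcases pv_cases (A := A) (A' := A') hi hn with ⟨h, e⟩ | ⟨h, e⟩ | ⟨h, h', e⟩ <;>
    rcases pv_cases (A := A) (A' := A') hj hn with ⟨k, e'⟩ | ⟨k, e'⟩ | ⟨k, k', e'⟩ <;>
    rw [e, e'] <;> intro h5 <;> first
    | exact hij (h.trans k.symm)
    | exact hAA (Sum.inl.inj h5)
    | exact hAA (Sum.inl.inj h5).symm
    | (simp at h5; done)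
    | exact hij (congrArg Prod.snd (Sum.inr.inj h5))

theorem glue_adj {x y : X ⊕ (T × ℕ)} : (glue B ok n A A').Adj x y ↔
    x ≠ y ∧ (glueRel B ok n A A' x y ∨ glueRel B ok n A A' y x) := by
  simp [glue, SimpleGraph.fromRel_adj]

theorem glue_base {a b : X} (h : B.Adj a b) : (glue B ok n A A').Adj (Sum.inl a) (Sum.inl b) :=
  glue_adj.2 ⟨fun e => h.ne (Sum.inl.inj e), Or.inl (Or.inl ⟨a, b, h, rfl, rfl⟩)⟩

theorem glue_path {t : T} (ht : ok t) (hn : 1 ≤ n t) (hAA : A t ≠ A' t) {i : ℕ} (hi : i < n t) :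
    (glue B ok n A A').Adj (pv n A A' t i) (pv n A A' t (i + 1)) :=
  glue_adj.2 ⟨pv_ne hn hAA (by omega) (by omega) (by omega), Or.inl (Or.inr ⟨t, ht, i, hi, rfl, rfl⟩)⟩

theorem glue_hv {t : T} (ht : ok t) (hn : 1 ≤ n t) (hAA : A t ≠ A' t) (s : Bool) :
    (glue B ok n A A').Adj (Sum.inl (epv A A' t s)) (hv n A A' t s) := by
  cases s
  · have := glue_path (B := B) ht hn hAA (i := 0) (by omega)
    rw [pv_zero] at this
    exact this
  · have := glue_path (B := B) ht hn hAA (i := n t - 1) (by omega)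
    rw [show n t - 1 + 1 = n t by omega, pv_last hn] at this
    exact this.symm

/-- the neighbours of a base vertex -/
theorem glue_nb_base {x : X} {y : X ⊕ (T × ℕ)} (hn : ∀ t, ok t → 1 ≤ n t)
    (h : (glue B ok n A A').Adj (Sum.inl x) y) :
    (∃ b, B.Adj x b ∧ y = Sum.inl b) ∨ ∃ t s, ok t ∧ epv A A' t s = x ∧ y = hv n A A' t s := by
  obtain ⟨-, (⟨a, b, h1, h2, h3⟩ | ⟨t, ht, i, hi, h2, h3⟩) |
    (⟨a, b, h1, h2, h3⟩ | ⟨t, ht, i, hi, h2, h3⟩)⟩ := glue_adj.1 h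
  · obtain rfl := Sum.inl.inj h2
    exact Or.inl ⟨b, h1, h3⟩
  · right
    rcases pv_cases (A := A) (A' := A') hi.le (hn t ht) with ⟨k, e⟩ | ⟨k, e⟩ | ⟨k, k', e⟩
    · refine ⟨t, false, ht, ?_, ?_⟩
      · rw [e] at h2; exact (Sum.inl.inj h2).symm
      · rw [h3, k]; rfl
    · omega
    · rw [e] at h2; simp at h2
  · obtain rfl := Sum.inl.inj h3
    exact Or.inl ⟨a, h1.symm, h2⟩
  · right
    rcases pv_cases (A := A) (A' := A') (i := i + 1) (by omega) (hn t ht) with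
      ⟨k, e⟩ | ⟨k, e⟩ | ⟨k, k', e⟩
    · omega
    · refine ⟨t, true, ht, ?_, ?_⟩
      · rw [e] at h3; exact (Sum.inl.inj h3).symm
      · rw [h2]; simp [hv, ← k]
    · rw [e] at h3; simp at h3

/-- the neighbours of an internal vertex -/
theorem glue_nb_int {t : T} {i : ℕ} {y : X ⊕ (T × ℕ)} (hn : ∀ t, ok t → 1 ≤ n t)
    (h : (glue B ok n A A').Adj (Sum.inr (t, i)) y) :
    ok t ∧ 0 < i ∧ i < n t ∧ (y = pv n A A' t (i + 1) ∨ y = pv n A A' t (i - 1)) := by
  obtain ⟨-, (⟨a, b, h1, h2, h3⟩ | ⟨t', ht, j, hj, h2, h3⟩) |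
    (⟨a, b, h1, h2, h3⟩ | ⟨t', ht, j, hj, h2, h3⟩)⟩ := glue_adj.1 h
  · simp at h2
  · rcases pv_cases (A := A) (A' := A') hj.le (hn t' ht) with ⟨k, e⟩ | ⟨k, e⟩ | ⟨k, k', e⟩
    · rw [e] at h2; simp at h2
    · omega
    · rw [e] at h2
      obtain ⟨rfl, rfl⟩ := Prod.mk.inj (Sum.inr.inj h2)
      exact ⟨ht, k, k', Or.inl h3⟩
  · simp at h3
  · rcases pv_cases (A := A) (A' := A') (i := j + 1) (by omega) (hn t' ht) with
      ⟨k, e⟩ | ⟨k, e⟩ | ⟨k, k', e⟩
    · omega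
    · rw [e] at h3; simp at h3
    · rw [e] at h3
      obtain ⟨rfl, rfl⟩ := Prod.mk.inj (Sum.inr.inj h3)
      exact ⟨ht, k, k', Or.inr (by rw [h2]; simp)⟩

theorem glue_complete (hn : ∀ t, ok t → 1 ≤ n t) {f0 : X → V}
    (hf0 : LI B H f0) {w : T → ℕ → V} (hw : ∀ t, ok t → NBW H (n t) (w t))
    (hw0 : ∀ t, ok t → w t 0 = f0 (A t)) (hw1 : ∀ t, ok t → w t (n t) = f0 (A' t))
    (h1 : ∀ t s, ok t → ∀ b, B.Adj (epv A A' t s) b → f0 b ≠ cl2 n w t s)
    (h2 : ∀ t s t' s', ok t → ok t' → epv A A' t s = epv A A' t' s' →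
      cl2 n w t s = cl2 n w t' s' → t = t' ∧ s = s') :
    LI (glue B ok n A A') H (Sum.elim f0 fun q => w q.1 q.2) := by
  have hval : ∀ t, ok t → ∀ i ≤ n t,
      Sum.elim f0 (fun q : T × ℕ => w q.1 q.2) (pv n A A' t i) = w t i := by
    intro t ht i hi
    rcases pv_cases (A := A) (A' := A') hi (hn t ht) with ⟨k, e⟩ | ⟨k, e⟩ | ⟨k, k', e⟩
    · rw [e, k, hw0 t ht]; rfl
    · rw [e, k, hw1 t ht]; rfl
    · rw [e]; rfl
  have hvv : ∀ t s, ok t →
      Sum.elim f0 (fun q : T × ℕ => w q.1 q.2) (hv n A A' t s) = cl2 n w t s := by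
    intro t s ht
    have := hn t ht
    cases s
    · exact hval t ht 1 this
    · exact hval t ht (n t - 1) (by omega)
  have hrel : ∀ x y, glueRel B ok n A A' x y → H.Adj (Sum.elim f0 (fun q => w q.1 q.2) x)
      (Sum.elim f0 (fun q => w q.1 q.2) y) := by
    rintro x y (⟨a, b, h, rfl, rfl⟩ | ⟨t, ht, i, hi, rfl, rfl⟩)
    · exact hf0.1 a b h
    · rw [hval t ht i hi.le, hval t ht (i + 1) hi]
      exact (hw t ht).1 i hi
  refine ⟨fun x y h => ?_, ?_⟩
  · rcases (glue_adj.1 h).2 with h | h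
    · exact hrel x y h
    · exact (hrel y x h).symm
  · rintro (x | ⟨t, i⟩) y z hy hz e
    · rcases glue_nb_base hn hy with ⟨b, hb, rfl⟩ | ⟨t, s, ht, es, rfl⟩ <;>
        rcases glue_nb_base hn hz with ⟨b', hb', rfl⟩ | ⟨t', s', ht', es', rfl⟩
      · exact congrArg Sum.inl (hf0.2 x b b' hb hb' e)
      · rw [hvv t' s' ht'] at e
        exact absurd e (h1 t' s' ht' b (by rw [es']; exact hb))
      · rw [hvv t s ht] at e
        exact absurd e.symm (h1 t s ht b' (by rw [es]; exact hb'))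
      · rw [hvv t s ht, hvv t' s' ht'] at e
        obtain ⟨rfl, rfl⟩ := h2 t s t' s' ht ht' (es.trans es'.symm) e
        rfl
    · obtain ⟨ht, k1, k2, h5⟩ := glue_nb_int hn hy
      obtain ⟨-, -, -, h6⟩ := glue_nb_int hn hz
      have hne := (hw t ht).2 (i - 1) (by omega)
      rw [show i - 1 + 2 = i + 1 by omega] at hne
      rcases h5 with rfl | rfl <;> rcases h6 with rfl | rfl
      · rfl
      · rw [hval t ht _ (by omega), hval t ht _ (by omega)] at e
        exact absurd e.symm hne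
      · rw [hval t ht _ (by omega), hval t ht _ (by omega)] at e
        exact absurd e hne
      · rfl

section Sound

variable {f : X ⊕ (T × ℕ) → V} (hf : LI (glue B ok n A A') H f)
include hf

theorem glue_li_base : LI B H fun x => f (Sum.inl x) :=
  ⟨fun _ _ h => hf.1 _ _ (glue_base h), fun _ _ _ h h' e =>
    Sum.inl.inj (hf.2 _ _ _ (glue_base h) (glue_base h') e)⟩

theorem glue_walk {t : T} (ht : ok t) (hn : 1 ≤ n t) (hAA : A t ≠ A' t) :
    NBW H (n t) fun i => f (pv n A A' t i) := by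
  refine ⟨fun i hi => hf.1 _ _ (glue_path ht hn hAA hi), fun i hi e => ?_⟩
  have h1 := (glue_path (B := B) ht hn hAA (i := i) (by omega)).symm
  have h2 := glue_path (B := B) ht hn hAA (i := i + 1) (by omega)
  exact pv_ne hn hAA (by omega) (by omega) (by omega) (hf.2 _ _ _ h1 h2 e)

theorem glue_miss {t : T} (ht : ok t) (hn : 1 ≤ n t) (hAA : A t ≠ A' t)
    (hB : n t = 1 → ¬ B.Adj (A t) (A' t)) (s : Bool) :
    Miss H B (fun x => f (Sum.inl x)) (epv A A' t s) (f (hv n A A' t s)) := by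
  have hadj := glue_hv (B := B) ht hn hAA s
  refine ⟨hf.1 _ _ hadj, fun b hb e => ?_⟩
  have h5 := hf.2 _ _ _ (glue_base hb) hadj e
  cases s
  · simp only [hv, epv, Bool.false_eq_true, if_false] at h5 hb
    rcases pv_cases (A := A) (A' := A') (i := 1) hn hn with ⟨k, e⟩ | ⟨k, e⟩ | ⟨k, k', e⟩
    · omega
    · rw [e] at h5
      rw [Sum.inl.inj h5] at hb
      exact hB k.symm hb
    · rw [e] at h5; simp at h5
  · simp only [hv, epv, if_true] at h5 hb
    rcases pv_cases (A := A) (A' := A') (i := n t - 1) (by omega) hn with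
      ⟨k, e⟩ | ⟨k, e⟩ | ⟨k, k', e⟩
    · rw [e] at h5
      rw [Sum.inl.inj h5] at hb
      exact hB (by omega) hb.symm
    · omega
    · rw [e] at h5; simp at h5

theorem glue_ne {t t' : T} (ht : ok t) (ht' : ok t') (hn : 1 ≤ n t) (hn' : 1 ≤ n t')
    (hAA : A t ≠ A' t) (hAA' : A t' ≠ A' t') (htt : t ≠ t') {s s' : Bool}
    (he : epv A A' t s = epv A A' t' s') (he' : epv A A' t (!s) ≠ epv A A' t' (!s')) :
    f (hv n A A' t s) ≠ f (hv n A A' t' s') := by
  intro e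
  have h1 := glue_hv (B := B) ht hn hAA s
  have h2 := glue_hv (B := B) ht' hn' hAA' s'
  rw [he] at h1
  have h5 := hf.2 _ _ _ h1 h2 e
  have key : ∀ (t : T) (s : Bool), 1 ≤ n t → (hv n A A' t s = Sum.inl (epv A A' t (!s))) ∨
      ∃ i, hv n A A' t s = Sum.inr (t, i) := by
    intro t s hn
    cases s
    · rcases pv_cases (A := A) (A' := A') (i := 1) hn hn with ⟨k, e⟩ | ⟨k, e⟩ | ⟨k, k', e⟩
      · omega
      · exact Or.inl e
      · exact Or.inr ⟨_, e⟩
    · rcases pv_cases (A := A) (A' := A') (i := n t - 1) (by omega) hn with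
        ⟨k, e⟩ | ⟨k, e⟩ | ⟨k, k', e⟩
      · exact Or.inl e
      · omega
      · exact Or.inr ⟨_, e⟩
  rcases key t s hn with k | ⟨i, k⟩ <;> rcases key t' s' hn' with k' | ⟨i', k'⟩ <;>
    rw [k, k'] at h5
  · exact he' (Sum.inl.inj h5)
  · simp at h5
  · simp at h5
  · exact htt (congrArg Prod.fst (Sum.inr.inj h5))

end Sound

end Run7.h180
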