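import Pool.Agent.Run7.h180.Base

/-!
Piece G: membership of `H`-LIHOM in NP.
-/

namespace Run7.h180

open Pool.Agent.H38.NP

namespace Mem

/-- the edges of the graph in both directions -/
def sym (I : ℕ × List (ℕ × ℕ)) : List (ℕ × ℕ) :=
  (I.2 ++ I.2.map fun e => (e.2, e.1)).filter fun e =>
    decide (e.1 < I.1) && (decide (e.2 < I.1) && decide (e.1 ≠ e.2))

theorem mem_sym {I : ℕ × List (ℕ × ℕ)} {u v : ℕ} (hu : u < I.1) (hv : v < I.1) :
    (u, v) ∈ sym I ↔ (graphOf I.1 I.2).Adj ⟨u, hu⟩ ⟨v, hv⟩ := by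
  rw [graphOf_adj]
  unfold sym
  simp only [List.mem_filter, List.mem_append, List.mem_map, Prod.exists, Prod.mk.injEq,
    Bool.and_eq_true, decide_eq_true_eq, hu, hv, true_and, ne_eq, Fin.mk.injEq]
  constructor
  · rintro ⟨h | ⟨a, b, h, rfl, rfl⟩, h'⟩
    · exact ⟨h', Or.inl h⟩
    · exact ⟨h', Or.inr h⟩
  · rintro ⟨h', h | h⟩
    · exact ⟨Or.inl h, h'⟩
    · exact ⟨Or.inr ⟨_, _, h, rfl, rfl⟩, h'⟩

theorem lt_of_mem_sym {I : ℕ × List (ℕ × ℕ)} {e : ℕ × ℕ} (h : e ∈ sym I) :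
    e.1 < I.1 ∧ e.2 < I.1 := by
  unfold sym at h
  simp only [List.mem_filter, Bool.and_eq_true, decide_eq_true_eq] at h
  exact ⟨h.2.1, h.2.2.1⟩

/-- the verifier, `T` is the list of adjacent pairs of `H` -/
def ver (k : ℕ) (T : List (ℕ × ℕ)) (I : ℕ × List (ℕ × ℕ)) (w : List ℕ) : Bool :=
  (List.range I.1).all (fun u => decide (w.getD u 0 < k)) &&
  ((sym I).all (fun e => decide ((w.getD e.1 0, w.getD e.2 0) ∈ T)) &&
  (sym I).all fun e => (sym I).all fun e' =>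
    !(decide (e.1 = e'.1) && decide (w.getD e.2 0 = w.getD e'.2 0)) || decide (e.2 = e'.2))

theorem pt_sym {α : Type} [Enc α] {f : α → ℕ × List (ℕ × ℕ)} (hf : PT f) :
    PT fun a => sym (f a) := by unfold sym; fun_prop

theorem pt_ver (k : ℕ) (T : List (ℕ × ℕ)) :
    PT fun p : (ℕ × List (ℕ × ℕ)) × List ℕ => ver k T p.1 p.2 := by
  have h1 : PT fun p : (ℕ × List (ℕ × ℕ)) × List ℕ => sym p.1 := pt_sym (by fun_prop)
  have h2 : PT fun p : ((ℕ × List (ℕ × ℕ)) × List ℕ) × (ℕ × ℕ) => sym p.1.1 :=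
    pt_sym (by fun_prop)
  unfold ver
  fun_prop

open Classical in
/-- the list of adjacent pairs -/
noncomputable def tab {k : ℕ} (H : SimpleGraph (Fin k)) : List (ℕ × ℕ) :=
  ((List.finRange k).flatMap fun a => ((List.finRange k).filter fun b => H.Adj a b).map fun b =>
    (a.val, b.val))

theorem mem_tab {k : ℕ} {H : SimpleGraph (Fin k)} {a b : ℕ} (ha : a < k) (hb : b < k) :
    (a, b) ∈ tab H ↔ H.Adj ⟨a, ha⟩ ⟨b, hb⟩ := by
  unfold tab
  simp only [List.mem_flatMap, List.mem_map, List.mem_filter, List.mem_finRange, true_and,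
    decide_eq_true_eq, Prod.mk.injEq]
  constructor
  · rintro ⟨x, y, h, rfl, rfl⟩; exact h
  · intro h; exact ⟨_, _, h, rfl, rfl⟩

theorem ver_iff {k : ℕ} (H : SimpleGraph (Fin k)) (I : ℕ × List (ℕ × ℕ)) (w : List ℕ) :
    ver k (tab H) I w = true ↔ (∀ u < I.1, w.getD u 0 < k) ∧
      (∀ e ∈ sym I, (w.getD e.1 0, w.getD e.2 0) ∈ tab H) ∧
      ∀ e ∈ sym I, ∀ e' ∈ sym I, e.1 = e'.1 → w.getD e.2 0 = w.getD e'.2 0 → e.2 = e'.2 := by
  unfold ver
  simp only [Bool.and_eq_true, List.all_eq_true, decide_eq_true_eq, List.mem_range,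
    Bool.or_eq_true, Bool.not_eq_true', Bool.and_eq_false_iff, decide_eq_false_iff_not]
  refine and_congr Iff.rfl (and_congr Iff.rfl (forall₂_congr fun e _ => forall₂_congr fun e' _ => ?_))
  tauto

end Mem

open Run7.h180.Mem in
theorem lihom_inNP {k : ℕ} (H : SimpleGraph (Fin k)) : InNP (lang (LIHOM H)) := by
  refine inNP_lang (β := List ℕ) (ver k (tab H)) (pt_ver k (tab H))
    (B := fun I => I.1 * (2 * k + 1)) ?_ ?_ ?_
  · have h1 : PB fun I : ℕ × List (ℕ × ℕ) => I.1 := PT.nat_pb (by fun_prop)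
    exact h1.mul (PB.const (2 * k + 1))
  · rintro ⟨n, E⟩ ⟨f, h1, h2⟩
    have hget : ∀ u (hu : u < n), ((List.ofFn fun i : Fin n => (f i).val).getD u 0) =
        (f ⟨u, hu⟩).val := by
      intro u hu
      rw [List.getD_eq_getElem _ _ (by simpa using hu)]
      simp
    refine ⟨List.ofFn fun i : Fin n => (f i).val, ?_, ?_⟩
    · refine (sz_le_of_forall (B := k) fun v hv => ?_).trans ?_
      · obtain ⟨i, rfl⟩ := (List.mem_ofFn' _ _).1 hv
        rw [sz_nat]; exact (f i).isLt.le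
      · simp
    · rw [ver_iff]
      refine ⟨fun u hu => ?_, fun e he => ?_, fun e he e' he' e1 e2 => ?_⟩
      · rw [hget u hu]; exact (f _).isLt
      · obtain ⟨a1, a2⟩ := lt_of_mem_sym he
        rw [hget _ a1, hget _ a2, mem_tab (f _).isLt (f _).isLt]
        exact h1 _ _ ((mem_sym a1 a2).1 he)
      · obtain ⟨u, v⟩ := e
        obtain ⟨u', v'⟩ := e'
        simp only at e1
        subst e1
        obtain ⟨a1, a2⟩ := lt_of_mem_sym he
        obtain ⟨b1, b2⟩ := lt_of_mem_sym he'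
        simp only at a1 a2 b1 b2 e2 ⊢
        rw [hget _ a2, hget _ b2] at e2
        have := h2 ⟨u, a1⟩ ((mem_sym a1 a2).1 he) ((mem_sym b1 b2).1 he') (Fin.ext e2)
        simpa using this
  · rintro ⟨n, E⟩ w hw
    rw [ver_iff] at hw
    obtain ⟨h1, h2, h3⟩ := hw
    refine ⟨fun u => ⟨w.getD u.val 0, h1 _ u.isLt⟩, fun u v huv => ?_, fun v a ha b hb hab => ?_⟩
    · have := h2 (u.val, v.val) ((mem_sym u.isLt v.isLt).2 huv)
      exact (mem_tab _ _).1 this
    · have := h3 (v.val, a.val) ((mem_sym v.isLt a.isLt).2 ha) (v.val, b.val)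
        ((mem_sym v.isLt b.isLt).2 hb) rfl (Fin.ext_iff.1 hab)
      exact Fin.ext this

end Run7.h180
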