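import Pool.Agent.Run7.h180.Meet

/-!
The walk pattern used by the reduction.
-/

namespace Run7.h180

variable {V : Type} {H : SimpleGraph V}

/-- the first meeting of two disjoint sets of darts -/
theorem first_meet [Finite V] (h3 : D3 H) {S : Bool → Set (V × V)}
    (hS : ∀ i, ∀ d ∈ S i, H.Adj d.1 d.2) (hne : ∀ i, (S i).Nonempty)
    (hE : ∀ d ∈ S false, ∀ d' ∈ S true, Ev H d.2 d'.2) (hd : ∀ d ∈ S false, d ∉ S true) :
    ∃ (j : ℕ) (e : V) (ε : Bool → V), (∀ i, (ε i, e) ∈ (nxt H)^[j] (S i)) ∧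
      ∀ i k, (ε k, e) ∈ (nxt H)^[j] (S i) → k = i := by
  classical
  have hex := meet h3 (hS false) (hS true) (hne false) (hne true) hE
  obtain ⟨z, ⟨s, hs⟩, t, ht⟩ := Nat.find_spec hex
  have hmin := fun m (hm : m < Nat.find hex) => Nat.find_min hex hm
  generalize Nat.find hex = j at *
  refine ⟨j, z, fun i => if i then t else s, fun i => by cases i <;> simpa, ?_⟩
  have hdis : ∀ x, (x, z) ∈ (nxt H)^[j] (S false) → (x, z) ∈ (nxt H)^[j] (S true) → False := by
    intro x h1 h2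
    cases j with
    | zero => exact hd _ h1 h2
    | succ j =>
      rw [nxt_iter_succ] at h1 h2
      obtain ⟨u, h1, -⟩ := h1
      obtain ⟨u', h2, -⟩ := h2
      exact hmin j (by omega) ⟨x, ⟨u, h1⟩, ⟨u', h2⟩⟩
  intro i k h
  cases i <;> cases k
  · rfl
  · exact (hdis _ h ht).elim
  · exact (hdis _ hs h).elim
  · rfl

/-- the label set of a dart at time `j` -/
def Lab (H : SimpleGraph V) (v : V) (j : ℕ) (d : V × V) : Set V :=
  {κ | H.Adj v κ ∧ d ∈ (nxt H)^[j] {(v, κ)}}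

theorem mem_lab_succ {v : V} {j : ℕ} {t s κ : V} :
    κ ∈ Lab H v (j + 1) (t, s) ↔ H.Adj t s ∧ ∃ z, z ≠ s ∧ κ ∈ Lab H v j (z, t) := by
  simp only [Lab, Set.mem_ofPred_eq, nxt_iter_succ, mem_nxt]
  constructor
  · rintro ⟨h1, u, h2, h3, h4⟩
    exact ⟨h3, u, h4.symm, h1, h2⟩
  · rintro ⟨h3, u, h4, h1, h2⟩
    exact ⟨h1, u, h2, h3, h4.symm⟩

/-- a hard pattern exists -/
theorem exists_hard [Finite V] (h3 : D3 H) {v : V} (hmax : ∀ u, (H.neighborSet u).ncard ≤
    (H.neighborSet v).ncard) : ∃ (j : ℕ) (c c0 c1 k0 k1 k2 : V), k1 ≠ k2 ∧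
      k1 ∈ Lab H v j (c0, c) ∧ k2 ∈ Lab H v j (c0, c) ∧ k0 ∉ Lab H v j (c0, c) ∧
      k0 ∈ Lab H v j (c1, c) := by
  classical
  have hEv : ∀ κ κ', H.Adj v κ → H.Adj v κ' → ∀ d ∈ ({(v, κ)} : Set (V × V)),
      ∀ d' ∈ ({(v, κ')} : Set (V × V)), Ev H d.2 d'.2 := by
    rintro κ κ' h h' _ rfl _ rfl
    exact Relation.ReflTransGen.single ⟨v, h.symm, h'⟩
  have hadj : ∀ κ, H.Adj v κ → ∀ d ∈ ({(v, κ)} : Set (V × V)), H.Adj d.1 d.2 := by
    rintro κ h _ rfl
    exact h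
  have hex : ∃ j d, ∃ k1 ∈ Lab H v j d, ∃ k2 ∈ Lab H v j d, k1 ≠ k2 := by
    obtain ⟨κ, hκ, -⟩ := h3 v v v
    obtain ⟨κ', hκ', hne, -⟩ := h3 v κ κ
    obtain ⟨j, z, ⟨s, hs⟩, t, ht⟩ := meet h3 (hadj κ hκ) (hadj κ' hκ') ⟨_, rfl⟩ ⟨_, rfl⟩
      (hEv κ κ' hκ hκ')
    obtain ⟨w, hw, hws, hwt⟩ := h3 z s t
    exact ⟨j + 1, (z, w), κ, mem_lab_succ.2 ⟨hw, s, hws.symm, hκ, hs⟩, κ',
      mem_lab_succ.2 ⟨hw, t, hwt.symm, hκ', ht⟩, hne.symm⟩
  obtain ⟨d, k1, hk1, k2, hk2, h12⟩ := Nat.find_spec hex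
  have hmin := fun m (hm : m < Nat.find hex) => Nat.find_min hex hm
  generalize Nat.find hex = j at *
  -- a label that is missing
  obtain ⟨k0, hk0, hk0'⟩ : ∃ k0, H.Adj v k0 ∧ k0 ∉ Lab H v j d := by
    by_contra hn
    push Not at hn
    cases j with
    | zero =>
      have e1 : d = (v, k1) := hk1.2
      have e2 : d = (v, k2) := hk2.2
      exact h12 (congrArg Prod.snd (e1.symm.trans e2))
    | succ j =>
      obtain ⟨t, s⟩ := d
      have hts := (mem_lab_succ.1 hk1).1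
      have hch : ∀ κ : H.neighborSet v, ∃ z, z ≠ s ∧ κ.1 ∈ Lab H v j (z, t) := fun κ =>
        (mem_lab_succ.1 (hn κ.1 κ.2)).2
      choose z hz1 hz2 using hch
      have hzt : ∀ κ, H.Adj t (z κ) := fun κ => (iter_adj (hadj _ κ.2) j _ (hz2 κ).2).symm
      have hinj : Function.Injective z := by
        intro κ κ' e
        by_contra hne
        refine hmin j (by omega) ⟨(z κ, t), κ.1, hz2 κ, κ'.1, ?_, fun h => hne (Subtype.ext h)⟩
        rw [e]; exact hz2 κ'
      have h1 : (H.neighborSet v).ncard ≤ (H.neighborSet t \ {s}).ncard := by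
        rw [← Nat.card_coe_set_eq, ← Nat.card_coe_set_eq]
        exact Nat.card_le_card_of_injective
          (fun κ : H.neighborSet v => (⟨z κ, hzt κ, hz1 κ⟩ : (H.neighborSet t \ {s} : Set V)))
          fun κ κ' e => hinj (congrArg Subtype.val e)
      have h2 : (H.neighborSet t \ {s}).ncard < (H.neighborSet t).ncard :=
        Set.ncard_sdiff_singleton_lt_of_mem hts
      have := hmax t
      omega
  -- no hard pattern: the label set propagates
  by_contra hno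
  push Not at hno
  have hprop : ∀ i x y, (x, y) ∈ (nxt H)^[i] {d} → ∀ κ, κ ∈ Lab H v (j + i) (x, y) ↔
      κ ∈ Lab H v j d := by
    intro i
    induction i with
    | zero =>
      rintro x y h κ
      have : (x, y) = d := h
      rw [this]; rfl
    | succ i ih =>
      intro x y h κ
      rw [nxt_iter_succ] at h
      obtain ⟨u, h1, h2, h5⟩ := h
      rw [show j + (i + 1) = (j + i) + 1 by omega, mem_lab_succ]
      have hu := ih u x h1
      constructor
      · rintro ⟨-, z, hz, hκ⟩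
        by_contra hn
        have hzx := (hu κ).not.2 hn
        exact hno (j + i) x u z κ k1 k2 h12 ((hu _).2 hk1) ((hu _).2 hk2) hzx hκ
      · intro hκ
        exact ⟨h2, u, h5.symm, (hu κ).2 hκ⟩
  have hd : H.Adj d.1 d.2 := iter_adj (hadj _ hk1.1) j _ hk1.2
  obtain ⟨i, z, ⟨s, hs⟩, t, ht⟩ := meet h3 (S := {d}) (T := (nxt H)^[j] {(v, k0)})
    (by rintro _ rfl; exact hd) (iter_adj (hadj _ hk0) j) ⟨_, rfl⟩
    (iter_nonempty h3 (Set.singleton_nonempty _) j)
    (by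
      rintro _ rfl d' hd'
      exact ev_iter (hEv k1 k0 hk1.1 hk0) j _ hk1.2 _ hd')
  have hk : k0 ∈ Lab H v (j + i) (t, z) := by
    refine ⟨hk0, ?_⟩
    rw [Nat.add_comm, Function.iterate_add_apply]
    exact ht
  exact hno (j + i) z s t k0 k1 k2 h12 ((hprop i s z hs _).2 hk1) ((hprop i s z hs _).2 hk2)
    (fun h => hk0' ((hprop i s z hs _).1 h)) hk

theorem vec3_inj {k0 k1 k2 : V} (h1 : k0 ≠ k1) (h2 : k0 ≠ k2) (h3 : k1 ≠ k2) :
    Function.Injective ![k0, k1, k2] := by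
  intro i k h
  fin_cases i <;> fin_cases k <;> simp_all

theorem exists_pat [Finite V] {H : SimpleGraph V} (hconn : H.Connected) (h3 : D3 H)
    (h4 : ∃ v, 4 ≤ (H.neighborSet v).ncard) : Nonempty (Pat H) := by
  classical
  have := hconn.nonempty
  obtain ⟨v, hmax⟩ := Finite.exists_max fun u => (H.neighborSet u).ncard
  obtain ⟨v', hv'⟩ := h4
  have hv4 : 4 ≤ (H.neighborSet v).ncard := hv'.trans (hmax v')
  obtain ⟨j, c, c0, c1, k0, k1, k2, h12, m1, m2, m0, m3⟩ := exists_hard h3 hmax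
  have hj : 1 ≤ j := by
    by_contra hn
    obtain rfl : j = 0 := by omega
    have e1 : (c0, c) = (v, k1) := m1.2
    have e2 : (c0, c) = (v, k2) := m2.2
    exact h12 (congrArg Prod.snd (e1.symm.trans e2))
  have a0 : H.Adj v k0 := m3.1
  have a1 : H.Adj v k1 := m1.1
  have a2 : H.Adj v k2 := m2.1
  have r1 := (rch_iff' a1 j).1 m1.2
  have r2 := (rch_iff' a2 j).1 m2.2
  have r3 := (rch_iff' a0 j).1 m3.2
  have r0 : ¬ Rch H (j + 1) c c0 k0 v := fun h => m0 ⟨a0, (rch_iff' a0 j).2 h⟩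
  have hc0 : H.Adj c c0 := (iter_adj (by rintro _ rfl; exact a1) j _ m1.2).symm
  have hc1 : H.Adj c c1 := (iter_adj (by rintro _ rfl; exact a0) j _ m3.2).symm
  have hcc : c0 ≠ c1 := by
    rintro rfl
    exact m0 m3
  have k01 : k0 ≠ k1 := by rintro rfl; exact m0 m1
  have k02 : k0 ≠ k2 := by rintro rfl; exact m0 m2
  obtain ⟨cc, ecc0, ecc1⟩ : ∃ cc : Bool → V, cc false = c0 ∧ cc true = c1 :=
    ⟨fun i => if i then c1 else c0, rfl, rfl⟩
  subst ecc0 ecc1
  have hcc' : ∀ i, H.Adj c (cc i) := fun i => by cases i <;> assumption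
  have hccne : cc false ≠ cc true := hcc
  have hccinj : ∀ i k, cc i = cc k → i = k := by
    intro i k h
    cases i <;> cases k
    · rfl
    · exact absurd h hccne
    · exact absurd h.symm hccne
    · rfl
  -- second pattern
  obtain ⟨j1, b, β, hb1, hb2⟩ := first_meet h3 (S := fun i => {(c, cc i)})
    (by rintro i _ rfl; exact hcc' i) (fun i => ⟨_, rfl⟩)
    (by rintro _ rfl _ rfl; exact Relation.ReflTransGen.single ⟨c, hc0.symm, hc1⟩)
    (by
      rintro _ rfl h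
      exact hccne (congrArg Prod.snd h))
  have hj1 : 1 ≤ j1 := by
    by_contra hn
    obtain rfl : j1 = 0 := by omega
    have e1 : (β false, b) = (c, cc false) := hb1 false
    have e2 : (β true, b) = (c, cc true) := hb1 true
    exact hccne ((congrArg Prod.snd e1).symm.trans (congrArg Prod.snd e2))
  have hb2' : ∀ i k, Rch H (j1 + 1) c (cc i) (β k) b → k = i := fun i k h =>
    hb2 i k ((rch_iff (hcc' i) j1).2 h)
  -- third pattern
  let D : Bool → Set (V × V) := fun i => {d | d.1 = cc i ∧ H.Adj d.1 d.2 ∧ d.2 ≠ c ∧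
    ∃ w k, NBW H (j1 + 1) w ∧ w 0 = c ∧ w 1 = cc i ∧ w j1 = β k ∧ w (j1 + 1) = b ∧ d.2 ≠ w 2}
  obtain ⟨j2, e, ε, he1, he2⟩ := first_meet h3 (S := D) (fun i d hd => hd.2.1)
    (fun i => by
      obtain ⟨w, w1, w2, w3, w4, w5⟩ := (rch_iff (hcc' i) j1).1 (hb1 i)
      obtain ⟨t, ht, ht1, ht2⟩ := h3 (cc i) c (w 2)
      exact ⟨(cc i, t), rfl, ht, ht1, w, i, w1, w2, w3, w4, w5, ht2⟩)
    (by
      rintro ⟨x, y⟩ hd ⟨x', y'⟩ hd'
      have e1 : x = cc false := hd.1
      have e2 : x' = cc true := hd'.1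
      have a1 : H.Adj x y := hd.2.1
      have a2 : H.Adj x' y' := hd'.2.1
      rw [e1] at a1
      rw [e2] at a2
      exact Ev.step (Relation.ReflTransGen.single ⟨c, hc0.symm, hc1⟩) a1 a2)
    (by
      rintro d hd hd'
      exact hccne (hd.1.symm.trans hd'.1))
  have hDadj : ∀ i, ∀ d ∈ D i, H.Adj d.1 d.2 := fun i d hd => hd.2.1
  refine ⟨{ ℓ := j + 1, h := j1 + 1, μ := j2 + 1, c := c, v := v, b := b, e := e, cc := cc,
            kk := ![k0, k1, k2], β := β, ε := ε, hℓ := by omega, hh := by omega, hμ := by omega,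
            cc_ne := hccne, β_ne := ?_, ε_ne := ?_, kk_inj := ?_, v4 := ?_, r0 := r0, r1 := r1,
            r2 := r2, r3 := r3, m1 := hb2', m2 := ?_, m3 := ?_ }⟩
  · intro h
    have := hb2 false true (by rw [← h]; exact hb1 false)
    simp at this
  · intro h
    have := he2 false true (by rw [← h]; exact he1 false)
    simp at this
  · exact vec3_inj k01 k02 h12
  · have h1 : ¬ H.neighborSet v ⊆ {k0, k1, k2} := by
      intro h
      have h5 := Set.ncard_le_ncard h (Set.toFinite _)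
      have h6 : ({k0, k1, k2} : Set V).ncard ≤ 3 := by
        refine (Set.ncard_insert_le _ _).trans ?_
        have := Set.ncard_insert_le k1 {k2}
        rw [Set.ncard_singleton] at this
        omega
      omega
    obtain ⟨x, hx, hx'⟩ := Set.not_subset.1 h1
    refine ⟨x, hx, fun i h => hx' ?_⟩
    fin_cases i
    · left; exact h.symm
    · right; left; exact h.symm
    · right; right; exact h.symm
  · intro i
    obtain ⟨u, u1, u2, u3, u4⟩ := (mem_iter (hDadj i) j2 _ _).1 (he1 i)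
    obtain ⟨q1, q2, q3, w, k, w1, w2, w3, w4, w5, q4⟩ := u2
    have hk : k = i := hb2' i k ⟨w, w1, w2, w3, w4, w5⟩
    subst hk
    exact ⟨w, u, w1, w2, w3, w4, w5, u1, q1, u3, u4, q3, q4⟩
  · intro i k l w u w1 w2 w3 w4 w5 u1 u2 u3 u4 u5 u6
    refine he2 i l ((mem_iter (hDadj i) j2 _ _).2 ⟨u, u1, ⟨u2, ?_, u5, w, k, w1, w2, w3, w4, w5,
      u6⟩, u3, u4⟩)
    exact u1.1 0 (by omega)

end Run7.h180
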