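import Pool.Agent.Run7.h180.Red2

/-!
The reduction: completeness.
-/

namespace Run7.h180

open Pool.Agent.H38.NP

variable {V W X T : Type} {H : SimpleGraph V}

theorem nod_C {sg : Bool} {kd : Kd V} {s : Bool} (h : nod sg kd s = Sum.inl (Sum.inr (Sum.inr 0))) :
    (kd = Kd.cz ∧ s = false) ∨ (kd = Kd.out ∧ s = false ∧ sg = false) := by
  cases kd <;> cases s <;> cases sg <;> simp [nod] at h ⊢

theorem nod_C' {sg : Bool} {kd : Kd V} {s : Bool} (h : nod sg kd s = Sum.inl (Sum.inr (Sum.inr 1))) :
    (kd = Kd.cz' ∧ s = false) ∨ (kd = Kd.out ∧ s = false ∧ sg = true) := by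
  cases kd <;> cases s <;> cases sg <;> simp [nod] at h ⊢

theorem nod_B {sg : Bool} {kd : Kd V} {s : Bool} (h : nod sg kd s = Sum.inl (Sum.inr (Sum.inr 2))) :
    (kd = Kd.zb ∧ s = true) ∨ (kd = Kd.zb' ∧ s = true) := by
  cases kd <;> cases s <;> cases sg <;> simp [nod] at h ⊢

theorem nod_E {sg : Bool} {kd : Kd V} {s : Bool} (h : nod sg kd s = Sum.inl (Sum.inr (Sum.inr 3))) :
    (kd = Kd.ze ∧ s = true) ∨ (kd = Kd.ez ∧ s = false) := by
  cases kd <;> cases s <;> cases sg <;> simp [nod] at h ⊢

theorem nod_V {sg : Bool} {kd : Kd V} {s : Bool} (h : nod sg kd s = Sum.inl (Sum.inr (Sum.inr 4))) :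
    kd = Kd.out ∧ s = true := by
  cases kd <;> cases s <;> cases sg <;> simp [nod] at h ⊢

theorem nod_L {sg : Bool} {kd : Kd V} {s : Bool} {a : V} (h : nod sg kd s = Sum.inl (Sum.inl a)) :
    kd = Kd.ch a ∧ s = true := by
  cases kd <;> cases s <;> cases sg <;> simp [nod] at h ⊢ <;> exact h

theorem nod_O {sg : Bool} {kd : Kd V} {s : Bool} {a : V}
    (h : nod sg kd s = Sum.inl (Sum.inr (Sum.inl a))) : kd = Kd.ch a ∧ s = false := by
  cases kd <;> cases s <;> cases sg <;> simp [nod] at h ⊢ <;> exact h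

theorem nod_z {sg : Bool} {kd : Kd V} {s : Bool} (h : nod sg kd s = Sum.inr false) :
    (kd = Kd.cz ∧ s = true) ∨ (kd = Kd.zb ∧ s = false) ∨ (kd = Kd.ez ∧ s = true) := by
  cases kd <;> cases s <;> cases sg <;> simp [nod] at h ⊢

theorem nod_z' {sg : Bool} {kd : Kd V} {s : Bool} (h : nod sg kd s = Sum.inr true) :
    (kd = Kd.cz' ∧ s = true) ∨ (kd = Kd.zb' ∧ s = false) ∨ (kd = Kd.ze ∧ s = false) := by
  cases kd <;> cases s <;> cases sg <;> simp [nod] at h ⊢

/-- the walks of the colouring -/
def wlk (P : Pat H) (ν : V → V) (I : ℕ → Bool) (wI uI : Bool → ℕ → V) (X : ℕ → ℕ → V) :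
    ℕ × Kd V → ℕ → V
  | (k, Kd.cz) => cns P.c fun _ => P.cc (I k)
  | (k, Kd.cz') => cns P.c fun _ => P.cc (!I k)
  | (k, Kd.zb) => fun n => wI (I k) (n + 1)
  | (k, Kd.zb') => fun n => wI (!I k) (n + 1)
  | (k, Kd.ze) => uI (!I k)
  | (k, Kd.ez) => fun n => uI (I k) (P.μ - n)
  | (k, Kd.out) => X k
  | (_, Kd.ch a) => cns (ν a) fun _ => a

/-- the colour next to an end -/
def cf (P : Pat H) (ν : V → V) (I : ℕ → Bool) (wI uI : Bool → ℕ → V) (sg : ℕ → Bool)
    (po : ℕ → Fin 3) (k : ℕ) : Kd V → Bool → V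
  | Kd.cz, false => P.cc (I k)
  | Kd.cz, true => P.c
  | Kd.cz', false => P.cc (!I k)
  | Kd.cz', true => P.c
  | Kd.zb, false => wI (I k) 2
  | Kd.zb, true => P.β (I k)
  | Kd.zb', false => wI (!I k) 2
  | Kd.zb', true => P.β (!I k)
  | Kd.ze, false => uI (!I k) 1
  | Kd.ze, true => P.ε (!I k)
  | Kd.ez, false => P.ε (I k)
  | Kd.ez, true => uI (I k) 1
  | Kd.out, false => P.cc (I k == sg k)
  | Kd.out, true => P.kk (po k)
  | Kd.ch a, false => a
  | Kd.ch a, true => ν a

theorem red_complete {P : Pat H} {ν : V → V} {D : RD V} {F : Fm} (hq : Function.Injective D.q)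
    (e1 : D.ℓ = P.ℓ) (e2 : D.h = P.h) (e3 : D.μ = P.μ) {M : ℕ} (hK : F.K = 3 * M) {pB : ℕ → V}
    (hpB : LI D.G H pB) (hpq : ∀ i, pB (D.q i) = lab P ν i)
    (hpm : ∀ i c, H.Adj (lab P ν i) c → c ∈ MM P ν i → Miss H D.G pB (D.q i) c)
    (hν : ∀ a, H.Adj a (ν a)) {σ : ℕ → Bool}
    (hσ : ∀ m < M, ∃ π : Equiv.Perm (Fin 3), ∀ j : Fin 3,
      P.R (σ (F.var (3 * m + j)) == F.sgn (3 * m + j)) (π j)) :
    ∃ f, LI (D.graph F) H f := by
  classical
  have hh := P.hh
  have hμ := P.hμ
  have hℓ := P.hℓ
  let I : ℕ → Bool := fun k => σ (F.var k)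
  choose wI uI w1 w2 w3 w4 w5 u1 u2 u3 u4 u5 u6 using P.m2
  -- the ports
  obtain ⟨po, hpo1, hpo2⟩ : ∃ po : ℕ → Fin 3, (∀ k < F.K, P.R (I k == F.sgn k) (po k)) ∧
      ∀ k < F.K, ∀ k' < F.K, 3 * (k / 3) = 3 * (k' / 3) → po k = po k' → k = k' := by
    choose! π hπ using hσ
    refine ⟨fun k => π (k / 3) ⟨k % 3, Nat.mod_lt _ (by omega)⟩, fun k hk => ?_,
      fun k hk k' hk' h e => ?_⟩
    · have h5 := hπ (k / 3) (by omega) ⟨k % 3, Nat.mod_lt _ (by omega)⟩
      have h6 : 3 * (k / 3) + k % 3 = k := Nat.div_add_mod k 3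
      simp only [h6] at h5
      exact h5
    · have h7 : k / 3 = k' / 3 := by omega
      simp only [h7] at e
      have h8 := (π (k' / 3)).injective e
      have h9 : k % 3 = k' % 3 := congrArg Fin.val h8
      omega
  obtain ⟨X, hX⟩ : ∃ X : ℕ → ℕ → V, ∀ k < F.K, NBW H P.ℓ (X k) ∧ X k 0 = P.c ∧
      X k 1 = P.cc (I k == F.sgn k) ∧ X k (P.ℓ - 1) = P.kk (po k) ∧ X k P.ℓ = P.v := by
    have : ∀ k, ∃ w : ℕ → V, k < F.K → NBW H P.ℓ w ∧ w 0 = P.c ∧
        w 1 = P.cc (I k == F.sgn k) ∧ w (P.ℓ - 1) = P.kk (po k) ∧ w P.ℓ = P.v := by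
      intro k
      by_cases hk : k < F.K
      · obtain ⟨w, h⟩ := hpo1 k hk
        exact ⟨w, fun _ => h⟩
      · exact ⟨fun _ => P.c, fun h => absurd h hk⟩
    choose X hX using this
    exact ⟨X, hX⟩
  let f0 : ℕ × ℕ → V := fun x =>
    if x.2 < D.N then pB x.2 else if x.2 = D.N then P.cc (I x.1) else P.cc (!I x.1)
  have f0q : ∀ k i, f0 (k, D.q i) = lab P ν i := by
    intro k i
    simp only [f0, D.qN i, if_true]
    exact hpq i
  have f0z : ∀ k, f0 (k, D.loc (Sum.inr false)) = P.cc (I k) := by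
    intro k
    simp [f0, RD.loc]
  have f0z' : ∀ k, f0 (k, D.loc (Sum.inr true)) = P.cc (!I k) := by
    intro k
    simp [f0, RD.loc]
  have hcadj : ∀ i, H.Adj P.c (P.cc i) := by
    intro i
    have := (w1 i).1 0 (by omega)
    rwa [w2, w3] at this
  -- the colours next to the ends
  have hcf : ∀ (t : ℕ × Kd V) (s : Bool), F.ok t →
      cl2 (fun t : ℕ × Kd V => D.len t.2) (wlk P ν I wI uI X) t s =
        cf P ν I wI uI F.sgn po t.1 t.2 s := by
    rintro ⟨k, kd⟩ s ⟨hk, -⟩
    have hk' : k < F.K := hk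
    obtain ⟨x1, x2, x3, x4, x5⟩ := hX k hk'
    cases kd <;> cases s <;> simp only [cl2, wlk, cf, RD.len, Bool.false_eq_true, if_false, if_true]
    · rfl
    · rfl
    · rfl
    · rfl
    · rw [e2, show P.h - 1 - 1 + 1 = P.h - 1 by omega, w4]
    · rw [e2, show P.h - 1 - 1 + 1 = P.h - 1 by omega, w4]
    · rw [e3, u3]
    · rw [u3]
    · rw [e3, show P.μ - (P.μ - 1) = 1 by omega]
    · exact x3
    · rw [e1, x4]
    · rfl
    · rfl
  have hwalk : ∀ t : ℕ × Kd V, F.ok t → NBW H (D.len t.2) (wlk P ν I wI uI X t) := by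
    rintro ⟨k, kd⟩ ⟨hk, -⟩
    have one : ∀ w : ℕ → V, H.Adj (w 0) (w 1) → NBW H 1 w := fun w h =>
      ⟨fun i hi => by obtain rfl : i = 0 := by omega
                      exact h, fun i hi => by omega⟩
    have sh : ∀ w : ℕ → V, NBW H P.h w → NBW H (P.h - 1) fun n => w (n + 1) := fun w h =>
      ⟨fun i hi => h.1 (i + 1) (by omega), fun i hi => h.2 (i + 1) (by omega)⟩
    cases kd
    · exact one _ (hcadj _)
    · exact one _ (hcadj _)
    · simp only [RD.len, e2]; exact sh _ (w1 _)
    · simp only [RD.len, e2]; exact sh _ (w1 _)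
    · simp only [RD.len, e3]; exact u1 _
    · simp only [RD.len, e3]; exact (u1 _).rev
    · simp only [RD.len, e1]; exact (hX k hk).1
    · exact one _ (hν _).symm
  have hstart : ∀ t : ℕ × Kd V, F.ok t → wlk P ν I wI uI X t 0 = f0 (D.ep F false t) := by
    rintro ⟨k, kd⟩ ⟨hk, -⟩
    have hk' : k < F.K := hk
    obtain ⟨x1, x2, x3, x4, x5⟩ := hX k hk'
    cases kd
    · exact (f0q k (Sum.inr (Sum.inr 0))).symm
    · exact (f0q k (Sum.inr (Sum.inr 1))).symm
    · exact (w3 _).trans (f0z k).symm
    · exact (w3 _).trans (f0z' k).symm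
    · exact (u2 _).trans (f0z' k).symm
    · show uI (I k) (P.μ - 0) = _
      rw [Nat.sub_zero, u4]
      exact (f0q k (Sum.inr (Sum.inr 3))).symm
    · show X k 0 = f0 (k, D.loc (nod (F.sgn k) Kd.out false))
      rw [x2]
      cases F.sgn k
      · exact (f0q k (Sum.inr (Sum.inr 0))).symm
      · exact (f0q k (Sum.inr (Sum.inr 1))).symm
    · exact (f0q k (Sum.inr (Sum.inl _))).symm
  have hend : ∀ t : ℕ × Kd V, F.ok t →
      wlk P ν I wI uI X t (D.len t.2) = f0 (D.ep F true t) := by
    rintro ⟨k, kd⟩ ⟨hk, hk2⟩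
    have hk' : k < F.K := hk
    obtain ⟨x1, x2, x3, x4, x5⟩ := hX k hk'
    cases kd
    · exact (f0z k).symm
    · exact (f0z' k).symm
    · show wI (I k) (D.h - 1 + 1) = _
      rw [e2, show P.h - 1 + 1 = P.h by omega, w5]
      exact (f0q k (Sum.inr (Sum.inr 2))).symm
    · show wI (!I k) (D.h - 1 + 1) = _
      rw [e2, show P.h - 1 + 1 = P.h by omega, w5]
      exact (f0q k (Sum.inr (Sum.inr 2))).symm
    · show uI (!I k) D.μ = _
      rw [e3, u4]
      exact (f0q k (Sum.inr (Sum.inr 3))).symm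
    · show uI (I k) (P.μ - D.μ) = f0 ((F.nx k).getD 0, _)
      rw [e3, Nat.sub_self, u2]
      obtain ⟨m, hm⟩ := Option.isSome_iff_exists.1 hk2
      have hm' : F.nx k = some m := hm
      rw [hm', Option.getD_some]
      refine Eq.trans ?_ (f0z m).symm
      show P.cc (σ (F.var k)) = P.cc (σ (F.var m))
      rw [(Fm.nx_spec hm').2.2.1]
    · show X k D.ℓ = _
      rw [e1, x5]
      exact (f0q _ (Sum.inr (Sum.inr 4))).symm
    · exact (f0q _ (Sum.inl _)).symm
  have hepv : ∀ t s, epv (D.ep F false) (D.ep F true) t s =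
      (F.blk t s, D.loc (nod (F.sgn t.1) t.2 s)) := by intro t s; cases s <;> rfl
  have hadjcf : ∀ (t : ℕ × Kd V) (s : Bool), F.ok t →
      H.Adj (f0 (epv (D.ep F false) (D.ep F true) t s)) (cf P ν I wI uI F.sgn po t.1 t.2 s) := by
    intro t s ht
    rw [← hcf t s ht]
    have hw := hwalk t ht
    have hlp := D.len_pos t.2
    cases s
    · have := hw.1 0 (by omega)
      rw [hstart t ht] at this
      exact this
    · have := hw.1 (D.len t.2 - 1) (by omega)
      rw [show D.len t.2 - 1 + 1 = D.len t.2 by omega, hend t ht] at this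
      exact this.symm
  have hmem : ∀ (t : ℕ × Kd V) (s : Bool) (i : Nd V), nod (F.sgn t.1) t.2 s = Sum.inl i →
      cf P ν I wI uI F.sgn po t.1 t.2 s ∈ MM P ν i := by
    rintro ⟨k, kd⟩ s (a | a | j) hn
    · obtain ⟨h5, h6⟩ := nod_L hn
      simp only at h5
      subst h5 h6
      exact rfl
    · obtain ⟨h5, h6⟩ := nod_O hn
      simp only at h5
      subst h5 h6
      exact rfl
    · fin_cases j
      · rcases nod_C hn with ⟨h5, h6⟩ | ⟨h5, h6, -⟩
        · simp only at h5
          subst h5 h6
          exact ⟨_, rfl⟩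
        · simp only at h5
          subst h5 h6
          exact ⟨_, rfl⟩
      · rcases nod_C' hn with ⟨h5, h6⟩ | ⟨h5, h6, -⟩
        · simp only at h5
          subst h5 h6
          exact ⟨_, rfl⟩
        · simp only at h5
          subst h5 h6
          exact ⟨_, rfl⟩
      · rcases nod_B hn with ⟨h5, h6⟩ | ⟨h5, h6⟩
        · simp only at h5
          subst h5 h6
          exact ⟨_, rfl⟩
        · simp only at h5
          subst h5 h6
          exact ⟨_, rfl⟩
      · rcases nod_E hn with ⟨h5, h6⟩ | ⟨h5, h6⟩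
        · simp only at h5
          subst h5 h6
          exact ⟨_, rfl⟩
        · simp only at h5
          subst h5 h6
          exact ⟨_, rfl⟩
      · obtain ⟨h5, h6⟩ := nod_V hn
        simp only at h5
        subst h5 h6
        exact ⟨_, rfl⟩
  have hlocN : ∀ b, D.N ≤ D.loc (Sum.inr b : Nd V ⊕ Bool) := fun b => by
    cases b <;> simp [RD.loc]
  refine ⟨_, glue_complete (B := D.base F) (ok := F.ok) (n := fun t : ℕ × Kd V => D.len t.2)
    (A := D.ep F false) (A' := D.ep F true) (fun t _ => D.len_pos t.2) (f0 := f0) ?_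
    (w := wlk P ν I wI uI X) hwalk hstart hend ?_ ?_⟩
  · refine ⟨?_, ?_⟩
    · rintro ⟨k, x⟩ ⟨k', y⟩ ⟨h5, -, h7⟩
      have a1 := D.supp _ _ h7
      have a2 := D.supp _ _ h7.symm
      simp only at a1 a2 h7
      simp only [f0, a1, a2, if_true]
      exact hpB.1 _ _ h7
    · rintro ⟨k, x⟩ ⟨k', y⟩ ⟨k'', z⟩ ⟨h5, -, h7⟩ ⟨h8, -, h9⟩ e
      have a1 := D.supp _ _ h7.symm
      have a2 := D.supp _ _ h9.symm
      simp only at a1 a2 h7 h9 h5 h8
      simp only [f0, a1, a2, if_true] at e
      rw [hpB.2 _ _ _ h7 h9 e, ← h5, ← h8]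
  · rintro t s ht ⟨k', y⟩ hb e
    rw [hcf t s ht] at e
    have hb' := hb
    rw [hepv] at hb'
    obtain ⟨h5, -, h7⟩ := hb'
    simp only at h5 h7
    cases hn : nod (F.sgn t.1) t.2 s with
    | inl i =>
      rw [hn] at h7
      have h8 : D.G.Adj (D.q i) y := h7
      have hm := hmem t s i hn
      have hadj := hadjcf t s ht
      rw [hepv, hn] at hadj
      have h9 : f0 (F.blk t s, D.loc (Sum.inl i)) = lab P ν i := f0q _ i
      rw [h9] at hadj
      have a2 := D.supp _ _ h8.symm
      have h10 : f0 (k', y) = pB y := by simp only [f0, a2, if_true]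
      rw [h10] at e
      exact (hpm i _ hadj hm).2 y h8 e
    | inr b =>
      rw [hn] at h7
      have := D.supp _ _ h7
      have := hlocN b
      omega
  · rintro ⟨k, kd⟩ s ⟨k', kd'⟩ s' ht ht' he hc
    rw [hepv, hepv] at he
    rw [hcf _ _ ht, hcf _ _ ht'] at hc
    have hblk : F.blk (k, kd) s = F.blk (k', kd') s' := congrArg Prod.fst he
    have hnod : nod (F.sgn k) kd s = nod (F.sgn k') kd' s' := RD.loc_inj hq (congrArg Prod.snd he)
    have hkK : k < F.K := ht.1
    have hkK' : k' < F.K := ht'.1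
    have hccinj : ∀ i j, P.cc i = P.cc j → i = j := by
      intro i j h
      cases i <;> cases j
      · rfl
      · exact absurd h P.cc_ne
      · exact absurd h.symm P.cc_ne
      · rfl
    have hβinj : ∀ i j, P.β i = P.β j → i = j := by
      intro i j h
      cases i <;> cases j
      · rfl
      · exact absurd h P.β_ne
      · exact absurd h.symm P.β_ne
      · rfl
    have hεinj : ∀ i j, P.ε i = P.ε j → i = j := by
      intro i j h
      cases i <;> cases j
      · rfl
      · exact absurd h P.ε_ne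
      · exact absurd h.symm P.ε_ne
      · rfl
    have hw2 : ∀ i, P.c ≠ wI i 2 := by
      intro i h
      have := (w1 i).2 0 (by omega)
      rw [w2] at this
      exact this h
    have hnx : ∀ k, F.ok (k, (Kd.ez : Kd V)) → ∃ m, F.nx k = some m ∧
        F.blk (k, (Kd.ez : Kd V)) true = m ∧ I k = I m := by
      rintro k ⟨-, h⟩
      obtain ⟨m, hm⟩ := Option.isSome_iff_exists.1 h
      have hm' : F.nx k = some m := hm
      refine ⟨m, hm', by simp [Fm.blk, hm'], ?_⟩
      show σ (F.var k) = σ (F.var m)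
      rw [(Fm.nx_spec hm').2.2.1]
    cases hx : nod (F.sgn k) kd s with
    | inl i =>
      have hx' := hnod.symm.trans hx
      rcases i with a | a | j
      · obtain ⟨rfl, rfl⟩ := nod_L hx
        obtain ⟨rfl, rfl⟩ := nod_L hx'
        have : k + 1 = k' + 1 := hblk
        exact ⟨by rw [show k = k' by omega], rfl⟩
      · obtain ⟨rfl, rfl⟩ := nod_O hx
        obtain ⟨rfl, rfl⟩ := nod_O hx'
        have : k = k' := hblk
        exact ⟨by rw [this], rfl⟩
      · fin_cases j
        · rcases nod_C hx with ⟨rfl, rfl⟩ | ⟨rfl, rfl, hs⟩ <;>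
            rcases nod_C hx' with ⟨rfl, rfl⟩ | ⟨rfl, rfl, hs'⟩
          · have : k = k' := hblk
            exact ⟨by rw [this], rfl⟩
          · have h5 : k = k' := hblk
            subst h5
            have := hccinj _ _ hc
            rw [hs'] at this
            exfalso
            revert this
            cases I k <;> simp
          · have h5 : k = k' := hblk
            subst h5
            have := hccinj _ _ hc
            rw [hs] at this
            exfalso
            revert this
            cases I k <;> simp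
          · have : k = k' := hblk
            exact ⟨by rw [this], rfl⟩
        · rcases nod_C' hx with ⟨rfl, rfl⟩ | ⟨rfl, rfl, hs⟩ <;>
            rcases nod_C' hx' with ⟨rfl, rfl⟩ | ⟨rfl, rfl, hs'⟩
          · have : k = k' := hblk
            exact ⟨by rw [this], rfl⟩
          · have h5 : k = k' := hblk
            subst h5
            have := hccinj _ _ hc
            rw [hs'] at this
            exfalso
            revert this
            cases I k <;> simp
          · have h5 : k = k' := hblk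
            subst h5
            have := hccinj _ _ hc
            rw [hs] at this
            exfalso
            revert this
            cases I k <;> simp
          · have : k = k' := hblk
            exact ⟨by rw [this], rfl⟩
        · rcases nod_B hx with ⟨rfl, rfl⟩ | ⟨rfl, rfl⟩ <;>
            rcases nod_B hx' with ⟨rfl, rfl⟩ | ⟨rfl, rfl⟩
          · have : k = k' := hblk
            exact ⟨by rw [this], rfl⟩
          · have h5 : k = k' := hblk
            subst h5
            have := hβinj _ _ hc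
            exfalso
            revert this
            cases I k <;> simp
          · have h5 : k = k' := hblk
            subst h5
            have := hβinj _ _ hc
            exfalso
            revert this
            cases I k <;> simp
          · have : k = k' := hblk
            exact ⟨by rw [this], rfl⟩
        · rcases nod_E hx with ⟨rfl, rfl⟩ | ⟨rfl, rfl⟩ <;>
            rcases nod_E hx' with ⟨rfl, rfl⟩ | ⟨rfl, rfl⟩
          · have : k = k' := hblk
            exact ⟨by rw [this], rfl⟩
          · have h5 : k = k' := hblk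
            subst h5
            have := hεinj _ _ hc
            exfalso
            revert this
            cases I k <;> simp
          · have h5 : k = k' := hblk
            subst h5
            have := hεinj _ _ hc
            exfalso
            revert this
            cases I k <;> simp
          · have : k = k' := hblk
            exact ⟨by rw [this], rfl⟩
        · obtain ⟨rfl, rfl⟩ := nod_V hx
          obtain ⟨rfl, rfl⟩ := nod_V hx'
          have h5 : 3 * (k / 3) = 3 * (k' / 3) := hblk
          have h6 : P.kk (po k) = P.kk (po k') := hc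
          have := hpo2 k hkK k' hkK' h5 (P.kk_inj h6)
          exact ⟨by rw [this], rfl⟩
    | inr b =>
      have hx' := hnod.symm.trans hx
      cases b
      · rcases nod_z hx with ⟨rfl, rfl⟩ | ⟨rfl, rfl⟩ | ⟨rfl, rfl⟩ <;>
          rcases nod_z hx' with ⟨rfl, rfl⟩ | ⟨rfl, rfl⟩ | ⟨rfl, rfl⟩
        · have : k = k' := hblk
          exact ⟨by rw [this], rfl⟩
        · exact absurd hc (hw2 _)
        · exact absurd (show P.c = uI (I k') 1 from hc).symm (u5 _)
        · exact absurd (show wI (I k) 2 = P.c from hc).symm (hw2 _)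
        · have : k = k' := hblk
          exact ⟨by rw [this], rfl⟩
        · exfalso
          obtain ⟨m, hm1, hm2, hm3⟩ := hnx k' ht'
          have h5 : k = m := (show k = F.blk (k', (Kd.ez : Kd V)) true from hblk).trans hm2
          have h6 : wI (I k) 2 = uI (I k') 1 := hc
          rw [hm3, h5] at h6
          exact u6 _ h6.symm
        · exact absurd (show uI (I k) 1 = P.c from hc) (u5 _)
        · exfalso
          obtain ⟨m, hm1, hm2, hm3⟩ := hnx k ht
          have h5 : m = k' := hm2.symm.trans hblk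
          have h6 : uI (I k) 1 = wI (I k') 2 := hc
          rw [hm3, h5] at h6
          exact u6 _ h6
        · obtain ⟨m, hm1, hm2, hm3⟩ := hnx k ht
          obtain ⟨m', hm1', hm2', hm3'⟩ := hnx k' ht'
          have h5 : m = m' := hm2.symm.trans (hblk.trans hm2')
          subst h5
          exact ⟨by rw [Fm.nx_inj hm1 hm1'], rfl⟩
      · rcases nod_z' hx with ⟨rfl, rfl⟩ | ⟨rfl, rfl⟩ | ⟨rfl, rfl⟩ <;>
          rcases nod_z' hx' with ⟨rfl, rfl⟩ | ⟨rfl, rfl⟩ | ⟨rfl, rfl⟩
        · have : k = k' := hblk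
          exact ⟨by rw [this], rfl⟩
        · exact absurd hc (hw2 _)
        · exact absurd (show P.c = uI (!I k') 1 from hc).symm (u5 _)
        · exact absurd (show wI (!I k) 2 = P.c from hc).symm (hw2 _)
        · have : k = k' := hblk
          exact ⟨by rw [this], rfl⟩
        · exfalso
          have h5 : k = k' := hblk
          subst h5
          have h6 : wI (!I k) 2 = uI (!I k) 1 := hc
          exact u6 _ h6.symm
        · exact absurd (show uI (!I k) 1 = P.c from hc) (u5 _)
        · exfalso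
          have h5 : k = k' := hblk
          subst h5
          have h6 : uI (!I k) 1 = wI (!I k) 2 := hc
          exact u6 _ h6
        · have : k = k' := hblk
          exact ⟨by rw [this], rfl⟩

end Run7.h180
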