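import Pool.Agent.Run7.h180.Tie
import Pool.Agent.Run7.h180.Balance

/-!
The tie theorem.
-/

namespace Run7.h180

variable {U V W K : Type}

/-- the set of missing colours -/
noncomputable def missF [Fintype V] (H : SimpleGraph V) (G : SimpleGraph W) (f : W → V) (z : W) :
    Finset V := by
  classical exact Finset.univ.filter fun c => Miss H G f z c

theorem mem_missF [Fintype V] {H : SimpleGraph V} {G : SimpleGraph W} {f : W → V} {z : W} {c : V} :
    c ∈ missF H G f z ↔ Miss H G f z c := by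
  classical simp [missF]

theorem missF_card [Fintype V] [Fintype W] {H : SimpleGraph V} {G : SimpleGraph W} {f : W → V}
    (hf : LI G H f) (z : W) : (missF H G f z).card + (nb G z).card = (nb H (f z)).card := by
  classical
  have e : nb H (f z) = missF H G f z ∪ (nb G z).image f := by
    ext c
    simp only [mem_nb, Finset.mem_union, mem_missF, Miss, Finset.mem_image]
    constructor
    · intro h
      by_cases h' : ∃ y, G.Adj z y ∧ f y = c
      · exact Or.inr h'
      · exact Or.inl ⟨h, fun w hw e => h' ⟨w, hw, e⟩⟩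
    · rintro (h | ⟨y, hy, rfl⟩)
      · exact h.1
      · exact hf.1 _ _ hy
  rw [e, Finset.card_union_of_disjoint, Finset.card_image_of_injOn]
  · intro y hy y' hy' h
    exact hf.2 z y y' (mem_nb.1 hy) (mem_nb.1 hy') h
  · rw [Finset.disjoint_left]
    intro c hc hc'
    obtain ⟨y, hy, rfl⟩ := Finset.mem_image.1 hc'
    exact (mem_missF.1 hc).2 y (mem_nb.1 hy) rfl

theorem wc_one [Fintype V] (H : SimpleGraph V) (v : V) : wc H 1 v = (nb H v).card := by
  simp [wc]

theorem tie_core [Fintype V] [Fintype W] {H : SimpleGraph V} (hcut : Cut2 H) {Q : SimpleGraph W}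
    {f : W → V} (hf : LI Q H f) (hdvd : Fintype.card V ∣ Fintype.card W) {x y1 y2 : W}
    (hx1 : x ≠ y1) (hx2 : x ≠ y2) (h12 : y1 ≠ y2) (hx : (missF H Q f x).card = 2)
    (hy1 : (missF H Q f y1).card = 1) (hy2 : (missF H Q f y2).card = 1)
    (ho : ∀ z c, Miss H Q f z c → z = x ∨ z = y1 ∨ z = y2) :
    (∀ c, Miss H Q f y1 c → c = f x) ∧ (∀ c, Miss H Q f y2 c → c = f x) ∧
        ∀ c, Miss H Q f x c → c = f y1 ∨ c = f y2 := by
  classical
  obtain ⟨c1, c2, hc, ex⟩ := Finset.card_eq_two.1 hx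
  obtain ⟨D1, e1⟩ := Finset.card_eq_one.1 hy1
  obtain ⟨D2, e2⟩ := Finset.card_eq_one.1 hy2
  have mx : ∀ c, Miss H Q f x c ↔ c = c1 ∨ c = c2 := fun c => by rw [← mem_missF, ex]; simp
  have m1 : ∀ c, Miss H Q f y1 c ↔ c = D1 := fun c => by rw [← mem_missF, e1]; simp
  have m2 : ∀ c, Miss H Q f y2 c ↔ c = D2 := fun c => by rw [← mem_missF, e2]; simp
  -- the numbers
  have hP : ∀ u v, (Finset.univ.filter fun z => f z = u ∧ ¬ Miss H Q f z v ∧ H.Adj u v).card =
      (Finset.univ.filter fun q : W × W => Q.Adj q.1 q.2 ∧ f q.1 = u ∧ f q.2 = v).card := by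
    intro u v
    symm
    refine Finset.card_bij (fun q _ => q.1) ?_ ?_ ?_
    · intro q hq
      simp only [Finset.mem_filter, Finset.mem_univ, true_and] at hq ⊢
      refine ⟨hq.2.1, fun h => h.2 _ hq.1 hq.2.2, ?_⟩
      rw [← hq.2.1, ← hq.2.2]
      exact hf.1 _ _ hq.1
    · intro q hq q' hq' h
      simp only [Finset.mem_filter, Finset.mem_univ, true_and] at hq hq'
      refine Prod.ext h (hf.2 q.1 _ _ hq.1 ?_ (hq.2.2.trans hq'.2.2.symm))
      rw [h]; exact hq'.1
    · intro z hz
      simp only [Finset.mem_filter, Finset.mem_univ, true_and] at hz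
      have : ∃ y, Q.Adj z y ∧ f y = v := by
        by_contra hn
        exact hz.2.1 ⟨by rw [hz.1]; exact hz.2.2, fun w hw e => hn ⟨w, hw, e⟩⟩
      obtain ⟨y, hy, e⟩ := this
      exact ⟨(z, y), by simp only [Finset.mem_filter, Finset.mem_univ, true_and]; exact ⟨hy, hz.1, e⟩,
        rfl⟩
  have hsw : ∀ u v, (Finset.univ.filter fun q : W × W => Q.Adj q.1 q.2 ∧ f q.1 = u ∧ f q.2 = v).card
      = (Finset.univ.filter fun q : W × W => Q.Adj q.1 q.2 ∧ f q.1 = v ∧ f q.2 = u).card := by
    intro u v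
    refine Finset.card_bij (fun q _ => (q.2, q.1)) ?_ ?_ ?_
    · intro q hq
      simp only [Finset.mem_filter, Finset.mem_univ, true_and] at hq ⊢
      exact ⟨hq.1.symm, hq.2.2, hq.2.1⟩
    · intro q _ q' _ h
      exact Prod.ext (congrArg Prod.snd h) (congrArg Prod.fst h)
    · intro q hq
      simp only [Finset.mem_filter, Finset.mem_univ, true_and] at hq
      exact ⟨(q.2, q.1), by simp only [Finset.mem_filter, Finset.mem_univ, true_and]; exact ⟨hq.1.symm, hq.2.2, hq.2.1⟩, rfl⟩
  have hM : ∀ u v, (Finset.univ.filter fun z => f z = u ∧ Miss H Q f z v).card =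
      miss4 (f x) c1 c2 (f y1) D1 (f y2) D2 u v := by
    intro u v
    rw [Finset.card_filter]
    have h1 : ∑ z, (if f z = u ∧ Miss H Q f z v then 1 else 0) =
        ∑ z ∈ ({x, y1, y2} : Finset W), (if f z = u ∧ Miss H Q f z v then 1 else 0) := by
      symm
      refine Finset.sum_subset (Finset.subset_univ _) fun z _ hz => ?_
      rw [if_neg]
      intro h
      exact hz (by simpa using ho z v h.2)
    rw [h1, Finset.sum_insert (by simp [hx1, hx2]), Finset.sum_insert (by simpa using h12),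
      Finset.sum_singleton]
    unfold miss4
    have ix : (if f x = u ∧ Miss H Q f x v then 1 else 0) =
        (if u = f x ∧ v = c1 then 1 else 0) + (if u = f x ∧ v = c2 then 1 else 0) := by
      rw [mx]
      by_cases hu : u = f x
      · rcases em (v = c1) with hv1 | hv1
        · have hv2 : v ≠ c2 := fun h => hc (hv1.symm.trans h)
          rw [if_pos ⟨hu.symm, Or.inl hv1⟩, if_pos ⟨hu, hv1⟩, if_neg fun h => hv2 h.2]
        · rcases em (v = c2) with hv2 | hv2
          · rw [if_pos ⟨hu.symm, Or.inr hv2⟩, if_neg fun h => hv1 h.2, if_pos ⟨hu, hv2⟩]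
          · rw [if_neg fun h => h.2.elim hv1 hv2, if_neg fun h => hv1 h.2, if_neg fun h => hv2 h.2]
      · rw [if_neg fun h => hu h.1.symm, if_neg fun h => hu h.1, if_neg fun h => hu h.1]
    have i1 : (if f y1 = u ∧ Miss H Q f y1 v then 1 else 0) =
        (if u = f y1 ∧ v = D1 then 1 else 0) := by
      rw [m1]
      exact if_congr (and_congr eq_comm Iff.rfl) rfl rfl
    have i2 : (if f y2 = u ∧ Miss H Q f y2 v then 1 else 0) =
        (if u = f y2 ∧ v = D2 then 1 else 0) := by
      rw [m2]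
      exact if_congr (and_congr eq_comm Iff.rfl) rfl rfl
    rw [ix, i1, i2]
    omega
  have hg : ∀ u v, H.Adj u v → (Finset.univ.filter fun z => f z = u).card =
      (Finset.univ.filter fun q : W × W => Q.Adj q.1 q.2 ∧ f q.1 = u ∧ f q.2 = v).card +
      miss4 (f x) c1 c2 (f y1) D1 (f y2) D2 u v := by
    intro u v huv
    rw [← hP, ← hM, ← Finset.card_union_of_disjoint]
    · congr 1
      ext z
      simp only [Finset.mem_filter, Finset.mem_univ, true_and, Finset.mem_union]
      tauto
    · rw [Finset.disjoint_left]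
      intro z hz hz'
      simp only [Finset.mem_filter, Finset.mem_univ, true_and] at hz hz'
      exact hz.2.1 hz'.2
  have hsum : ∑ v, (Finset.univ.filter fun z => f z = v).card = Fintype.card W := by
    rw [← Finset.card_univ]
    exact (Finset.card_eq_sum_card_fiberwise fun z _ => Finset.mem_coe.2 (Finset.mem_univ (f z))).symm
  have hb := balance (H := H) hcut (g := fun v => (Finset.univ.filter fun z => f z = v).card)
    (by rw [hsum]; exact hdvd) hc ((mx c1).2 (Or.inl rfl)).1 ((mx c2).2 (Or.inr rfl)).1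
    ((m1 D1).2 rfl).1 ((m2 D2).2 rfl).1 (fun u v huv => by
      have q1 := hg u v huv
      have q2 := hg v u huv.symm
      have q3 := hsw u v
      omega)
  obtain ⟨b1, b2, b3⟩ := hb
  refine ⟨fun c hc' => ((m1 c).1 hc').trans b1, fun c hc' => ((m2 c).1 hc').trans b2, fun c hc' => ?_⟩
  rcases (mx c).1 hc' with rfl | rfl
  · rcases b3 with h | h
    · exact Or.inl h.1.symm
    · exact Or.inr h.2.symm
  · rcases b3 with h | h
    · exact Or.inr h.2.symm
    · exact Or.inl h.1.symm

theorem tieThm [Finite V] {H : SimpleGraph V} (hconn : H.Connected) (h3 : D3 H) (hcut : Cut2 H) :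
    TieThm H := by
  classical
  cases nonempty_fintype V
  intro a b1 b2 h1 h2 hne
  obtain ⟨J, hJ⟩ := exists_J hconn h3
  have hR : 1 ≤ J + 3 := by omega
  obtain ⟨e, he, hS⟩ := exists_perms H a (J + 3)
  have := Fintype.ofFinite (KK H a (J + 3))
  have hffli : LI (FF H e he) H Prod.fst := ff_proj_li
  have hQli : LI (cutTwo (FF H e he) (rt H a (J + 3)) (rn h1 hR) (rn h2 hR)) H Prod.fst :=
    hffli.mono fun u v h => h.1
  have exy1 : (rt H a (J + 3)) ≠ rn h1 hR := by
    intro h
    have := congrArg (fun q : V × KK H a (J + 3) => q.2.1.length) h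
    simp [rt, rn] at this
  have exy2 : (rt H a (J + 3)) ≠ rn h2 hR := by
    intro h
    have := congrArg (fun q : V × KK H a (J + 3) => q.2.1.length) h
    simp [rt, rn] at this
  have eyy : rn (R := J + 3) h1 hR ≠ rn h2 hR := fun h => hne (congrArg Prod.fst h)
  have fx1 : (FF H e he).Adj (rt H a (J + 3)) (rn h1 hR) := ff_root hS h1 hR
  have fx2 : (FF H e he).Adj (rt H a (J + 3)) (rn h2 hR) := ff_root hS h2 hR
  have px1 : Miss H (cutTwo (FF H e he) (rt H a (J + 3)) (rn h1 hR) (rn h2 hR)) Prod.fst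
      (rt H a (J + 3)) b1 := by
    refine ⟨h1, fun w hw e1 => hw.2.1 ⟨rfl, Or.inl ?_⟩⟩
    exact hffli.2 _ _ _ hw.1 fx1 e1
  have px2 : Miss H (cutTwo (FF H e he) (rt H a (J + 3)) (rn h1 hR) (rn h2 hR)) Prod.fst
      (rt H a (J + 3)) b2 := by
    refine ⟨h2, fun w hw e1 => hw.2.1 ⟨rfl, Or.inr ?_⟩⟩
    exact hffli.2 _ _ _ hw.1 fx2 e1
  have py1 : Miss H (cutTwo (FF H e he) (rt H a (J + 3)) (rn h1 hR) (rn h2 hR)) Prod.fst
      (rn h1 hR) a := by
    refine ⟨h1.symm, fun w hw e1 => hw.2.2 ⟨?_, Or.inl rfl⟩⟩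
    exact hffli.2 _ _ _ hw.1 fx1.symm e1
  have py2 : Miss H (cutTwo (FF H e he) (rt H a (J + 3)) (rn h1 hR) (rn h2 hR)) Prod.fst
      (rn h2 hR) a := by
    refine ⟨h2.symm, fun w hw e1 => hw.2.2 ⟨?_, Or.inr rfl⟩⟩
    exact hffli.2 _ _ _ hw.1 fx2.symm e1
  refine ⟨V × KK H a (J + 3), inferInstance, cutTwo (FF H e he) (rt H a (J + 3)) (rn h1 hR)
    (rn h2 hR), Prod.fst, rt H a (J + 3), rn h1 hR, rn h2 hR, hQli, rfl, rfl, rfl, px1, px2, py1,
    py2, ?_⟩
  intro f hf
  have hsurj : ∀ z, z ≠ rt H a (J + 3) → z ≠ rn h1 hR → z ≠ rn h2 hR →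
      SurjAt H (cutTwo (FF H e he) (rt H a (J + 3)) (rn h1 hR) (rn h2 hR)) Prod.fst z :=
    fun z q1 q2 q3 => cutTwo_surj q1 q2 q3
  have hsim := hJ (V × KK H a (J + 3)) (cutTwo (FF H e he) (rt H a (J + 3)) (rn h1 hR) (rn h2 hR))
    Prod.fst f stp hQli hf (fun y z h => ff_lip hS h.1)
    (fun z hz => hsurj z (by rintro rfl; rw [stp_rt] at hz; omega)
      (by rintro rfl; rw [stp_rn] at hz; omega) (by rintro rfl; rw [stp_rn] at hz; omega))
    (fun z hz => tie_step h3 hS h1 h2 hR (by omega))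
  have hdeg : ∀ z, (missF H (cutTwo (FF H e he) (rt H a (J + 3)) (rn h1 hR) (rn h2 hR)) f z).card =
      (missF H (cutTwo (FF H e he) (rt H a (J + 3)) (rn h1 hR) (rn h2 hR)) Prod.fst z).card := by
    intro z
    have q1 := missF_card hf z
    have q2 := missF_card hQli z
    have q3 := hsim z 1
    rw [wc_one, wc_one] at q3
    omega
  refine tie_core hcut hf ?_ exy1 exy2 eyy ?_ ?_ ?_ ?_
  · rw [Fintype.card_prod]; exact Dvd.intro _ rfl
  · rw [hdeg]
    have : missF H (cutTwo (FF H e he) (rt H a (J + 3)) (rn h1 hR) (rn h2 hR)) Prod.fst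
        (rt H a (J + 3)) = {b1, b2} := by
      ext c
      rw [mem_missF]
      simp only [Finset.mem_insert, Finset.mem_singleton]
      constructor
      · rintro ⟨hc, hc'⟩
        by_contra hn
        push Not at hn
        obtain ⟨y, hy, e1⟩ := ff_proj_surj (he := he) (rt H a (J + 3)) c hc
        refine hc' y ⟨hy, ?_, fun h => exy1.symm ?_⟩ e1
        · rintro ⟨-, rfl | rfl⟩
          · exact hn.1 e1.symm
          · exact hn.2 e1.symm
        · rcases h.2 with h5 | h5
          · exact h5.symm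
          · exact absurd h5 exy2
      · rintro (rfl | rfl)
        · exact px1
        · exact px2
    rw [this, Finset.card_pair hne]
  · rw [hdeg]
    have : missF H (cutTwo (FF H e he) (rt H a (J + 3)) (rn h1 hR) (rn h2 hR)) Prod.fst
        (rn h1 hR) = {a} := by
      ext c
      rw [mem_missF]
      simp only [Finset.mem_singleton]
      constructor
      · rintro ⟨hc, hc'⟩
        by_contra hn
        obtain ⟨y, hy, e1⟩ := ff_proj_surj (he := he) (rn h1 hR) c hc
        refine hc' y ⟨hy, fun h => exy1 h.1.symm, ?_⟩ e1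
        rintro ⟨rfl, -⟩
        exact hn e1.symm
      · rintro rfl
        exact py1
    rw [this, Finset.card_singleton]
  · rw [hdeg]
    have : missF H (cutTwo (FF H e he) (rt H a (J + 3)) (rn h1 hR) (rn h2 hR)) Prod.fst
        (rn h2 hR) = {a} := by
      ext c
      rw [mem_missF]
      simp only [Finset.mem_singleton]
      constructor
      · rintro ⟨hc, hc'⟩
        by_contra hn
        obtain ⟨y, hy, e1⟩ := ff_proj_surj (he := he) (rn h2 hR) c hc
        refine hc' y ⟨hy, fun h => exy2 h.1.symm, ?_⟩ e1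
        rintro ⟨rfl, -⟩
        exact hn e1.symm
      · rintro rfl
        exact py2
    rw [this, Finset.card_singleton]
  · intro z c hz
    by_contra hn
    push Not at hn
    have h0 : (missF H (cutTwo (FF H e he) (rt H a (J + 3)) (rn h1 hR) (rn h2 hR)) Prod.fst z).card
        = 0 := by
      rw [Finset.card_eq_zero, Finset.eq_empty_iff_forall_notMem]
      intro c' hc'
      exact surjAt_iff.1 (hsurj z hn.1 hn.2.1 hn.2.2) c' (mem_missF.1 hc')
    rw [← hdeg, Finset.card_eq_zero] at h0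
    have : c ∈ (∅ : Finset V) := by rw [← h0]; exact mem_missF.2 hz
    simp at this

end Run7.h180
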