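import Pool.Agent.Run7.h180.Enc
import Pool.Agent.Run7.h180.Red3
import Pool.Agent.Run7.h180.Block
import Pool.Agent.Run7.h180.TieThm
import Pool.Agent.Run7.h180.Pattern
import Pool.Agent.Run7.h180.Mem
import Pool.Agent.Run7.h180.Cuts

/-!
The main theorem.
-/

namespace Run7.h180

open Pool.Agent.H38.NP

theorem satR_index (R : Bool → Fin 3 → Prop) (φ : List (Lit × Lit × Lit)) :
    SatR R φ ↔ ∃ σ : ℕ → Bool, ∀ m < φ.length, ∃ π : Equiv.Perm (Fin 3), ∀ j : Fin 3,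
      R (σ ((fmOf φ).var (3 * m + j)) == (fmOf φ).sgn (3 * m + j)) (π j) := by
  unfold SatR
  refine exists_congr fun σ => ?_
  have e : ∀ m (hm : m < φ.length), (∃ π : Equiv.Perm (Fin 3), ∀ j : Fin 3,
      R (σ ((fmOf φ).var (3 * m + j)) == (fmOf φ).sgn (3 * m + j)) (π j)) ↔
      ∃ π : Equiv.Perm (Fin 3), R (litVal σ φ[m].1) (π 0) ∧
        R (litVal σ φ[m].2.1) (π 1) ∧ R (litVal σ φ[m].2.2) (π 2) := by
    intro m hm
    have e0 : litAt φ (3 * m + 0) = φ[m].1 := by simp [litAt, hm]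
    have e1 : litAt φ (3 * m + 1) = φ[m].2.1 := by
      simp [litAt, hm, Nat.add_mod, show (3 * m + 1) / 3 = m by omega]
    have e2 : litAt φ (3 * m + 2) = φ[m].2.2 := by
      simp [litAt, hm, Nat.add_mod, show (3 * m + 2) / 3 = m by omega]
    refine exists_congr fun π => ?_
    rw [Fin.forall_fin_succ, Fin.forall_fin_succ, Fin.forall_fin_succ]
    rw [← e0, ← e1, ← e2]
    simp only [litVal, fmOf]
    exact ⟨fun h => ⟨h.1, h.2.1, h.2.2.1⟩, fun h => ⟨h.1, h.2.1, h.2.2, fun i => i.elim0⟩⟩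
  constructor
  · intro h m hm
    exact (e m hm).2 (h _ (List.getElem_mem hm))
  · intro h C hC
    obtain ⟨m, hm, rfl⟩ := List.getElem_of_mem hC
    exact (e m hm).1 (h m hm)

theorem lihom_nph {k : ℕ} {H : SimpleGraph (Fin k)} (h3 : D3 H) (hb : BlockThm H) (P : Pat H) :
    NPH (fun _ : ℕ × List (ℕ × ℕ) => True) (LIHOM H) := by
  have hk : 0 < k := Fin.pos P.c
  have hν : ∀ a, ∃ b, H.Adj a b := fun a => by
    obtain ⟨z, hz, -⟩ := h3 a a a
    exact ⟨z, hz⟩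
  choose ν hν using hν
  have hex : ∀ i : Nd (Fin k), ∃ c, H.Adj (lab P ν i) c ∧ c ∉ MM P ν i := by
    have two : ∀ (a : Fin k) (g : Bool → Fin k), ∃ c, H.Adj a c ∧ c ∉ Set.range g := by
      intro a g
      obtain ⟨z, hz, h1, h2⟩ := h3 a (g false) (g true)
      refine ⟨z, hz, ?_⟩
      rintro ⟨b, rfl⟩
      cases b
      · exact h1 rfl
      · exact h2 rfl
    rintro (a | a | j)
    · obtain ⟨z, hz, h1, -⟩ := h3 a (ν a) (ν a)
      exact ⟨z, hz, h1⟩
    · obtain ⟨z, hz, h1, -⟩ := h3 (ν a) a a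
      exact ⟨z, hz, h1⟩
    · fin_cases j
      · exact two _ _
      · exact two _ _
      · exact two _ _
      · exact two _ _
      · obtain ⟨x, hx, hx'⟩ := P.v4
        refine ⟨x, hx, ?_⟩
        rintro ⟨j, hj⟩
        exact hx' j hj
  obtain ⟨N, G, p, q, hq, hN, hqN, hpB, hpq, hpm, hblk⟩ := hb (Nd (Fin k)) (lab P ν) (MM P ν) hex
  let D : RD (Fin k) := ⟨N, G, q, P.ℓ, P.h, P.μ, hN, hqN, P.hℓ, P.hh, P.hμ⟩
  obtain ⟨F, hF, hF'⟩ := red_encode H hk D
  refine (satR_nph P.R P.r0 P.r1 P.r2 P.r3).reduce F hF fun φ _ => ⟨trivial, ?_⟩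
  rw [hF', satR_index]
  constructor
  · rintro ⟨σ, hσ⟩
    exact red_complete (D := D) (F := fmOf φ) (M := φ.length) hq rfl rfl rfl rfl hpB hpq hpm hν hσ
  · rintro ⟨f, hf⟩
    obtain ⟨f', hf', hn⟩ := red_normal (D := D) hq hblk hf
    exact red_sound (D := D) (F := fmOf φ) (M := φ.length) hq rfl rfl rfl rfl hf' hn

/-- `H`-LIHOM is NP-complete if `H` has a vertex of degree at least 4 and stays connected when two
edges with a common vertex are deleted -/
theorem lihom_npc {k : ℕ} (H : SimpleGraph (Fin k)) (h4 : ∃ v, 4 ≤ (H.neighborSet v).ncard)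
    (hC : ∀ a b c, H.Adj a b → H.Adj a c → (H.deleteEdges {s(a, b), s(a, c)}).Connected) :
    NPComplete (lang (LIHOM H)) := by
  obtain ⟨v, hv⟩ := h4
  have hne : (H.neighborSet v).Nonempty := by
    rw [← Set.ncard_pos]
    omega
  obtain ⟨x, hx⟩ := hne
  have hx' : H.Adj v x := hx
  have hconn : H.Connected := (hC v x x hx' hx').mono (SimpleGraph.deleteEdges_le _)
  have : Nonempty (Fin k) := ⟨v⟩
  have h3 := d3_of hx' hC
  have hcut := cut2_of hC
  have hb : BlockThm H := blockThm h3 (fun φ hφ => li_self_iso hconn h3 hφ)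
    (tieThm hconn h3 hcut)
  obtain ⟨P⟩ := exists_pat hconn h3 ⟨v, hv⟩
  exact ⟨lihom_inNP H, (lihom_nph h3 hb P).npHard fun _ _ => Iff.rfl⟩

end Run7.h180
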