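import Pool.Agent.Run7.h180.Base

/-!
Non-backtracking walks from two sets of darts meet.
-/

namespace Run7.h180

variable {V : Type} {H : SimpleGraph V}

/-- the next darts -/
def nxt (H : SimpleGraph V) (S : Set (V × V)) : Set (V × V) :=
  {d | ∃ u, (u, d.1) ∈ S ∧ H.Adj d.1 d.2 ∧ d.2 ≠ u}

theorem mem_nxt {S : Set (V × V)} {x y : V} :
    (x, y) ∈ nxt H S ↔ ∃ u, (u, x) ∈ S ∧ H.Adj x y ∧ y ≠ u := Iff.rfl

/-- walks of even length -/
def Ev (H : SimpleGraph V) : V → V → Prop :=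
  Relation.ReflTransGen fun a b => ∃ c, H.Adj a c ∧ H.Adj c b

theorem Ev.step {x y x' y' : V} (h : Ev H x y) (hx : H.Adj x x') (hy : H.Adj y y') :
    Ev H x' y' := by
  induction h generalizing y' with
  | refl => exact Relation.ReflTransGen.single ⟨x, hx.symm, hy⟩
  | @tail b c _ hbc ih =>
    obtain ⟨d, h1, h2⟩ := hbc
    exact Relation.ReflTransGen.tail (ih h1) ⟨c, h2, hy⟩

theorem nxt_iter_succ (S : Set (V × V)) (j : ℕ) :
    (nxt H)^[j + 1] S = nxt H ((nxt H)^[j] S) := Function.iterate_succ_apply' _ _ _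

theorem iter_adj {S : Set (V × V)} (hS : ∀ d ∈ S, H.Adj d.1 d.2) (j : ℕ) :
    ∀ d ∈ (nxt H)^[j] S, H.Adj d.1 d.2 := by
  cases j with
  | zero => exact hS
  | succ j =>
    rw [nxt_iter_succ]
    rintro ⟨x, y⟩ ⟨u, -, h, -⟩
    exact h

theorem iter_nonempty (h3 : D3 H) {S : Set (V × V)} (hS : S.Nonempty) (j : ℕ) :
    ((nxt H)^[j] S).Nonempty := by
  induction j with
  | zero => exact hS
  | succ j ih =>
    rw [nxt_iter_succ]
    obtain ⟨⟨u, x⟩, h⟩ := ih
    obtain ⟨w, hw, hw', -⟩ := h3 x u u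
    exact ⟨(x, w), u, h, hw, hw'⟩

theorem ev_iter {S T : Set (V × V)} (h : ∀ d ∈ S, ∀ d' ∈ T, Ev H d.2 d'.2) (j : ℕ) :
    ∀ d ∈ (nxt H)^[j] S, ∀ d' ∈ (nxt H)^[j] T, Ev H d.2 d'.2 := by
  induction j with
  | zero => exact h
  | succ j ih =>
    rw [nxt_iter_succ, nxt_iter_succ]
    rintro ⟨x, y⟩ ⟨u, h1, h2, -⟩ ⟨x', y'⟩ ⟨u', h1', h2', -⟩
    exact (ih _ h1 _ h1').step h2 h2'

section
variable [Finite V]

/-- all or no darts into a vertex -/
def Full (H : SimpleGraph V) (S : Set (V × V)) : Prop :=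
  ∀ u v, (u, v) ∈ S → ∀ w, H.Adj w v → (w, v) ∈ S

theorem card_nxt (h3 : D3 H) {S : Set (V × V)} (hS : ∀ d ∈ S, H.Adj d.1 d.2) :
    S.ncard ≤ (nxt H S).ncard ∧ ((nxt H S).ncard ≤ S.ncard → Full H S) := by
  classical
  cases nonempty_fintype V
  let inn : V → Finset V := fun v => Finset.univ.filter fun u => (u, v) ∈ S
  let out : V → Finset V := fun v => Finset.univ.filter fun w => (v, w) ∈ nxt H S
  have c1 : S.ncard = ∑ v, (inn v).card := by
    rw [← Finset.card_sigma]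
    rw [Set.ncard_eq_toFinset_card' S]
    refine Finset.card_bij (fun d _ => ⟨d.2, d.1⟩) ?_ ?_ ?_
    · rintro ⟨u, v⟩ h
      simpa [inn] using h
    · rintro ⟨u, v⟩ _ ⟨u', v'⟩ _ e
      simp only [Sigma.mk.injEq, heq_eq_eq] at e
      rw [e.1, e.2]
    · rintro ⟨v, u⟩ h
      exact ⟨(u, v), by simpa [inn] using h, rfl⟩
  have c2 : (nxt H S).ncard = ∑ v, (out v).card := by
    rw [← Finset.card_sigma]
    rw [Set.ncard_eq_toFinset_card' (nxt H S)]
    refine Finset.card_bij (fun d _ => ⟨d.1, d.2⟩) ?_ ?_ ?_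
    · rintro ⟨u, v⟩ h
      simpa [out] using h
    · rintro ⟨u, v⟩ _ ⟨u', v'⟩ _ e
      simp only [Sigma.mk.injEq, heq_eq_eq] at e
      rw [e.1, e.2]
    · rintro ⟨v, u⟩ h
      exact ⟨(v, u), by simpa [out] using h, rfl⟩
  have key : ∀ v, (inn v).card ≤ (out v).card ∧
      ((out v).card ≤ (inn v).card → ∀ u, (u, v) ∈ S → ∀ w, H.Adj w v → (w, v) ∈ S) := by
    intro v
    have hin : ∀ u, u ∈ inn v ↔ (u, v) ∈ S := fun u => by simp [inn]
    have hout : ∀ w, w ∈ out v ↔ ∃ u, (u, v) ∈ S ∧ H.Adj v w ∧ w ≠ u := fun w => by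
      simp only [out, Finset.mem_filter, Finset.mem_univ, true_and, mem_nxt]
    rcases Nat.lt_trichotomy (inn v).card 1 with h | h | h
    · have h0 : inn v = ∅ := Finset.card_eq_zero.1 (by omega)
      refine ⟨by omega, fun _ u hu => ?_⟩
      have := (hin u).2 hu
      rw [h0] at this
      simp at this
    · obtain ⟨u, hu⟩ := Finset.card_eq_one.1 h
      obtain ⟨w1, a1, b1, -⟩ := h3 v u u
      obtain ⟨w2, a2, b2, b3⟩ := h3 v u w1
      have hu' : (u, v) ∈ S := (hin u).1 (by rw [hu]; simp)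
      have : ({w1, w2} : Finset V) ⊆ out v := by
        intro w hw
        rw [hout]
        rcases Finset.mem_insert.1 hw with rfl | hw
        · exact ⟨u, hu', a1, b1⟩
        · rw [Finset.mem_singleton.1 hw]; exact ⟨u, hu', a2, b2⟩
      have := Finset.card_le_card this
      rw [Finset.card_pair b3.symm] at this
      exact ⟨by omega, fun h' => by omega⟩
    · obtain ⟨u1, h1, u2, h2, h12⟩ := Finset.one_lt_card.1 h
      have hsub : inn v ⊆ nb H v := fun u hu => mem_nb.2 (hS _ ((hin u).1 hu)).symm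
      have hout' : out v = nb H v := by
        ext w
        rw [hout, mem_nb]
        constructor
        · rintro ⟨u, -, h, -⟩; exact h
        · intro hw
          by_cases e : w = u1
          · exact ⟨u2, (hin _).1 h2, hw, fun e' => h12 (e.symm.trans e')⟩
          · exact ⟨u1, (hin _).1 h1, hw, e⟩
      rw [hout']
      refine ⟨Finset.card_le_card hsub, fun h' u _ w hw => ?_⟩
      have e := Finset.eq_of_subset_of_card_le hsub h'
      exact (hin w).1 (by rw [e]; exact mem_nb.2 hw.symm)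
  rw [c1, c2]
  refine ⟨Finset.sum_le_sum fun v _ => (key v).1, fun hle u v huv => ?_⟩
  have heq := (Finset.sum_eq_sum_iff_of_le fun v _ => (key v).1).1
    (le_antisymm (Finset.sum_le_sum fun v _ => (key v).1) hle) v (Finset.mem_univ v)
  exact (key v).2 heq.ge u huv

theorem full_closed (h3 : D3 H) {S : Set (V × V)} (h1 : Full H S) (h2 : Full H (nxt H S)) {u v w : V}
    (huv : (u, v) ∈ S) (hw : Ev H v w) : ∃ t, (t, w) ∈ S := by
  induction hw with
  | refl => exact ⟨u, huv⟩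
  | @tail b c _ hbc ih =>
    obtain ⟨t, ht⟩ := ih
    obtain ⟨d, hd1, hd2⟩ := hbc
    obtain ⟨t', ht', hne, -⟩ := h3 b d d
    have a1 : (b, d) ∈ nxt H S := ⟨t', h1 t b ht t' ht'.symm, hd1, hne.symm⟩
    obtain ⟨t'', h5, -⟩ := h2 b d a1 c hd2.symm
    exact ⟨t'', h5⟩

theorem eventually_full (h3 : D3 H) {S : Set (V × V)} (hS : ∀ d ∈ S, H.Adj d.1 d.2) :
    ∃ j0, ∀ j, j0 ≤ j → Full H ((nxt H)^[j] S) := by
  classical
  cases nonempty_fintype V
  have hmono : ∀ j, ((nxt H)^[j] S).ncard ≤ ((nxt H)^[j + 1] S).ncard := fun j => by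
    rw [nxt_iter_succ]; exact (card_nxt h3 (iter_adj hS j)).1
  have hmono' : Monotone fun j => ((nxt H)^[j] S).ncard := monotone_nat_of_le_succ hmono
  have hbd : ∀ j, ((nxt H)^[j] S).ncard ≤ Nat.card (V × V) := fun j => Set.ncard_le_card _
  obtain ⟨j0, -, hj0⟩ : ∃ j0, j0 ∈ (Set.univ : Set ℕ) ∧
      ∀ j, ((nxt H)^[j] S).ncard ≤ ((nxt H)^[j0] S).ncard := by
    have hne : ∃ m, ∃ j, ((nxt H)^[j] S).ncard = Nat.card (V × V) - m :=
      ⟨Nat.card (V × V) - ((nxt H)^[0] S).ncard, 0, by have := hbd 0; omega⟩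
    obtain ⟨j0, hj0⟩ := Nat.find_spec hne
    refine ⟨j0, trivial, fun j => ?_⟩
    by_contra hn
    have h6 := hbd j
    have h5 := Nat.find_min hne (m := Nat.card (V × V) - ((nxt H)^[j] S).ncard)
      (by omega)
    exact h5 ⟨j, by omega⟩
  refine ⟨j0, fun j hj => (card_nxt h3 (iter_adj hS j)).2 ?_⟩
  rw [← nxt_iter_succ]
  exact (hj0 (j + 1)).trans (hmono' hj)

/-- two sets of darts with heads joined by an even walk reach a common head at the same time -/
theorem meet (h3 : D3 H) {S T : Set (V × V)} (hS : ∀ d ∈ S, H.Adj d.1 d.2)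
    (hT : ∀ d ∈ T, H.Adj d.1 d.2) (hSn : S.Nonempty) (hTn : T.Nonempty)
    (hE : ∀ d ∈ S, ∀ d' ∈ T, Ev H d.2 d'.2) :
    ∃ j z, (∃ s, (s, z) ∈ (nxt H)^[j] S) ∧ ∃ t, (t, z) ∈ (nxt H)^[j] T := by
  obtain ⟨j1, h1⟩ := eventually_full h3 hS
  obtain ⟨⟨s, x⟩, hs⟩ := iter_nonempty h3 hSn j1
  obtain ⟨⟨t, y⟩, ht⟩ := iter_nonempty h3 hTn j1
  refine ⟨j1, y, ?_, t, ht⟩
  exact full_closed h3 (h1 j1 le_rfl) (by rw [← nxt_iter_succ]; exact h1 _ (by omega)) hs
    (ev_iter hE j1 _ hs _ ht)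

end

/-- darts reached are the ends of non-backtracking walks -/
theorem mem_iter {S : Set (V × V)} (hS : ∀ d ∈ S, H.Adj d.1 d.2) (j : ℕ) :
    ∀ x y, (x, y) ∈ (nxt H)^[j] S ↔
      ∃ w, NBW H (j + 1) w ∧ (w 0, w 1) ∈ S ∧ w j = x ∧ w (j + 1) = y := by
  induction j with
  | zero =>
    intro x y
    constructor
    · intro h
      refine ⟨fun i => if i = 0 then x else y, ⟨fun i hi => ?_, fun i hi => by omega⟩, h, rfl, rfl⟩
      obtain rfl : i = 0 := by omega
      exact hS _ h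
    · rintro ⟨w, -, h, rfl, rfl⟩
      exact h
  | succ j ih =>
    intro x y
    rw [nxt_iter_succ, mem_nxt]
    constructor
    · rintro ⟨u, h1, h2, h3⟩
      obtain ⟨w, hw, h4, h5, h6⟩ := (ih u x).1 h1
      refine ⟨fun i => if i ≤ j + 1 then w i else y, ⟨fun i hi => ?_, fun i hi => ?_⟩, ?_, ?_, ?_⟩
      · by_cases h : i + 1 ≤ j + 1
        · simp only [h, show i ≤ j + 1 by omega, if_true]
          exact hw.1 i (by omega)
        · obtain rfl : i = j + 1 := by omega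
          simp [h6, h2]
      · by_cases h : i + 2 ≤ j + 1
        · simp only [h, show i ≤ j + 1 by omega, if_true]
          exact hw.2 i h
        · obtain rfl : i = j := by omega
          simp [h5, h3.symm]
      · simpa using h4
      · simp [h6]
      · simp
    · rintro ⟨w, hw, h4, rfl, rfl⟩
      refine ⟨w j, (ih _ _).2 ⟨w, ⟨fun i hi => hw.1 i (by omega), fun i hi => hw.2 i (by omega)⟩,
        h4, rfl, rfl⟩, hw.1 (j + 1) (by omega), (hw.2 j (by omega)).symm⟩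

theorem NBW.rev {n : ℕ} {w : ℕ → V} (h : NBW H n w) : NBW H n fun i => w (n - i) := by
  refine ⟨fun i hi => ?_, fun i hi => ?_⟩
  · have := h.1 (n - (i + 1)) (by omega)
    rw [show n - (i + 1) + 1 = n - i by omega] at this
    exact this.symm
  · have := h.2 (n - (i + 2)) (by omega)
    rw [show n - (i + 2) + 2 = n - i by omega] at this
    exact this.symm

theorem rch_iff {v κ x y : V} (hκ : H.Adj v κ) (j : ℕ) :
    (x, y) ∈ (nxt H)^[j] {(v, κ)} ↔ Rch H (j + 1) v κ x y := by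
  rw [mem_iter (by rintro _ rfl; exact hκ)]
  constructor
  · rintro ⟨w, h1, h2, h3, h4⟩
    have h5 : (w 0, w 1) = (v, κ) := h2
    exact ⟨w, h1, congrArg Prod.fst h5, congrArg Prod.snd h5, h3, h4⟩
  · rintro ⟨w, h1, h2, h3, h4, h5⟩
    exact ⟨w, h1, by rw [h2, h3]; rfl, h4, h5⟩

theorem Rch.rev {n : ℕ} {x y z t : V} (hn : 1 ≤ n) (h : Rch H n x y z t) : Rch H n t z y x := by
  obtain ⟨w, h1, h2, h3, h4, h5⟩ := h
  refine ⟨fun i => w (n - i), h1.rev, by simpa using h5, h4, ?_, by simpa using h2⟩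
  simp only
  rw [show n - (n - 1) = 1 by omega, h3]

theorem rch_iff' {v κ x y : V} (hκ : H.Adj v κ) (j : ℕ) :
    (x, y) ∈ (nxt H)^[j] {(v, κ)} ↔ Rch H (j + 1) y x κ v := by
  rw [rch_iff hκ]
  exact ⟨fun h => h.rev (by omega), fun h => h.rev (by omega)⟩

end Run7.h180
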