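import Pool.Agent.Run7.h180.Cfg

/-!
The operations produce, supply, attach.
-/

namespace Run7.h180

variable {V W : Type} {H : SimpleGraph V}

/-- the result of one use of the tie gadget -/
theorem produce (ht : TieThm H) (C : Cfg H) {z : ℕ} {a b1 κ : V} (hz : z < C.N)
    (hp : C.p z = a) (hb1 : Miss H C.G C.p z b1) (hκ : H.Adj a κ) (hne : b1 ≠ κ) :
    ∃ (C' : Cfg H) (x y1 y2 s : ℕ), Ext C C' {z} ∧
      (C.N ≤ x ∧ x < C'.N) ∧ (C.N ≤ s ∧ s < C'.N) ∧ (C.N ≤ y1 ∧ y1 < C'.N) ∧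
      (C.N ≤ y2 ∧ y2 < C'.N) ∧ x ≠ s ∧ C'.p x = a ∧ C'.p s = a ∧ C'.p y1 = b1 ∧ C'.p y2 = κ ∧
      Miss H C'.G C'.p x b1 ∧ Miss H C'.G C'.p x κ ∧ C'.G.Adj z y1 ∧ C'.G.Adj s y2 ∧
      (∀ n, C'.G.Adj z n → C.G.Adj z n ∨ n = y1) ∧ (∀ n, C'.G.Adj s n → n = y2) ∧
      ∀ f, LI C'.G H f → f x = f z ∧ f s = f z ∧
        ∀ c, Miss H C'.G f x c → c = f y1 ∨ c = f y2 := by
  obtain ⟨W, _, Q, p2, x, y1, y2, hQ, px, py1, py2, mx1, mx2, my1, my2, key⟩ :=
    ht a b1 κ (by rw [← hp]; exact hb1.1) hκ hne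
  obtain ⟨C1, g, hg, hgN, e1, hp1, ha1, hn1⟩ := exists_add C Q p2 hQ
  obtain ⟨C2, g', hg', hgN', e2, hp2, ha2, hn2⟩ := exists_add C1 (⊥ : SimpleGraph Unit)
    (fun _ => a) ⟨fun _ _ h => h.elim, fun _ _ _ h => h.elim⟩
  let s := g' ()
  have hsN : C1.N ≤ s ∧ s < C2.N := hgN' ()
  have hsnone : ∀ n, ¬ C2.G.Adj s n := fun n h => by
    obtain ⟨w', -, h5⟩ := hn2 () n h
    exact h5
  have hps : C2.p s = a := hp2 ()
  have hg1 : ∀ w, g w < C1.N := fun w => (hgN w).2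
  have hg2 : ∀ w, g w < C2.N := fun w => (hg1 w).trans_le e2.N_le
  have hgC : ∀ w, C.N ≤ g w := fun w => (hgN w).1
  have hp2' : ∀ w, C2.p (g w) = p2 w := fun w => by rw [e2.p_eq _ (hg1 w), hp1]
  have hn2' : ∀ w n, C2.G.Adj (g w) n → ∃ w', n = g w' ∧ Q.Adj w w' := fun w n h =>
    hn1 w n (e2.new _ (hg1 w) (by simp) n h)
  have hz1 : z < C1.N := hz.trans_le e1.N_le
  have hz2 : z < C2.N := hz1.trans_le e2.N_le
  have hpz : C2.p z = a := by rw [e2.p_eq _ hz1, e1.p_eq _ hz, hp]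
  have hmz : Miss H C2.G C2.p z b1 := e2.miss hz1 (by simp) (e1.miss hz (by simp) hb1)
  have hmg : ∀ w c, Miss H Q p2 w c → Miss H C2.G C2.p (g w) c := by
    intro w c h
    refine ⟨by rw [hp2']; exact h.1, fun n hn => ?_⟩
    obtain ⟨w', rfl, h5⟩ := hn2' w n hn
    rw [hp2']
    exact h.2 w' h5
  have y1ne2 : y1 ≠ y2 := by
    rintro rfl
    exact hne (py1.symm.trans py2)
  have hab1 : H.Adj a b1 := by rw [← hp]; exact hb1.1
  have xne1 : x ≠ y1 := by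
    rintro rfl
    exact hab1.ne (px.symm.trans py1)
  have xne2 : x ≠ y2 := by
    rintro rfl
    exact hκ.ne (px.symm.trans py2)
  -- the edge `z y1`
  obtain ⟨C3, N3, p3, a3, e3⟩ := exists_edge C2 (u := z) (v := g y1) hz2 (hg2 y1)
    (by rw [hp2', py1]; exact hmz) (by rw [hpz]; exact hmg _ _ my1)
  have hzg : ∀ w, z ≠ g w := fun w h => by have := hgC w; omega
  have hsg : ∀ w, s ≠ g w := fun w h => by have := hg1 w; omega
  have hsz : s ≠ z := by omega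
  -- the edge `s y2`
  obtain ⟨C4, N4, p4, a4, e4⟩ := exists_edge C3 (u := s) (v := g y2) (by rw [N3]; exact hsN.2)
    (by rw [N3]; exact hg2 y2)
    (by
      rw [p3, hp2', py2]
      refine ⟨by rw [hps]; exact hκ, fun n hn => ?_⟩
      rcases (a3 _ _).1 hn with h | h | h
      · exact absurd h (hsnone n)
      · exact absurd h.1 hsz
      · exact absurd h.1 (hsg _))
    (by
      rw [p3, hps]
      have := hmg _ _ my2
      refine ⟨this.1, fun n hn => ?_⟩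
      rcases (a3 _ _).1 hn with h | h | h
      · exact this.2 n h
      · exact absurd h.1.symm (hzg _)
      · exact absurd (hg h.1).symm y1ne2)
  have p42 : C4.p = C2.p := by rw [p4, p3]
  have N42 : C4.N = C2.N := by rw [N4, N3]
  have adj4 : ∀ m n, C4.G.Adj m n ↔ C2.G.Adj m n ∨ (m = z ∧ n = g y1) ∨ (m = g y1 ∧ n = z) ∨
      (m = s ∧ n = g y2) ∨ (m = g y2 ∧ n = s) := by
    intro m n
    rw [a4, a3]
    tauto
  have hnx : ∀ n, C4.G.Adj (g x) n → ∃ w', n = g w' ∧ Q.Adj x w' := by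
    intro n hn
    rcases (adj4 _ _).1 hn with h | h | h | h | h
    · exact hn2' x n h
    · exact absurd h.1.symm (hzg _)
    · exact absurd (hg h.1) xne1
    · exact absurd h.1.symm (hsg _)
    · exact absurd (hg h.1) xne2
  have hmx : ∀ c, Miss H Q p2 x c → Miss H C4.G C4.p (g x) c := by
    intro c h
    rw [p42]
    refine ⟨by rw [hp2']; exact h.1, fun n hn => ?_⟩
    obtain ⟨w', rfl, h5⟩ := hnx n hn
    rw [hp2']
    exact h.2 w' h5
  have hext : Ext C C4 {z} := by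
    have h1 : Ext C C2 ∅ := e1.trans e2 (fun _ _ h => h) (fun _ _ h => h)
    have h2 : Ext C C3 {z} := h1.trans e3 (fun _ _ h => by simp at h) (fun u hu h => by
      rcases h with h | h
      · exact h
      · have := hgC y1
        have h' : u = g y1 := h
        omega)
    refine h2.trans e4 (fun _ _ h => h) (fun u hu h => ?_)
    have := hgC y2
    have h3 := e1.N_le
    rcases h with h | h
    · have h' : u = s := h
      omega
    · have h' : u = g y2 := h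
      omega
  have c1N := e1.N_le
  have c2N := e2.N_le
  refine ⟨C4, g x, g y1, g y2, s, hext, ⟨hgC x, by rw [N42]; exact hg2 x⟩,
    ⟨by omega, by rw [N42]; exact hsN.2⟩, ⟨hgC y1, by rw [N42]; exact hg2 y1⟩,
    ⟨hgC y2, by rw [N42]; exact hg2 y2⟩, (hsg x).symm, ?_, ?_, ?_, ?_, hmx _ mx1, hmx _ mx2,
    (adj4 _ _).2 (by tauto), (adj4 _ _).2 (by tauto), ?_, ?_, ?_⟩
  · rw [p42, hp2', px]
  · rw [p42, hps]
  · rw [p42, hp2', py1]
  · rw [p42, hp2', py2]
  · intro n hn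
    rcases (adj4 _ _).1 hn with h | h | h | h | h
    · exact Or.inl (e1.new z hz (by simp) n (e2.new z hz1 (by simp) n h))
    · exact Or.inr h.2
    · exact absurd h.1 (hzg _)
    · exact absurd h.1.symm hsz
    · exact absurd h.1 (hzg _)
  · intro n hn
    rcases (adj4 _ _).1 hn with h | h | h | h | h
    · exact absurd h (hsnone n)
    · exact absurd h.1 hsz
    · exact absurd h.1 (hsg _)
    · exact h.2
    · exact absurd h.1 (hsg _)
  · intro f hf
    have hfQ : LI Q H (f ∘ g) := by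
      refine ⟨fun u v h => hf.1 _ _ ((adj4 _ _).2 (Or.inl (e2.G_le _ _ (ha1 _ _ h)))), ?_⟩
      intro u v w h1 h2 h3
      exact hg (hf.2 (g u) _ _ ((adj4 _ _).2 (Or.inl (e2.G_le _ _ (ha1 _ _ h1))))
        ((adj4 _ _).2 (Or.inl (e2.G_le _ _ (ha1 _ _ h2)))) h3)
    obtain ⟨k1, k2, k3⟩ := key (f ∘ g) hfQ
    have hm : ∀ w n, C4.G.Adj (g w) n → (∀ w', n ≠ g w') → Miss H Q (f ∘ g) w (f n) := by
      intro w n h1 h2
      refine ⟨hf.1 _ _ h1, fun w' h3 h4 => ?_⟩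
      have := hf.2 (g w) _ _ ((adj4 _ _).2 (Or.inl (e2.G_le _ _ (ha1 _ _ h3)))) h1 h4
      exact h2 w' this.symm
    have hzx : f z = f (g x) := k1 _ (hm y1 z ((adj4 _ _).2 (by tauto)) hzg)
    have hsx : f s = f (g x) := k2 _ (hm y2 s ((adj4 _ _).2 (by tauto)) hsg)
    refine ⟨hzx.symm, hsx.trans hzx.symm, fun c hc => k3 c ⟨hc.1, fun w hw => ?_⟩⟩
    exact hc.2 (g w) ((adj4 _ _).2 (Or.inl (e2.G_le _ _ (ha1 _ _ hw))))

/-- `u` is a known vertex of label `a` -/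
def Kn (C : Cfg H) (r0 : V → ℕ) (u : ℕ) (a : V) : Prop :=
  u < C.N ∧ C.p u = a ∧ ∀ f, LI C.G H f → f u = f (r0 a)

theorem Kn.ext {C C' : Cfg H} {S : Set ℕ} (h : Ext C C' S) {r0 : V → ℕ} {u : ℕ} {a : V}
    (hk : Kn C r0 u a) : Kn C' r0 u a :=
  ⟨hk.1.trans_le h.N_le, by rw [h.p_eq u hk.1, hk.2.1], fun f hf => hk.2.2 f (h.li hf)⟩

/-- the reservoir -/
structure Inv (C : Cfg H) (r0 res : V → ℕ) : Prop where
  kn : ∀ a, Kn C r0 (res a) a
  free : ∀ a, ∃ b b', b ≠ b' ∧ Miss H C.G C.p (res a) b ∧ Miss H C.G C.p (res a) b'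

theorem Inv.inj {C : Cfg H} {r0 res : V → ℕ} (h : Inv C r0 res) {a b : V} (e : res a = res b) :
    a = b := by
  rw [← (h.kn a).2.1, e, (h.kn b).2.1]

/-- a move: only vertices of `T` and of the reservoir are touched -/
def Mv (C : Cfg H) (res : V → ℕ) (C' : Cfg H) (res' : V → ℕ) (T : Set ℕ) : Prop :=
  Ext C C' (T ∪ Set.range res) ∧ ∀ c, res' c = res c ∨ C.N ≤ res' c

theorem Mv.trans {C C' C'' : Cfg H} {res res' res'' : V → ℕ} {T T' T'' : Set ℕ}
    (h : Mv C res C' res' T) (h' : Mv C' res' C'' res'' T')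
    (h1 : ∀ u < C.N, u ∈ T → u ∈ T'') (h2 : ∀ u < C.N, u ∈ T' → u ∈ T'') :
    Mv C res C'' res'' T'' := by
  refine ⟨h.1.trans h'.1 (fun u hu h5 => ?_) (fun u hu h5 => ?_), fun c => ?_⟩
  · exact h5.elim (fun h => Or.inl (h1 u hu h)) Or.inr
  · rcases h5 with h5 | ⟨c, rfl⟩
    · exact Or.inl (h2 u hu h5)
    · rcases h.2 c with h6 | h6
      · rw [h6]; exact Or.inr ⟨c, rfl⟩
      · omega
  · have := h.1.N_le
    rcases h'.2 c with h6 | h6
    · rw [h6]; exact h.2 c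
    · exact Or.inr (this.trans h6)

theorem Mv.notin {C C' : Cfg H} {res res' : V → ℕ} {T : Set ℕ} (h : Mv C res C' res' T) {u : ℕ}
    (hu : u < C.N) (hr : u ∉ Set.range res) : u ∉ Set.range res' := by
  rintro ⟨c, rfl⟩
  rcases h.2 c with h6 | h6
  · exact hr ⟨c, h6.symm⟩
  · omega

theorem supply (ht : TieThm H) {C : Cfg H} {r0 res : V → ℕ} (hI : Inv C r0 res) {a κ : V}
    (hκ : H.Adj a κ) : ∃ (C' : Cfg H) (res' : V → ℕ) (s : ℕ), Mv C res C' res' ∅ ∧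
      Inv C' r0 res' ∧ C.N ≤ s ∧ s ∉ Set.range res' ∧ Kn C' r0 s a ∧
      ∀ b, H.Adj a b → b ≠ κ → Miss H C'.G C'.p s b := by
  classical
  obtain ⟨b1, hb1, hne⟩ : ∃ b1, Miss H C.G C.p (res a) b1 ∧ b1 ≠ κ := by
    obtain ⟨b, b', hbb, h1, h2⟩ := hI.free a
    by_cases h : b = κ
    · exact ⟨b', h2, fun h' => hbb (h.trans h'.symm)⟩
    · exact ⟨b, h1, h⟩
  obtain ⟨C', x, y1, y2, s, hext, hx, hs, hy1, hy2, hxs, px, ps, py1, py2, mx1, mx2, ad1, ad2, nz,
    ns, key⟩ := produce ht C (hI.kn a).1 (hI.kn a).2.1 hb1 hκ hne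
  have hmv : Ext C C' (∅ ∪ Set.range res) := hext.mono fun u _ h => Or.inr ⟨a, h.symm⟩
  refine ⟨C', Function.update res a x, s, ⟨hmv, fun c => ?_⟩, ⟨fun c => ?_, fun c => ?_⟩, hs.1, ?_,
    ⟨hs.2, ps, fun f hf => ?_⟩, fun b hb hbκ => ?_⟩
  · by_cases hc : c = a
    · subst hc; rw [Function.update_self]; exact Or.inr hx.1
    · rw [Function.update_of_ne hc]; exact Or.inl rfl
  · by_cases hc : c = a
    · subst hc; rw [Function.update_self]
      exact ⟨hx.2, px, fun f hf => by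
        rw [(key f hf).1]; exact (hI.kn c).2.2 f (hext.li hf)⟩
    · rw [Function.update_of_ne hc]
      exact (hI.kn c).ext hext
  · by_cases hc : c = a
    · subst hc; rw [Function.update_self]
      exact ⟨b1, κ, hne, mx1, mx2⟩
    · rw [Function.update_of_ne hc]
      obtain ⟨b, b', hbb, h1, h2⟩ := hI.free c
      have hn : res c ∉ ({res a} : Set ℕ) := fun h => hc (hI.inj h)
      exact ⟨b, b', hbb, hext.miss (hI.kn c).1 hn h1, hext.miss (hI.kn c).1 hn h2⟩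
  · rintro ⟨c, hc⟩
    by_cases hca : c = a
    · subst hca; rw [Function.update_self] at hc; exact hxs hc
    · rw [Function.update_of_ne hca] at hc
      have := (hI.kn c).1
      have := hs.1
      omega
  · rw [(key f hf).2.1]; exact (hI.kn a).2.2 f (hext.li hf)
  · refine ⟨by rw [ps]; exact hb, fun n hn => ?_⟩
    rw [ns n hn, py2]
    exact hbκ.symm

theorem attach (ht : TieThm H) (h3 : D3 H) {C : Cfg H} {r0 res : V → ℕ} (hI : Inv C r0 res)
    {s : ℕ} {b : V} (hs : s < C.N) (hsr : s ∉ Set.range res) (hb : Miss H C.G C.p s b) :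
    ∃ (C' : Cfg H) (res' : V → ℕ) (u : ℕ), Mv C res C' res' {s} ∧ Inv C' r0 res' ∧ C.N ≤ u ∧
      Kn C' r0 u b ∧ C'.G.Adj s u ∧ ∀ v, C'.G.Adj s v → C.G.Adj s v ∨ v = u := by
  obtain ⟨κ, hκ, hκ', -⟩ := h3 b (C.p s) (C.p s)
  obtain ⟨C1, res1, u, hm1, hI1, hu, hur, hku, hfu⟩ := supply ht hI hκ
  have hs1 : s < C1.N := hs.trans_le hm1.1.N_le
  have hps : C1.p s = C.p s := hm1.1.p_eq s hs
  have hmiss : Miss H C1.G C1.p s b := hm1.1.miss hs (by simpa using hsr) hb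
  obtain ⟨C2, N2, p2, a2, e2⟩ := exists_edge C1 (u := s) (v := u) hs1 hku.1
    (by rw [hku.2.1]; exact hmiss) (by rw [hps]; exact hfu _ hb.1.symm hκ'.symm)
  have hsu : s ≠ u := by omega
  have hm2 : Mv C1 res1 C2 res1 {s, u} := ⟨e2.mono fun x _ h => Or.inl h, fun c => Or.inl rfl⟩
  have hsr1 : s ∉ Set.range res1 := hm1.notin hs hsr
  refine ⟨C2, res1, u, hm1.trans hm2 (fun _ _ h => by simp at h) (fun x hx h => ?_),
    ⟨fun c => (hI1.kn c).ext e2, fun c => ?_⟩, hu, hku.ext e2, (a2 _ _).2 (by tauto),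
    fun v hv => ?_⟩
  · rcases h with h | h
    · exact h
    · have : x = u := h
      omega
  · obtain ⟨b, b', hbb, h1, h2⟩ := hI1.free c
    have hn : res1 c ∉ ({s, u} : Set ℕ) := by
      rintro (h | h)
      · exact hsr1 ⟨c, h⟩
      · exact hur ⟨c, h⟩
    exact ⟨b, b', hbb, e2.miss (hI1.kn c).1 hn h1, e2.miss (hI1.kn c).1 hn h2⟩
  · rcases (a2 _ _).1 hv with h | h | h
    · exact Or.inl (hm1.1.new s hs (by simpa using hsr) v h)
    · exact Or.inr h.2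
    · exact absurd h.1 hsu

/-- attach known vertices of several labels -/
theorem attach_list (ht : TieThm H) (h3 : D3 H) {r0 : V → ℕ} {s : ℕ} (L : List V) :
    ∀ {C : Cfg H} {res : V → ℕ}, Inv C r0 res → s < C.N → s ∉ Set.range res → L.Nodup →
      (∀ b ∈ L, Miss H C.G C.p s b) →
      ∃ (C' : Cfg H) (res' : V → ℕ), Mv C res C' res' {s} ∧ Inv C' r0 res' ∧
        (∀ b ∈ L, ∃ u, C.N ≤ u ∧ Kn C' r0 u b ∧ C'.G.Adj s u) ∧
        ∀ v, C'.G.Adj s v → C.G.Adj s v ∨ (C.N ≤ v ∧ C'.p v ∈ L) := by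
  induction L with
  | nil =>
    intro C res hI hs hsr _ _
    exact ⟨C, res, ⟨Ext.refl _ _, fun c => Or.inl rfl⟩, hI, by simp, fun v hv => Or.inl hv⟩
  | cons b L ih =>
    intro C res hI hs hsr hnd hL
    obtain ⟨C1, res1, u, hm1, hI1, hu, hku, hadj, hnb⟩ := attach ht h3 hI hs hsr
      (hL b (by simp))
    have hnd' := List.nodup_cons.1 hnd
    obtain ⟨C2, res2, hm2, hI2, hk2, hn2⟩ := ih hI1 (hs.trans_le hm1.1.N_le) (hm1.notin hs hsr)
      hnd'.2 (fun b' hb' => by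
        have h5 := hL b' (by simp [hb'])
        refine ⟨by rw [hm1.1.p_eq s hs]; exact h5.1, fun v hv => ?_⟩
        rcases hnb v hv with h | rfl
        · rw [hm1.1.p_eq v (C.supp _ _ h.symm)]
          exact h5.2 v h
        · rw [hku.2.1]
          rintro rfl
          exact hnd'.1 hb')
    have hN := hm1.1.N_le
    refine ⟨C2, res2, hm1.trans hm2 (fun _ _ h => h) (fun _ _ h => h), hI2, ?_, ?_⟩
    · intro b' hb'
      rcases List.mem_cons.1 hb' with rfl | hb'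
      · exact ⟨u, hu, hku.ext hm2.1, hm2.1.G_le _ _ hadj⟩
      · obtain ⟨u', h1, h2, h3⟩ := hk2 b' hb'
        exact ⟨u', hN.trans h1, h2, h3⟩
    · intro v hv
      rcases hn2 v hv with h | h
      · rcases hnb v h with h | rfl
        · exact Or.inl h
        · refine Or.inr ⟨hu, ?_⟩
          rw [hm2.1.p_eq v hku.1, hku.2.1]
          simp
      · exact Or.inr ⟨hN.trans h.1, by simp [h.2]⟩

end Run7.h180
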