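import Pool.Agent.Run7.h180.Red1
import Pool.Agent.Run7.h180.Meet

/-!
The reduction: soundness.
-/

namespace Run7.h180

open Pool.Agent.H38.NP

variable {V W X T : Type} {H : SimpleGraph V}

/-- put a vertex in front of a walk -/
def cns (x : V) (w : ℕ → V) (i : ℕ) : V := if i = 0 then x else w (i - 1)

@[simp] theorem cns_zero (x : V) (w : ℕ → V) : cns x w 0 = x := rfl

@[simp] theorem cns_succ (x : V) (w : ℕ → V) (i : ℕ) : cns x w (i + 1) = w i := rfl

theorem NBW.cons {n : ℕ} {w : ℕ → V} {x : V} (h : NBW H n w) (hx : H.Adj x (w 0))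
    (hx' : 1 ≤ n → x ≠ w 1) : NBW H (n + 1) (cns x w) := by
  refine ⟨fun i hi => ?_, fun i hi => ?_⟩
  · cases i with
    | zero => exact hx
    | succ i => rw [cns_succ, cns_succ]; exact h.1 i (by omega)
  · cases i with
    | zero => exact hx' (by omega)
    | succ i => rw [cns_succ, cns_succ]; exact h.2 i (by omega)

/-- the short path of an arm -/
def kc : Bool → Kd V
  | false => Kd.cz
  | true => Kd.cz'

/-- the long path of an arm -/
def kb : Bool → Kd V
  | false => Kd.zb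
  | true => Kd.zb'

/-- colour next to the end `s` of the path `t` -/
def gg (D : RD V) (F : Fm) (f : (ℕ × ℕ) ⊕ ((ℕ × Kd V) × ℕ) → V) (t : ℕ × Kd V) (s : Bool) : V :=
  f (hv (fun t => D.len t.2) (D.ep F false) (D.ep F true) t s)

/-- colours along the path `t` -/
def pw (D : RD V) (F : Fm) (f : (ℕ × ℕ) ⊕ ((ℕ × Kd V) × ℕ) → V) (t : ℕ × Kd V) (i : ℕ) : V :=
  f (pv (fun t => D.len t.2) (D.ep F false) (D.ep F true) t i)

section
variable {P : Pat H} {ν : V → V} {D : RD V} {F : Fm} {f : (ℕ × ℕ) ⊕ ((ℕ × Kd V) × ℕ) → V}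

theorem gg_false (t : ℕ × Kd V) : gg D F f t false = pw D F f t 1 := rfl

theorem gg_true (t : ℕ × Kd V) : gg D F f t true = pw D F f t (D.len t.2 - 1) := rfl

theorem pw_zero (t : ℕ × Kd V) : pw D F f t 0 = f (Sum.inl (D.ep F false t)) := by
  unfold pw; rw [pv_zero]

theorem pw_last (t : ℕ × Kd V) : pw D F f t (D.len t.2) = f (Sum.inl (D.ep F true t)) := by
  unfold pw
  have := pv_last (A := D.ep F false) (A' := D.ep F true) (n := fun t : ℕ × Kd V => D.len t.2)
    (t := t) (D.len_pos t.2)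
  rw [this]

theorem pw_walk (hq : Function.Injective D.q) (hf : LI (D.graph F) H f) {t : ℕ × Kd V}
    (ht : F.ok t) : NBW H (D.len t.2) (pw D F f t) :=
  glue_walk hf ht (D.len_pos t.2) (RD.ep_ne hq F t)

/-- the assumptions on `f` in block `k` -/
def Nrm (P : Pat H) (ν : V → V) (D : RD V) (F : Fm) (f : (ℕ × ℕ) ⊕ ((ℕ × Kd V) × ℕ) → V) : Prop :=
  ∀ k < F.K, ∀ i, f (Sum.inl (k, D.q i)) = lab P ν i ∧
        ∀ c, Miss H D.G (fun j => f (Sum.inl (k, j))) (D.q i) c → c ∈ MM P ν i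

theorem gg_mem (hq : Function.Injective D.q) (hf : LI (D.graph F) H f) (hl : Nrm P ν D F f)
    {t : ℕ × Kd V} (ht : F.ok t) (s : Bool) (hb : F.blk t s < F.K) {i : Nd V}
    (hi : nod (F.sgn t.1) t.2 s = Sum.inl i) : gg D F f t s ∈ MM P ν i := by
  have h := red_miss hq hf ht s hb
  rw [hi] at h
  exact (hl _ hb i).2 _ h

theorem arm (hq : Function.Injective D.q) (e2 : D.h = P.h) (hf : LI (D.graph F) H f)
    (hl : Nrm P ν D F f) {k : ℕ} (hk : k < F.K) (x : Bool) :
    ∃ i w, NBW H P.h w ∧ w 0 = P.c ∧ w 1 = P.cc i ∧ w (P.h - 1) = P.β i ∧ w P.h = P.b ∧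
      f (Sum.inl (k, D.loc (Sum.inr x))) = P.cc i ∧ gg D F f (k, kc x) true = P.c ∧
      gg D F f (k, kb x) false = w 2 ∧ gg D F f (k, kb x) true = P.β i ∧
      gg D F f (k, kc x) false = P.cc i := by
  have hc : F.ok (k, (kc x : Kd V)) := by cases x <;> exact ⟨hk, trivial⟩
  have hb : F.ok (k, (kb x : Kd V)) := by cases x <;> exact ⟨hk, trivial⟩
  have lc : D.len (kc x : Kd V) = 1 := by cases x <;> rfl
  have lb : D.len (kb x : Kd V) = P.h - 1 := by
    rw [← e2]; cases x <;> rfl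
  have hh := P.hh
  have bc : ∀ s, F.blk (k, (kc x : Kd V)) s = k := by intro s; cases x <;> cases s <;> rfl
  have bb : ∀ s, F.blk (k, (kb x : Kd V)) s = k := by intro s; cases x <;> cases s <;> rfl
  have nc1 : nod (F.sgn k) (kc x : Kd V) true = Sum.inr x := by cases x <;> rfl
  have nb0 : nod (F.sgn k) (kb x : Kd V) false = Sum.inr x := by cases x <;> rfl
  have nb1 : nod (F.sgn k) (kb x : Kd V) true = Sum.inl (Sum.inr (Sum.inr 2)) := by
    cases x <;> rfl
  obtain ⟨j, nc0, hj, hj'⟩ : ∃ j, nod (F.sgn k) (kc x : Kd V) false = Sum.inl (Sum.inr (Sum.inr j)) ∧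
      lab P ν (Sum.inr (Sum.inr j)) = P.c ∧ MM P ν (Sum.inr (Sum.inr j)) = Set.range P.cc := by
    cases x
    · exact ⟨0, rfl, rfl, rfl⟩
    · exact ⟨1, rfl, rfl, rfl⟩
  have g1 : gg D F f (k, kc x) false = f (Sum.inl (k, D.loc (Sum.inr x))) := by
    rw [gg_false]
    have := pw_last (D := D) (F := F) (f := f) (k, kc x)
    rw [lc] at this
    rw [this]
    show f (Sum.inl (F.blk (k, kc x) true, D.loc (nod (F.sgn k) (kc x) true))) = _
    rw [bc, nc1]
  have g2 : gg D F f (k, kc x) true = P.c := by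
    rw [gg_true, lc, pw_zero]
    show f (Sum.inl (F.blk (k, kc x) false, D.loc (nod (F.sgn k) (kc x) false))) = _
    rw [bc, nc0]
    exact (hl k hk _).1.trans hj
  obtain ⟨i, hi⟩ : gg D F f (k, kc x) false ∈ Set.range P.cc := by
    rw [← hj']
    exact gg_mem hq hf hl hc false (by rw [bc]; exact hk) nc0
  have p0 : pw D F f (k, kb x) 0 = P.cc i := by
    rw [pw_zero, hi, g1]
    show f (Sum.inl (F.blk (k, kb x) false, D.loc (nod (F.sgn k) (kb x) false))) = _
    rw [bb, nb0]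
  have hwc := pw_walk hq hf hc
  have hwb := pw_walk hq hf hb
  have adj : H.Adj P.c (P.cc i) := by
    have h5 := hwc.1 0 (by rw [lc]; omega)
    rw [← gg_false, ← hi] at h5
    have h6 : pw D F f (k, kc x) 0 = P.c := by
      rw [← g2, gg_true, lc]
    rwa [h6] at h5
  have hne : P.c ≠ pw D F f (k, kb x) 1 := by
    rw [← g2, ← gg_false]
    refine red_ne hq hf hc hb (by cases x <;> simp [kc, kb]) ?_ ?_ ?_
    · rw [bc, bb]
    · rw [nc1, nb0]
    · left
      show nod (F.sgn k) (kc x) false ≠ nod (F.sgn k) (kb x) true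
      cases x <;> simp [nod, kc, kb]
  have hw : NBW H P.h (cns P.c (pw D F f (k, kb x))) := by
    have h5 := hwb.cons (x := P.c) (by rw [p0]; exact adj) (fun _ => hne)
    rwa [lb, show P.h - 1 + 1 = P.h by omega] at h5
  obtain ⟨j', hj2⟩ : gg D F f (k, kb x) true ∈ Set.range P.β :=
    gg_mem hq hf hl hb true (by rw [bb]; exact hk) nb1
  have w1 : cns P.c (pw D F f (k, kb x)) (P.h - 1) = gg D F f (k, kb x) true := by
    rw [gg_true, lb]
    obtain ⟨h', hh'⟩ : ∃ h', P.h = h' + 2 := ⟨P.h - 2, by omega⟩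
    rw [hh', show h' + 2 - 1 = h' + 1 by omega, cns_succ]
    rfl
  have w2 : cns P.c (pw D F f (k, kb x)) P.h = P.b := by
    obtain ⟨h', hh'⟩ : ∃ h', P.h = h' + 1 := ⟨P.h - 1, by omega⟩
    have h5 := pw_last (D := D) (F := F) (f := f) (k, kb x)
    rw [hh', cns_succ, show h' = D.len (kb x : Kd V) by rw [lb]; omega, h5]
    show f (Sum.inl (F.blk (k, kb x) true, D.loc (nod (F.sgn k) (kb x) true))) = _
    rw [bb, nb1]
    exact (hl k hk _).1
  have hji : j' = i := P.m1 i j' ⟨_, hw, rfl, by rw [← p0]; rfl, by rw [w1, hj2], w2⟩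
  subst hji
  exact ⟨j', _, hw, rfl, by rw [← p0]; rfl, by rw [w1, hj2], w2, by rw [← g1, hi], g2, rfl,
    hj2.symm, hi.symm⟩

theorem red_sound (hq : Function.Injective D.q) (e1 : D.ℓ = P.ℓ) (e2 : D.h = P.h)
    (e3 : D.μ = P.μ) {M : ℕ} (hK : F.K = 3 * M) (hf : LI (D.graph F) H f)
    (hl : Nrm P ν D F f) : ∃ σ : ℕ → Bool, ∀ m < M, ∃ π : Equiv.Perm (Fin 3), ∀ j : Fin 3,
      P.R (σ (F.var (3 * m + j)) == F.sgn (3 * m + j)) (π j) := by
  classical
  have hμ := P.hμ
  have hℓ := P.hℓ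
  have harm := fun k (hk : k < F.K) (x : Bool) => arm hq e2 hf hl hk x
  have hI : ∀ k, ∃ I I' : Bool, ∃ w w' : ℕ → V, k < F.K →
      (NBW H P.h w ∧ w 0 = P.c ∧ w 1 = P.cc I ∧ w (P.h - 1) = P.β I ∧ w P.h = P.b ∧
      f (Sum.inl (k, D.loc (Sum.inr false))) = P.cc I ∧ gg D F f (k, Kd.cz) true = P.c ∧
      gg D F f (k, Kd.zb) false = w 2 ∧ gg D F f (k, Kd.zb) true = P.β I ∧
      gg D F f (k, Kd.cz) false = P.cc I) ∧
      (NBW H P.h w' ∧ w' 0 = P.c ∧ w' 1 = P.cc I' ∧ w' (P.h - 1) = P.β I' ∧ w' P.h = P.b ∧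
      f (Sum.inl (k, D.loc (Sum.inr true))) = P.cc I' ∧ gg D F f (k, Kd.cz') true = P.c ∧
      gg D F f (k, Kd.zb') false = w' 2 ∧ gg D F f (k, Kd.zb') true = P.β I' ∧
      gg D F f (k, Kd.cz') false = P.cc I') := by
    intro k
    by_cases hk : k < F.K
    · obtain ⟨i, w, h⟩ := harm k hk false
      obtain ⟨i', w', h'⟩ := harm k hk true
      exact ⟨i, i', w, w', fun _ => ⟨h, h'⟩⟩
    · exact ⟨true, true, fun _ => P.c, fun _ => P.c, fun h => absurd h hk⟩
  choose I I' w w' hI using hI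
  have hII : ∀ k, k < F.K → I' k = !I k := by
    intro k hk
    obtain ⟨h1, h2⟩ := hI k hk
    have hne : gg D F f (k, Kd.zb) true ≠ gg D F f (k, Kd.zb') true :=
      red_ne hq hf (t := (k, Kd.zb)) (t' := (k, Kd.zb')) ⟨hk, trivial⟩ ⟨hk, trivial⟩ (by simp)
        rfl rfl (Or.inl (by simp [nod]))
    rw [h1.2.2.2.2.2.2.2.2.1, h2.2.2.2.2.2.2.2.2.1] at hne
    cases h5 : I k <;> cases h6 : I' k <;> simp_all
  -- the path from `z'` to `E`
  have hze : ∀ k, k < F.K → gg D F f (k, Kd.ze) true = P.ε (I' k) := by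
    intro k hk
    obtain ⟨h1, h2⟩ := hI k hk
    have ht : F.ok (k, (Kd.ze : Kd V)) := ⟨hk, trivial⟩
    have hw := pw_walk hq hf ht
    have hlen : D.len (Kd.ze : Kd V) = P.μ := by rw [← e3]; rfl
    obtain ⟨l, hl'⟩ : gg D F f (k, Kd.ze) true ∈ Set.range P.ε :=
      gg_mem hq hf hl ht true hk (i := Sum.inr (Sum.inr 3)) rfl
    have u0 : pw D F f (k, Kd.ze) 0 = P.cc (I' k) := by
      rw [pw_zero]; exact h2.2.2.2.2.2.1
    have u1 : pw D F f (k, Kd.ze) P.μ = P.e := by
      have := pw_last (D := D) (F := F) (f := f) (k, Kd.ze)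
      rw [← hlen, this]
      exact (hl k hk (Sum.inr (Sum.inr 3))).1
    have n1 : gg D F f (k, Kd.ze) false ≠ gg D F f (k, Kd.cz') true :=
      red_ne hq hf (t := (k, Kd.ze)) (t' := (k, Kd.cz')) ht ⟨hk, trivial⟩ (by simp)
        rfl rfl (Or.inl (by simp [nod]))
    have n2 : gg D F f (k, Kd.ze) false ≠ gg D F f (k, Kd.zb') false :=
      red_ne hq hf (t := (k, Kd.ze)) (t' := (k, Kd.zb')) ht ⟨hk, trivial⟩ (by simp)
        rfl rfl (Or.inl (by simp [nod]))
    rw [h2.2.2.2.2.2.2.1] at n1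
    rw [h2.2.2.2.2.2.2.2.1] at n2
    rw [gg_false] at n1 n2
    rw [← hl']
    have := P.m3 (I' k) (I' k) l (w' k) (pw D F f (k, Kd.ze)) h2.1 h2.2.1 h2.2.2.1 h2.2.2.2.1
      h2.2.2.2.2.1 (by rw [← hlen]; exact hw) u0 (by rw [hl', gg_true, hlen]) u1 n1 n2
    rw [this]
  -- the path from `E` to the next `z`
  have hez : ∀ k m, k < F.K → F.nx k = some m → gg D F f (k, Kd.ez) false = P.ε (I m) := by
    intro k m hk hm
    have hmK : m < F.K := (Fm.nx_spec hm).2.1
    obtain ⟨h1, h2⟩ := hI m hmK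
    have ht : F.ok (k, (Kd.ez : Kd V)) := ⟨hk, by simp [hm]⟩
    have hblk : F.blk (k, (Kd.ez : Kd V)) true = m := by simp [Fm.blk, hm]
    have hlen : D.len (Kd.ez : Kd V) = P.μ := by rw [← e3]; rfl
    have hw := (pw_walk hq hf ht).rev
    obtain ⟨l, hl'⟩ : gg D F f (k, Kd.ez) false ∈ Set.range P.ε :=
      gg_mem hq hf hl ht false hk (i := Sum.inr (Sum.inr 3)) rfl
    have hlast := pw_last (D := D) (F := F) (f := f) (k, Kd.ez)
    have hlast' : pw D F f (k, Kd.ez) P.μ = P.cc (I m) := by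
      rw [← hlen, hlast]
      show f (Sum.inl (F.blk (k, Kd.ez) true, D.loc (Sum.inr false))) = _
      rw [hblk]
      exact h1.2.2.2.2.2.1
    have hz0 : pw D F f (k, Kd.ez) 0 = P.e := by
      rw [pw_zero]
      exact (hl k hk (Sum.inr (Sum.inr 3))).1
    have n1 : gg D F f (k, Kd.ez) true ≠ gg D F f (m, Kd.cz) true :=
      red_ne hq hf (t := (k, Kd.ez)) (t' := (m, Kd.cz)) ht ⟨hmK, trivial⟩ (by simp)
        hblk rfl (Or.inl (by simp [nod]))
    have n2 : gg D F f (k, Kd.ez) true ≠ gg D F f (m, Kd.zb) false :=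
      red_ne hq hf (t := (k, Kd.ez)) (t' := (m, Kd.zb)) ht ⟨hmK, trivial⟩ (by simp)
        hblk rfl (Or.inl (by simp [nod]))
    rw [h1.2.2.2.2.2.2.1] at n1
    rw [h1.2.2.2.2.2.2.2.1] at n2
    rw [gg_true, hlen] at n1 n2
    rw [hlen] at hw
    have := P.m3 (I m) (I m) l (w m) (fun i => pw D F f (k, Kd.ez) (P.μ - i)) h1.1 h1.2.1
      h1.2.2.1 h1.2.2.2.1 h1.2.2.2.2.1 hw (by simpa using hlast')
      (by
        show pw D F f (k, Kd.ez) (P.μ - (P.μ - 1)) = _
        rw [show P.μ - (P.μ - 1) = 1 by omega, ← gg_false, hl'])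
      (by
        show pw D F f (k, Kd.ez) (P.μ - P.μ) = _
        rw [Nat.sub_self, hz0]) n1 n2
    rw [← hl', this]
  have hstep : ∀ k m, F.nx k = some m → I k = I m := by
    intro k m hm
    have hs := Fm.nx_spec hm
    have hk : k < F.K := by omega
    have hne : gg D F f (k, Kd.ze) true ≠ gg D F f (k, Kd.ez) false :=
      red_ne hq hf (t := (k, Kd.ze)) (t' := (k, Kd.ez)) ⟨hk, trivial⟩ ⟨hk, by simp [hm]⟩
        (by simp) rfl rfl (Or.inl (by simp [nod]))
    rw [hze k hk, hez k m hk hm, hII k hk] at hne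
    cases h5 : I k <;> cases h6 : I m <;> simp_all
  have hout : ∀ k, ∃ j, k < F.K → gg D F f (k, Kd.out) true = P.kk j ∧
      P.R (I k == F.sgn k) j := by
    intro k
    by_cases hk : k < F.K
    swap
    · exact ⟨0, fun h => absurd h hk⟩
    obtain ⟨h1, h2⟩ := hI k hk
    have ht : F.ok (k, (Kd.out : Kd V)) := ⟨hk, trivial⟩
    have hw := pw_walk hq hf ht
    have hlen : D.len (Kd.out : Kd V) = P.ℓ := by rw [← e1]; rfl
    have hb3 : 3 * (k / 3) < F.K := by omega
    obtain ⟨j, hj⟩ : gg D F f (k, Kd.out) true ∈ Set.range P.kk :=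
      gg_mem hq hf hl ht true hb3 (i := Sum.inr (Sum.inr 4)) rfl
    have u0 : pw D F f (k, Kd.out) 0 = P.c := by
      rw [pw_zero]
      show f (Sum.inl (k, D.loc (nod (F.sgn k) Kd.out false))) = _
      cases F.sgn k
      · exact (hl k hk (Sum.inr (Sum.inr 0))).1
      · exact (hl k hk (Sum.inr (Sum.inr 1))).1
    have u2 : pw D F f (k, Kd.out) P.ℓ = P.v := by
      have := pw_last (D := D) (F := F) (f := f) (k, Kd.out)
      rw [← hlen, this]
      exact (hl _ hb3 (Sum.inr (Sum.inr 4))).1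
    have u1 : pw D F f (k, Kd.out) 1 = P.cc (I k == F.sgn k) := by
      rw [← gg_false]
      have hsI := hII k hk
      cases hs : F.sgn k
      · have hn : nod (F.sgn (k, (Kd.out : Kd V)).1) Kd.out false =
            (Sum.inl (Sum.inr (Sum.inr 0)) : Nd V ⊕ Bool) := by
          show nod (F.sgn k) Kd.out false = _
          rw [hs]; rfl
        obtain ⟨i, hi⟩ : gg D F f (k, Kd.out) false ∈ Set.range P.cc :=
          gg_mem hq hf hl ht false hk (i := Sum.inr (Sum.inr 0)) hn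
        have hne : gg D F f (k, Kd.out) false ≠ gg D F f (k, Kd.cz) false :=
          red_ne hq hf (t := (k, Kd.out)) (t' := (k, Kd.cz)) ht ⟨hk, trivial⟩
            (by simp) rfl hn (Or.inl (by simp [nod]))
        rw [h1.2.2.2.2.2.2.2.2.2, ← hi] at hne
        rw [← hi]
        cases h5 : I k <;> cases i <;> simp_all
      · have hn : nod (F.sgn (k, (Kd.out : Kd V)).1) Kd.out false =
            (Sum.inl (Sum.inr (Sum.inr 1)) : Nd V ⊕ Bool) := by
          show nod (F.sgn k) Kd.out false = _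
          rw [hs]; rfl
        obtain ⟨i, hi⟩ : gg D F f (k, Kd.out) false ∈ Set.range P.cc :=
          gg_mem hq hf hl ht false hk (i := Sum.inr (Sum.inr 1)) hn
        have hne : gg D F f (k, Kd.out) false ≠ gg D F f (k, Kd.cz') false :=
          red_ne hq hf (t := (k, Kd.out)) (t' := (k, Kd.cz')) ht ⟨hk, trivial⟩
            (by simp) rfl hn (Or.inl (by simp [nod]))
        rw [h2.2.2.2.2.2.2.2.2.2, ← hi] at hne
        rw [← hi]
        cases h5 : I k <;> cases i <;> simp_all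
    refine ⟨j, fun _ => ⟨hj.symm, pw D F f (k, Kd.out), by rw [← hlen]; exact hw, u0, u1, ?_, u2⟩⟩
    rw [hj, gg_true, hlen]
  choose J hJ using hout
  let σ : ℕ → Bool := fun x => decide (∃ k < F.K, F.var k = x ∧ I k = true)
  have hσ : ∀ k, k < F.K → σ (F.var k) = I k := by
    intro k hk
    cases h5 : I k
    · simp only [σ, decide_eq_false_iff_not]
      rintro ⟨k', hk', hv, ht⟩
      have : I k = I k' := by
        rcases Nat.le_total k k' with h | h
        · exact Fm.state hstep (k' - k) k k' (by omega) hk' hv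
        · exact (Fm.state hstep (k - k') k' k (by omega) hk hv.symm).symm
      rw [h5, ht] at this
      simp at this
    · simp only [σ, decide_eq_true_eq]
      exact ⟨k, hk, rfl, h5⟩
  refine ⟨σ, fun m hm => ?_⟩
  have hinj : Function.Injective fun j : Fin 3 => J (3 * m + j) := by
    intro j j' e
    by_contra hne
    have hjj : (j : ℕ) ≠ j' := fun h => hne (Fin.ext h)
    have hj2 := j.2
    have hj2' := j'.2
    have hk : 3 * m + (j : ℕ) < F.K := by omega
    have hk' : 3 * m + (j' : ℕ) < F.K := by omega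
    have h5 : gg D F f (3 * m + j, Kd.out) true ≠ gg D F f (3 * m + j', Kd.out) true := by
      refine red_ne hq hf (t := (3 * m + (j : ℕ), Kd.out)) (t' := (3 * m + (j' : ℕ), Kd.out))
        ⟨hk, trivial⟩ ⟨hk', trivial⟩ (fun h => hjj ?_) ?_ rfl (Or.inr ?_)
      · have := congrArg Prod.fst h
        simp only at this
        omega
      · show 3 * ((3 * m + (j : ℕ)) / 3) = 3 * ((3 * m + (j' : ℕ)) / 3)
        omega
      · show 3 * m + (j : ℕ) ≠ 3 * m + (j' : ℕ)
        omega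
    rw [(hJ _ hk).1, (hJ _ hk').1] at h5
    exact h5 (congrArg P.kk e)
  refine ⟨Equiv.ofBijective _ (Finite.injective_iff_bijective.1 hinj), fun j => ?_⟩
  have hj2 := j.2
  have hk : 3 * m + (j : ℕ) < F.K := by omega
  rw [hσ _ hk]
  exact (hJ _ hk).2

end

end Run7.h180
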