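import Pool.Agent.Run7.h180.Sat

/-!
The graph of the reduction: copies of one block graph, joined by paths.
-/

namespace Run7.h180

open Pool.Agent.H38.NP

variable {V W X T : Type}

/-- the `i`-th vertex of the path `t` from `A t` to `A' t` of length `n t` -/
def pv (n : T → ℕ) (A A' : T → X) (t : T) (i : ℕ) : X ⊕ (T × ℕ) :=
  if i = 0 then Sum.inl (A t) else if i = n t then Sum.inl (A' t) else Sum.inr (t, i)

/-- edges of the glued graph -/
def glueRel (B : SimpleGraph X) (ok : T → Prop) (n : T → ℕ) (A A' : T → X)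
    (x y : X ⊕ (T × ℕ)) : Prop :=
  (∃ a b, B.Adj a b ∧ x = Sum.inl a ∧ y = Sum.inl b) ∨
    ∃ t, ok t ∧ ∃ i < n t, x = pv n A A' t i ∧ y = pv n A A' t (i + 1)

/-- the graph `B` together with paths -/
def glue (B : SimpleGraph X) (ok : T → Prop) (n : T → ℕ) (A A' : T → X) :
    SimpleGraph (X ⊕ (T × ℕ)) := SimpleGraph.fromRel (glueRel B ok n A A')

/-- the kinds of paths -/
inductive Kd (V : Type) : Type
  | cz | cz' | zb | zb' | ze | ez | out
  | ch (a : V)

/-- the designated nodes of a block: `inl a` is `L a`, `inr (inl a)` is `O a`, the others are the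
nodes `C, C', B, E, V` -/
abbrev Nd (V : Type) : Type := V ⊕ (V ⊕ Fin 5)

/-- the data of the reduction that do not depend on the formula -/
structure RD (V : Type) where
  /-- number of vertices of the block graph -/
  N : ℕ
  /-- the block graph -/
  G : SimpleGraph ℕ
  /-- the designated nodes -/
  q : Nd V → ℕ
  ℓ : ℕ
  h : ℕ
  μ : ℕ
  supp : ∀ u v, G.Adj u v → u < N
  qN : ∀ i, q i < N
  hℓ : 2 ≤ ℓ
  hh : 2 ≤ h
  hμ : 1 ≤ μ

/-- the literals of a formula -/
structure Fm where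
  /-- number of literal occurrences -/
  K : ℕ
  /-- the variable of an occurrence -/
  var : ℕ → ℕ
  /-- the sign of an occurrence -/
  sgn : ℕ → Bool

/-- next occurrence of the same variable -/
def Fm.nx (F : Fm) (k : ℕ) : Option ℕ :=
  ((List.range F.K).filter fun m => decide (k < m) && decide (F.var m = F.var k)).head?

/-- a node with its local number: `inr false` is `z`, `inr true` is `z'` -/
def RD.loc (D : RD V) : Nd V ⊕ Bool → ℕ
  | Sum.inl i => D.q i
  | Sum.inr b => if b then D.N + 1 else D.N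

/-- lengths of the paths -/
def RD.len (D : RD V) : Kd V → ℕ
  | Kd.cz => 1
  | Kd.cz' => 1
  | Kd.zb => D.h - 1
  | Kd.zb' => D.h - 1
  | Kd.ze => D.μ
  | Kd.ez => D.μ
  | Kd.out => D.ℓ
  | Kd.ch _ => 1

/-- the node at the end `s` of a path (`false` = start) -/
def nod (sg : Bool) : Kd V → Bool → Nd V ⊕ Bool
  | Kd.cz, false => Sum.inl (Sum.inr (Sum.inr 0))
  | Kd.cz, true => Sum.inr false
  | Kd.cz', false => Sum.inl (Sum.inr (Sum.inr 1))
  | Kd.cz', true => Sum.inr true
  | Kd.zb, false => Sum.inr false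
  | Kd.zb, true => Sum.inl (Sum.inr (Sum.inr 2))
  | Kd.zb', false => Sum.inr true
  | Kd.zb', true => Sum.inl (Sum.inr (Sum.inr 2))
  | Kd.ze, false => Sum.inr true
  | Kd.ze, true => Sum.inl (Sum.inr (Sum.inr 3))
  | Kd.ez, false => Sum.inl (Sum.inr (Sum.inr 3))
  | Kd.ez, true => Sum.inr false
  | Kd.out, false => if sg then Sum.inl (Sum.inr (Sum.inr 1)) else Sum.inl (Sum.inr (Sum.inr 0))
  | Kd.out, true => Sum.inl (Sum.inr (Sum.inr 4))
  | Kd.ch a, false => Sum.inl (Sum.inr (Sum.inl a))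
  | Kd.ch a, true => Sum.inl (Sum.inl a)

/-- the block at the end `s` of the path of kind `t.2` of block `t.1` -/
def Fm.blk (F : Fm) (t : ℕ × Kd V) : Bool → ℕ
  | false => t.1
  | true => match t.2 with
    | Kd.ez => (F.nx t.1).getD 0
    | Kd.out => 3 * (t.1 / 3)
    | Kd.ch _ => t.1 + 1
    | _ => t.1

/-- the paths that exist -/
def Fm.ok (F : Fm) (t : ℕ × Kd V) : Prop :=
  t.1 < F.K ∧ match t.2 with
    | Kd.ez => (F.nx t.1).isSome = true
    | Kd.ch _ => t.1 + 1 < F.K
    | _ => True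

/-- the end `s` of a path -/
def RD.ep (D : RD V) (F : Fm) (s : Bool) (t : ℕ × Kd V) : ℕ × ℕ :=
  (F.blk t s, D.loc (nod (F.sgn t.1) t.2 s))

/-- the copies of the block graph -/
def RD.base (D : RD V) (F : Fm) : SimpleGraph (ℕ × ℕ) where
  Adj x y := x.1 = y.1 ∧ x.1 < F.K ∧ D.G.Adj x.2 y.2
  symm := ⟨fun _ _ h => ⟨h.1.symm, h.1 ▸ h.2.1, h.2.2.symm⟩⟩
  loopless := ⟨fun x h => D.G.loopless.irrefl x.2 h.2.2⟩

/-- the graph of the reduction -/
def RD.graph (D : RD V) (F : Fm) : SimpleGraph ((ℕ × ℕ) ⊕ ((ℕ × Kd V) × ℕ)) :=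
  glue (D.base F) F.ok (fun t => D.len t.2) (D.ep F false) (D.ep F true)

/-- the occurrences of the formula `φ` -/
def fmOf (φ : List (Lit × Lit × Lit)) : Fm :=
  ⟨3 * φ.length, fun k => (litAt φ k).1, fun k => (litAt φ k).2⟩

end Run7.h180
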