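import Pool.Agent.Run7.h180.Base

/-!
Piece E: NP-hardness of the satisfiability problems.
-/

namespace Run7.h180

open Pool.Agent.H38.NP

/-- the value of a literal -/
def litVal (σ : ℕ → Bool) (l : Lit) : Bool := σ l.1 == l.2

/-- a clause is satisfied if the values of its literals fit to the ports in some order -/
def SatR (R : Bool → Fin 3 → Prop) (φ : List (Lit × Lit × Lit)) : Prop :=
  ∃ σ : ℕ → Bool, ∀ C ∈ φ, ∃ π : Equiv.Perm (Fin 3), R (litVal σ C.1) (π 0) ∧
    R (litVal σ C.2.1) (π 1) ∧ R (litVal σ C.2.2) (π 2)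

namespace Sat

/-- the relation as a Boolean function -/
def Rb (r1 r2 : Bool) (b : Bool) (i : Fin 3) : Bool :=
  if b then (if i = 0 then true else if i = 1 then r1 else r2) else decide (i ≠ 0)

/-- the clause condition -/
def cl (r1 r2 x y z : Bool) : Bool :=
  (x || y || z) && (!((x && y) || (x && z) || (y && z)) || r1 || r2) &&
    (!(x && y && z) || (r1 && r2))

theorem cl_spec : ∀ r1 r2 x y z : Bool, (∃ π : Equiv.Perm (Fin 3), Rb r1 r2 x (π 0) = true ∧
    Rb r1 r2 y (π 1) = true ∧ Rb r1 r2 z (π 2) = true) ↔ cl r1 r2 x y z = true := by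
  decide

theorem cl_iff (R : Bool → Fin 3 → Prop) (h0 : ¬ R false 0) (h1 : R false 1) (h2 : R false 2)
    (h3 : R true 0) (r1 r2 : Bool) (e1 : R true 1 ↔ r1 = true) (e2 : R true 2 ↔ r2 = true)
    (x y z : Bool) :
    (∃ π : Equiv.Perm (Fin 3), R x (π 0) ∧ R y (π 1) ∧ R z (π 2)) ↔ cl r1 r2 x y z = true := by
  rw [← cl_spec]
  have e : ∀ b i, R b i ↔ Rb r1 r2 b i = true := by
    intro b i
    cases b <;> fin_cases i <;> simp [Rb, h0, h1, h2, h3, e1, e2]
  simp only [e]

theorem satR_iff (R : Bool → Fin 3 → Prop) (h0 : ¬ R false 0) (h1 : R false 1) (h2 : R false 2)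
    (h3 : R true 0) (r1 r2 : Bool) (e1 : R true 1 ↔ r1 = true) (e2 : R true 2 ↔ r2 = true)
    (φ : List (Lit × Lit × Lit)) :
    SatR R φ ↔ ∃ σ : ℕ → Bool, ∀ C ∈ φ,
      cl r1 r2 (litVal σ C.1) (litVal σ C.2.1) (litVal σ C.2.2) = true := by
  unfold SatR
  simp only [cl_iff R h0 h1 h2 h3 r1 r2 e1 e2]

theorem sat3_iff (φ : List (Lit × Lit × Lit)) :
    Sat3 φ ↔ ∃ σ : ℕ → Bool, ∀ C ∈ φ,
      (litVal σ C.1 || litVal σ C.2.1 || litVal σ C.2.2) = true := by
  unfold Sat3 litVal
  simp [or_assoc]

/-- renaming -/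
def dbl (l : Lit) : Lit := (2 * l.1, l.2)

/-- negation -/
def ng (l : Lit) : Lit := (l.1, !l.2)

@[fun_prop] theorem pt_dbl {α : Type} [Enc α] {f : α → Lit} (hf : PT f) : PT fun a => dbl (f a) := by
  unfold dbl; fun_prop

@[fun_prop] theorem pt_ng {α : Type} [Enc α] {f : α → Lit} (hf : PT f) : PT fun a => ng (f a) := by
  unfold ng; fun_prop

theorem litVal_ng (σ : ℕ → Bool) (l : Lit) : litVal σ (ng l) = !litVal σ l := by
  obtain ⟨v, b⟩ := l
  unfold litVal ng
  cases σ v <;> cases b <;> rfl

/-- the NAE gadget -/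
def nae (p : (Lit × Lit × Lit) × ℕ) : List (Lit × Lit × Lit) :=
  [(dbl p.1.1, dbl p.1.2.1, (2 * p.2 + 3, true)), ((2 * p.2 + 3, false), dbl p.1.2.2, (1, true))]

/-- the 1-in-3 gadget -/
def oit (p : (Lit × Lit × Lit) × ℕ) : List (Lit × Lit × Lit) :=
  [(ng (dbl p.1.1), (8 * p.2 + 1, true), (8 * p.2 + 3, true)),
    (dbl p.1.2.1, (8 * p.2 + 3, true), (8 * p.2 + 5, true)),
    (ng (dbl p.1.2.2), (8 * p.2 + 5, true), (8 * p.2 + 7, true))]

theorem mem_gadget {φ : List (Lit × Lit × Lit)}
    {g : (Lit × Lit × Lit) × ℕ → List (Lit × Lit × Lit)} {P : (Lit × Lit × Lit) → Prop} :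
    (∀ C ∈ φ.zipIdx.flatMap g, P C) ↔ ∀ C i, φ[i]? = some C → ∀ D ∈ g (C, i), P D := by
  constructor
  · intro h C i hC D hD
    exact h D (List.mem_flatMap.2 ⟨(C, i), List.mem_zipIdx_iff_getElem?.2 hC, hD⟩)
  · intro h D hD
    obtain ⟨⟨C, i⟩, hC, hD⟩ := List.mem_flatMap.1 hD
    exact h C i (List.mem_zipIdx_iff_getElem?.1 hC) D hD

theorem nae_ok (φ : List (Lit × Lit × Lit)) : Sat3 φ ↔ ∃ σ : ℕ → Bool,
    ∀ C ∈ φ.zipIdx.flatMap nae,
      cl true false (litVal σ C.1) (litVal σ C.2.1) (litVal σ C.2.2) = true := by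
  rw [sat3_iff]
  constructor
  · rintro ⟨a, ha⟩
    refine ⟨fun n => if n % 2 = 0 then a (n / 2) else if n = 1 then false else
      (let C := φ.getD ((n - 3) / 2) ((0, true), (0, true), (0, true))
       !(litVal a C.1 || litVal a C.2.1)), ?_⟩
    rw [mem_gadget]
    intro C i hC
    have hC' := ha C (List.mem_of_getElem? hC)
    set σ : ℕ → Bool := fun n => if n % 2 = 0 then a (n / 2) else if n = 1 then false else
      (let C := φ.getD ((n - 3) / 2) ((0, true), (0, true), (0, true))
       !(litVal a C.1 || litVal a C.2.1)) with hσ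
    have e1 : ∀ l : Lit, litVal σ (dbl l) = litVal a l := by
      intro l
      simp [litVal, dbl, hσ]
    have e2 : σ (2 * i + 3) = !(litVal a C.1 || litVal a C.2.1) := by
      have h1 : (2 * i + 3) % 2 = 1 := by omega
      have h2 : (2 * i + 3 - 3) / 2 = i := by omega
      simp only [hσ, h1, h2]
      rw [if_neg (by omega), if_neg (by omega)]
      simp [List.getD_eq_getElem?_getD, hC]
    have e3 : σ 1 = false := by simp [hσ]
    have e4 : litVal σ (2 * i + 3, true) = !(litVal a C.1 || litVal a C.2.1) := by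
      change (σ (2 * i + 3) == true) = _
      rw [e2]; cases (litVal a C.1 || litVal a C.2.1) <;> rfl
    have e5 : litVal σ (2 * i + 3, false) = (litVal a C.1 || litVal a C.2.1) := by
      change (σ (2 * i + 3) == false) = _
      rw [e2]; cases (litVal a C.1 || litVal a C.2.1) <;> rfl
    have e6 : litVal σ (1, true) = false := by
      change (σ 1 == true) = _
      rw [e3]; rfl
    intro D hD
    simp only [nae, List.mem_cons, List.not_mem_nil, or_false] at hD
    rcases hD with rfl | rfl
    · simp only [e1, e4]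
      cases litVal a C.1 <;> cases litVal a C.2.1 <;> rfl
    · simp only [e1, e5, e6]
      revert hC'
      cases litVal a C.1 <;> cases litVal a C.2.1 <;> cases litVal a C.2.2 <;> decide
  · rintro ⟨σ, hσ⟩
    rw [mem_gadget] at hσ
    refine ⟨fun v => xor (σ (2 * v)) (σ 1), fun C hC => ?_⟩
    obtain ⟨i, hi⟩ := List.mem_iff_getElem?.1 hC
    have h1 := hσ C i hi _ (by simp only [nae]; exact List.mem_cons_self)
    have h2 := hσ C i hi _ (by simp only [nae]; exact List.mem_cons_of_mem _ List.mem_cons_self)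
    have e1 : ∀ l : Lit, litVal (fun v => xor (σ (2 * v)) (σ 1)) l =
        xor (litVal σ (dbl l)) (σ 1) := by
      rintro ⟨v, b⟩
      simp only [litVal, dbl]
      cases σ (2 * v) <;> cases σ 1 <;> cases b <;> rfl
    have e2 : litVal σ (2 * i + 3, false) = !litVal σ (2 * i + 3, true) := by
      simp only [litVal]; cases σ (2 * i + 3) <;> rfl
    have e3 : litVal σ (1, true) = σ 1 := by
      simp only [litVal]; cases σ 1 <;> rfl
    simp only at h1 h2
    rw [e2, e3] at h2
    simp only [e1]
    revert h1 h2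
    cases litVal σ (dbl C.1) <;> cases litVal σ (dbl C.2.1) <;> cases litVal σ (dbl C.2.2) <;>
      cases litVal σ (2 * i + 3, true) <;> cases σ 1 <;> decide

theorem oit_ok (φ : List (Lit × Lit × Lit)) : Sat3 φ ↔ ∃ σ : ℕ → Bool,
    ∀ C ∈ φ.zipIdx.flatMap oit,
      cl false false (litVal σ C.1) (litVal σ C.2.1) (litVal σ C.2.2) = true := by
  rw [sat3_iff]
  constructor
  · rintro ⟨a, ha⟩
    let val (n : ℕ) : Bool :=
      let C := φ.getD (n / 8) ((0, true), (0, true), (0, true))
      let x := litVal a C.1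
      let y := litVal a C.2.1
      let z := litVal a C.2.2
      if n % 8 = 1 then (y && x) else if n % 8 = 3 then (!y && x) else
      if n % 8 = 5 then (!y && !x) else (if y then z else x && z)
    let σ : ℕ → Bool := fun n => if n % 2 = 0 then a (n / 2) else val n
    refine ⟨σ, ?_⟩
    rw [mem_gadget]
    intro C i hC
    have hC' := ha C (List.mem_of_getElem? hC)
    have e1 : ∀ l : Lit, litVal σ (dbl l) = litVal a l := by
      intro l
      simp [litVal, dbl, σ]
    have hv : ∀ r, r < 8 → r % 2 = 1 → litVal σ (8 * i + r, true) = val (8 * i + r) := by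
      intro r hr hr2
      simp only [litVal, σ]
      rw [if_neg (by omega)]
      cases val (8 * i + r) <;> rfl
    have hD : ∀ r, r < 8 → φ.getD ((8 * i + r) / 8) ((0, true), (0, true), (0, true)) = C := by
      intro r hr
      rw [show (8 * i + r) / 8 = i by omega]
      simp [List.getD_eq_getElem?_getD, hC]
    have v1 : val (8 * i + 1) = (litVal a C.2.1 && litVal a C.1) := by
      simp only [val]
      rw [hD 1 (by omega), if_pos (by omega)]
    have v3 : val (8 * i + 3) = (!litVal a C.2.1 && litVal a C.1) := by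
      simp only [val]
      rw [hD 3 (by omega), if_neg (by omega), if_pos (by omega)]
    have v5 : val (8 * i + 5) = (!litVal a C.2.1 && !litVal a C.1) := by
      simp only [val]
      rw [hD 5 (by omega), if_neg (by omega), if_neg (by omega), if_pos (by omega)]
    have v7 : val (8 * i + 7) = (if litVal a C.2.1 then litVal a C.2.2 else
        litVal a C.1 && litVal a C.2.2) := by
      simp only [val]
      rw [hD 7 (by omega), if_neg (by omega), if_neg (by omega), if_neg (by omega)]
    intro D hDm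
    simp only [oit, List.mem_cons, List.not_mem_nil, or_false] at hDm
    rcases hDm with rfl | rfl | rfl
    · simp only [litVal_ng, e1, hv 1 (by omega) (by omega), hv 3 (by omega) (by omega), v1, v3]
      revert hC'
      cases litVal a C.1 <;> cases litVal a C.2.1 <;> cases litVal a C.2.2 <;> decide
    · simp only [e1, hv 5 (by omega) (by omega), hv 3 (by omega) (by omega), v5, v3]
      revert hC'
      cases litVal a C.1 <;> cases litVal a C.2.1 <;> cases litVal a C.2.2 <;> decide
    · simp only [litVal_ng, e1, hv 5 (by omega) (by omega), hv 7 (by omega) (by omega), v5, v7]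
      revert hC'
      cases litVal a C.1 <;> cases litVal a C.2.1 <;> cases litVal a C.2.2 <;> decide
  · rintro ⟨σ, hσ⟩
    rw [mem_gadget] at hσ
    refine ⟨fun v => σ (2 * v), fun C hC => ?_⟩
    obtain ⟨i, hi⟩ := List.mem_iff_getElem?.1 hC
    have h1 := hσ C i hi _ (by simp only [oit]; exact List.mem_cons_self)
    have h2 := hσ C i hi _ (by simp only [oit]; exact List.mem_cons_of_mem _ List.mem_cons_self)
    have h3 := hσ C i hi (ng (dbl C.2.2), (8 * i + 5, true), (8 * i + 7, true)) (by
      simp [oit])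
    have e1 : ∀ l : Lit, litVal (fun v => σ (2 * v)) l = litVal σ (dbl l) := by
      rintro ⟨v, b⟩; rfl
    simp only [litVal_ng] at h1 h2 h3
    simp only [e1]
    revert h1 h2 h3
    cases litVal σ (dbl C.1) <;> cases litVal σ (dbl C.2.1) <;> cases litVal σ (dbl C.2.2) <;>
      cases litVal σ (8 * i + 1, true) <;> cases litVal σ (8 * i + 3, true) <;>
      cases litVal σ (8 * i + 5, true) <;> cases litVal σ (8 * i + 7, true) <;> decide

theorem cl_comm (r1 r2 x y z : Bool) : cl r1 r2 x y z = cl r2 r1 x y z := by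
  cases r1 <;> cases r2 <;> cases x <;> cases y <;> cases z <;> rfl

end Sat

open Run7.h180.Sat in
theorem satR_nph (R : Bool → Fin 3 → Prop) (h0 : ¬ R false 0) (h1 : R false 1) (h2 : R false 2)
    (h3 : R true 0) : NPH (fun _ : List (Lit × Lit × Lit) => True) (SatR R) := by
  classical
  have hn : PT fun φ : List (Lit × Lit × Lit) => φ.zipIdx.flatMap nae := by
    unfold nae; fun_prop
  have ho : PT fun φ : List (Lit × Lit × Lit) => φ.zipIdx.flatMap oit := by
    unfold oit; fun_prop
  by_cases c1 : R true 1 <;> by_cases c2 : R true 2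
  · refine sat3_nph.reduce (fun φ => φ) PT.id' fun φ _ => ⟨trivial, ?_⟩
    rw [satR_iff R h0 h1 h2 h3 true true (by simp [c1]) (by simp [c2]), sat3_iff]
    refine exists_congr fun σ => forall₂_congr fun C _ => ?_
    cases litVal σ C.1 <;> cases litVal σ C.2.1 <;> cases litVal σ C.2.2 <;> decide
  · refine sat3_nph.reduce (fun φ => φ.zipIdx.flatMap nae) hn fun φ _ => ⟨trivial, ?_⟩
    rw [satR_iff R h0 h1 h2 h3 true false (by simp [c1]) (by simp [c2]), nae_ok]
  · refine sat3_nph.reduce (fun φ => φ.zipIdx.flatMap nae) hn fun φ _ => ⟨trivial, ?_⟩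
    rw [satR_iff R h0 h1 h2 h3 false true (by simp [c1]) (by simp [c2]), nae_ok]
    simp only [cl_comm false true]
  · refine sat3_nph.reduce (fun φ => φ.zipIdx.flatMap oit) ho fun φ _ => ⟨trivial, ?_⟩
    rw [satR_iff R h0 h1 h2 h3 false false (by simp [c1]) (by simp [c2]), oit_ok]

end Run7.h180
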