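import Pool.Agent.Run7.h180.Walks

/-!
Locally injective homomorphisms of a graph with few defects preserve the numbers of walks.
-/

namespace Run7.h180

variable {U V W : Type}

theorem exists_J [Fintype V] {H : SimpleGraph V} (hconn : H.Connected) (h3 : D3 H) :
    ∃ J, ∀ (W : Type) [Fintype W] (G : SimpleGraph W) (p f : W → V) (st : W → ℕ),
      LI G H p → LI G H f → (∀ y z, G.Adj y z → st y ≤ st z + 1) →
      (∀ z, 2 ≤ st z → SurjAt H G p z) →
      (∀ z, st z < J → ∃ z', G.Adj z' z ∧ SurjAt H G p z' ∧ st z < st z' ∧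
        ∀ y, G.Adj z' y → y ≠ z → st z < st y) →
      ∀ z, Sim H (f z) (p z) := by
  classical
  have := hconn.nonempty
  obtain ⟨D, hD⟩ := exists_walk_bound hconn
  obtain ⟨N, hN⟩ := exists_sim_bound H
  obtain ⟨m, -, hm⟩ := Finset.exists_max_image Finset.univ (wc H (N + D + 1)) Finset.univ_nonempty
  refine ⟨N + D + 1 + D + 1, ?_⟩
  intro W _ G p f st hp hf hlip hs hJ
  have hlip' : ∀ y z, G.Adj y z → st y - 1 ≤ st z - 1 + 1 := fun y z h => by
    have := hlip y z h
    omega
  have hs' : ∀ z, 1 ≤ st z - 1 → SurjAt H G p z := fun z h => hs z (by omega)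
  have base : ∀ z, N + D + 1 + D + 1 ≤ st z → Sim H (f z) (p z) := by
    intro z hz
    obtain ⟨w, hw⟩ := hD (p z) m
    have h1 := far h3 hf hp (ht := fun z => st z - 1) hlip' hs' (R := N + D + 1) (m := m)
      (fun v => hm v (Finset.mem_univ v)) _ z w rfl (by show _ ≤ st z - 1; omega) (by omega)
    refine hN _ _ fun r hr => ?_
    have h2 := eq_of_le h3 hf (s := r) (by omega) h1
    have h4 := eq_of_ht hp (ht := fun z => st z - 1) hlip' hs' r z (by show _ ≤ st z - 1; omega)
    omega
  have main : ∀ n, ∀ z, N + D + 1 + D + 1 ≤ st z + n → Sim H (f z) (p z) := by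
    intro n
    induction n with
    | zero => exact base
    | succ n ih =>
      intro z hz
      by_cases hz' : N + D + 1 + D + 1 ≤ st z
      · exact base z hz'
      obtain ⟨z', hadj, hfull, hst, hy⟩ := hJ z (by omega)
      have h1 : Sim H (f z') (p z') := ih z' (by omega)
      have hfs : SurjAt H G f z' := by
        refine (eq_succ (r := 0) h3 hf ?_).1
        rw [h1 1]
        have h2 := sum_nb_eq hp hfull (fun _ => 1)
        simpa [wc] using h2
      intro r
      have e1 := sum_nb_eq hf hfs (wc H r)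
      have e2 := sum_nb_eq hp hfull (wc H r)
      have e3 : ∑ c ∈ nb H (f z'), wc H r c = ∑ c ∈ nb H (p z'), wc H r c := h1 (r + 1)
      have e4 : ∑ y ∈ (nb G z').erase z, wc H r (f y) = ∑ y ∈ (nb G z').erase z, wc H r (p y) := by
        refine Finset.sum_congr rfl fun y hy' => ?_
        obtain ⟨hy1, hy2⟩ := Finset.mem_erase.1 hy'
        exact ih y (by have := hy y (mem_nb.1 hy2) hy1; omega) r
      have e5 := Finset.sum_erase_add (nb G z') (fun y => wc H r (f y)) (mem_nb.2 hadj)
      have e6 := Finset.sum_erase_add (nb G z') (fun y => wc H r (p y)) (mem_nb.2 hadj)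
      omega
  intro z
  exact main (N + D + 1 + D + 1) z (by omega)

end Run7.h180
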