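import Pool.Agent.Run7.h180.Cover
import Pool.Agent.Run7.h180.Sim

/-!
The tie gadget: the cover with two edges removed.
-/

namespace Run7.h180

variable {U V W K : Type}

/-- remove the edges `x y1` and `x y2` -/
def cutTwo (G : SimpleGraph W) (x y1 y2 : W) : SimpleGraph W where
  Adj z z' := G.Adj z z' ∧ ¬ (z = x ∧ (z' = y1 ∨ z' = y2)) ∧ ¬ (z' = x ∧ (z = y1 ∨ z = y2))
  symm := ⟨fun _ _ h => ⟨h.1.symm, h.2.2, h.2.1⟩⟩
  loopless := ⟨fun z h => G.loopless.irrefl z h.1⟩

section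
variable {H : SimpleGraph V} {a b1 b2 : V} {R : ℕ} {e : V → V → Equiv.Perm (KK H a R)}
  {he : ∀ u v, e v u = (e u v)⁻¹}

/-- the number of steps from the root, or `R` outside of the tree -/
noncomputable def stp (z : V × KK H a R) : ℕ := by
  classical exact if z.2.1.head? = some z.1 then z.2.1.length - 1 else R

theorem stp_le (z : V × KK H a R) : stp z ≤ R := by
  classical
  have := z.2.2.1
  simp only [stp]
  split_ifs <;> omega

theorem stp_eq {z : V × KK H a R} (h : z.2.1.head? = some z.1) : stp z = z.2.1.length - 1 := by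
  simp [stp, h]

theorem len_pos (k : KK H a R) : 1 ≤ k.1.length := by
  obtain ⟨l, h1, h2⟩ := k
  cases l with
  | nil => exact h2.elim
  | cons x t => simp

theorem ff_st (hS : ∀ u v k k', u ≠ v → St u v k k' → e u v k = k') {z z' : V × KK H a R}
    (h : (FF H e he).Adj z z') (hh : z.2.1.head? = some z.1) (hl : z.2.1.length ≤ R) :
    St z.1 z'.1 z.2 z'.2 := by
  obtain ⟨h1, h2⟩ := h
  obtain ⟨k', hk'⟩ := St.exists h1 hh hl
  have := hS _ _ _ _ h1.ne hk'
  rw [h2] at this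
  rw [this]
  exact hk'

theorem ff_lip (hS : ∀ u v k k', u ≠ v → St u v k k' → e u v k = k') {y z : V × KK H a R}
    (h : (FF H e he).Adj y z) : stp y ≤ stp z + 1 := by
  classical
  by_cases hz : z.2.1.head? = some z.1 ∧ z.2.1.length ≤ R
  · have h1 := ff_st hS h.symm hz.1 hz.2
    rw [stp_eq hz.1, stp_eq h1.2.1]
    have := len_pos z.2
    have := len_pos y.2
    rcases h1.2.2 with e1 | e1
    · rw [e1]; simp only [List.length_cons]; omega
    · rw [e1]; simp only [List.length_cons]; omega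
  · have h1 := stp_le y
    have h2 : stp z = R := by
      simp only [stp]
      split_ifs with h3
      · have := z.2.2.1
        have : ¬ z.2.1.length ≤ R := fun h4 => hz ⟨h3, h4⟩
        omega
      · rfl
    omega

/-- the root -/
def rt (H : SimpleGraph V) (a : V) (R : ℕ) : V × KK H a R := (a, ⟨[a], by simp, rfl⟩)

/-- a neighbour of the root -/
def rn {H : SimpleGraph V} {a b : V} {R : ℕ} (h : H.Adj a b) (hR : 1 ≤ R) : V × KK H a R :=
  (b, ⟨[b, a], by simpa using hR, h.symm, by simp, rfl⟩)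

theorem ff_proj_li : LI (FF H e he) H Prod.fst := by
  refine ⟨fun u v h => h.1, fun u v w h1 h2 h => ?_⟩
  have e1 := h1.2
  have e2 := h2.2
  rw [h] at e1
  exact Prod.ext h (e1.symm.trans e2)

theorem ff_proj_surj (z : V × KK H a R) : SurjAt H (FF H e he) Prod.fst z :=
  fun c hc => ⟨(c, e z.1 c z.2), ⟨hc, rfl⟩, rfl⟩

theorem ff_root (hS : ∀ u v k k', u ≠ v → St u v k k' → e u v k = k') {b : V} (h : H.Adj a b)
    (hR : 1 ≤ R) : (FF H e he).Adj (rt H a R) (rn h hR) := by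
  refine ⟨h, hS _ _ _ _ h.ne ⟨rfl, rfl, Or.inl rfl⟩⟩

theorem cutTwo_surj {x y1 y2 : V × KK H a R} {z : V × KK H a R} (hx : z ≠ x) (h1 : z ≠ y1)
    (h2 : z ≠ y2) : SurjAt H (cutTwo (FF H e he) x y1 y2) Prod.fst z := by
  intro c hc
  obtain ⟨y, hy, e⟩ := ff_proj_surj (he := he) z c hc
  exact ⟨y, ⟨hy, fun h => hx h.1, fun h => h.2.elim h1 h2⟩, e⟩

theorem tie_step (h3 : D3 H) (hS : ∀ u v k k', u ≠ v → St u v k k' → e u v k = k')
    (h1 : H.Adj a b1) (h2 : H.Adj a b2) (hR : 1 ≤ R) {z : V × KK H a R} (hz : stp z + 2 ≤ R) :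
    ∃ z', (cutTwo (FF H e he) (rt H a R) (rn h1 hR) (rn h2 hR)).Adj z' z ∧
      SurjAt H (cutTwo (FF H e he) (rt H a R) (rn h1 hR) (rn h2 hR)) Prod.fst z' ∧
      stp z < stp z' ∧ ∀ y, (cutTwo (FF H e he) (rt H a R) (rn h1 hR) (rn h2 hR)).Adj z' y →
        y ≠ z → stp z < stp y := by
  classical
  have hh : z.2.1.head? = some z.1 := by
    by_contra hn
    have : stp z = R := by simp [stp, hn]
    omega
  obtain ⟨u, ⟨l, hl1, hl2⟩⟩ := z
  cases l with
  | nil => exact hl2.elim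
  | cons u' t =>
  obtain rfl : u' = u := by simpa using hh
  have hst : stp (u', (⟨u' :: t, hl1, hl2⟩ : KK H a R)) = t.length := by
    rw [stp_eq hh]; simp
  rw [hst] at hz ⊢
  obtain ⟨v, hv, hv1, hv2⟩ := h3 u' (t.head?.getD b1) (t.head?.getD b2)
  have hvt : t.head? ≠ some v := by
    intro h
    rw [h] at hv1
    exact hv1 rfl
  let z' : V × KK H a R := (v, ⟨v :: u' :: t, by simp; omega, hv.symm, hvt, hl2⟩)
  have hff : (FF H e he).Adj (u', (⟨u' :: t, hl1, hl2⟩ : KK H a R)) z' :=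
    ⟨hv, hS _ _ _ _ hv.ne ⟨rfl, rfl, Or.inl rfl⟩⟩
  have hst' : stp z' = t.length + 1 := by
    rw [stp_eq rfl]; simp [z']
  have hz'x : z' ≠ rt H a R := by
    intro h
    have := congrArg (fun q : V × KK H a R => q.2.1.length) h
    simp [z', rt] at this
  have hz'y : ∀ b (h : H.Adj a b), t.head?.getD b ≠ v → z' ≠ rn h hR := by
    intro b h hb he
    have := congrArg (fun q : V × KK H a R => q.2.1) he
    simp [z', rn] at this
    obtain ⟨rfl, -, rfl⟩ := this
    exact hb rfl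
  have hQ : (cutTwo (FF H e he) (rt H a R) (rn h1 hR) (rn h2 hR)).Adj z'
      (u', (⟨u' :: t, hl1, hl2⟩ : KK H a R)) := by
    refine ⟨hff.symm, fun h => hz'x h.1, fun h => ?_⟩
    rcases h.2 with h | h
    · exact hz'y b1 h1 hv1.symm h
    · exact hz'y b2 h2 hv2.symm h
  refine ⟨z', hQ, cutTwo_surj hz'x (hz'y b1 h1 hv1.symm) (hz'y b2 h2 hv2.symm), by omega, ?_⟩
  intro y hy hyz
  have h5 := ff_st hS hy.1 rfl (by simp [z']; omega)
  rcases h5.2.2 with e1 | e1
  · rw [stp_eq h5.2.1, e1]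
    simp [z']
  · exfalso
    apply hyz
    have e2 : y.2.1 = u' :: t := (List.cons.inj e1).2.symm
    have e4 : y.1 = u' := by
      have := h5.2.1
      rw [e2] at this
      simpa using this.symm
    exact Prod.ext e4 (Subtype.ext e2)

theorem stp_rt : stp (rt H a R) = 0 := by simp [stp, rt]

theorem stp_rn {b : V} (h : H.Adj a b) (hR : 1 ≤ R) : stp (rn h hR) = 1 := by simp [stp, rn]

end

end Run7.h180
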