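import Pool.Agent.Run7.h180.Base

/-!
Numbers of walks and locally injective homomorphisms.
-/

namespace Run7.h180

variable {U V W : Type}

/-- number of walks of length `r` from `v` -/
noncomputable def wc [Fintype V] (H : SimpleGraph V) : ℕ → V → ℕ
  | 0, _ => 1
  | r + 1, v => ∑ w ∈ nb H v, wc H r w

theorem wc_pos [Fintype V] {H : SimpleGraph V} (h3 : D3 H) (r : ℕ) (v : V) : 0 < wc H r v := by
  induction r generalizing v with
  | zero => simp [wc]
  | succ r ih =>
    obtain ⟨z, hz, -⟩ := h3 v v v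
    exact Finset.sum_pos' (fun _ _ => Nat.zero_le _) ⟨z, mem_nb.2 hz, ih z⟩

/-- every neighbour of `f z` is the image of a neighbour of `z` -/
def SurjAt (H : SimpleGraph V) (G : SimpleGraph W) (f : W → V) (z : W) : Prop :=
  ∀ c, H.Adj (f z) c → ∃ y, G.Adj z y ∧ f y = c

theorem surjAt_iff {H : SimpleGraph V} {G : SimpleGraph W} {f : W → V} {z : W} :
    SurjAt H G f z ↔ ∀ c, ¬ Miss H G f z c := by
  refine forall_congr' fun c => ?_
  simp only [Miss, not_and, not_forall, not_not]
  refine imp_congr Iff.rfl (exists_congr fun y => ?_)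
  simp

section
variable [Fintype V] [Fintype W] {H : SimpleGraph V} {G : SimpleGraph W} {f : W → V}

theorem sum_image_nb (hf : LI G H f) (z : W) (F : V → ℕ) :
    ∃ S ⊆ nb H (f z), ∑ y ∈ nb G z, F (f y) = ∑ c ∈ S, F c ∧
      ∀ c, c ∈ S ↔ ∃ y, G.Adj z y ∧ f y = c := by
  classical
  refine ⟨(nb G z).image f, ?_, ?_, ?_⟩
  · intro c hc
    obtain ⟨y, hy, rfl⟩ := Finset.mem_image.1 hc
    exact mem_nb.2 (hf.1 _ _ (mem_nb.1 hy))
  · rw [Finset.sum_image]
    intro a ha b hb e
    exact hf.2 z a b (mem_nb.1 ha) (mem_nb.1 hb) e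
  · intro c
    simp [mem_nb]

theorem sum_nb_le (hf : LI G H f) (z : W) (F : V → ℕ) :
    ∑ y ∈ nb G z, F (f y) ≤ ∑ c ∈ nb H (f z), F c := by
  obtain ⟨S, hS, e, -⟩ := sum_image_nb hf z F
  rw [e]
  exact Finset.sum_le_sum_of_subset hS

theorem sum_nb_eq (hf : LI G H f) {z : W} (hz : SurjAt H G f z) (F : V → ℕ) :
    ∑ y ∈ nb G z, F (f y) = ∑ c ∈ nb H (f z), F c := by
  obtain ⟨S, hS, e, h⟩ := sum_image_nb hf z F
  rw [e]
  congr 1
  exact Finset.Subset.antisymm hS fun c hc => (h c).2 (hz c (mem_nb.1 hc))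

theorem surjAt_of_sum_eq (hf : LI G H f) {z : W} {F : V → ℕ} (hF : ∀ c, 0 < F c)
    (he : ∑ y ∈ nb G z, F (f y) = ∑ c ∈ nb H (f z), F c) : SurjAt H G f z := by
  obtain ⟨S, hS, e, h⟩ := sum_image_nb hf z F
  intro c hc
  rw [← h]
  by_contra hn
  have := Finset.sum_lt_sum_of_subset hS (mem_nb.2 hc) hn (hF c) fun _ _ _ => Nat.zero_le _
  omega

theorem wc_le (hf : LI G H f) (r : ℕ) (z : W) : wc G r z ≤ wc H r (f z) := by
  induction r generalizing z with
  | zero => simp [wc]
  | succ r ih =>
    exact (Finset.sum_le_sum fun y _ => ih y).trans (sum_nb_le hf z _)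

theorem eq_succ (h3 : D3 H) (hf : LI G H f) {r : ℕ} {z : W}
    (he : wc G (r + 1) z = wc H (r + 1) (f z)) :
    SurjAt H G f z ∧ ∀ y, G.Adj z y → wc G r y = wc H r (f y) := by
  have h1 : ∑ y ∈ nb G z, wc G r y ≤ ∑ y ∈ nb G z, wc H r (f y) :=
    Finset.sum_le_sum fun y _ => wc_le hf r y
  have h2 := sum_nb_le hf z (wc H r)
  have h0 : ∑ y ∈ nb G z, wc G r y = ∑ c ∈ nb H (f z), wc H r c := he
  refine ⟨surjAt_of_sum_eq hf (wc_pos h3 r) (le_antisymm h2 (by omega)), fun y hy => ?_⟩
  exact (Finset.sum_eq_sum_iff_of_le fun y _ => wc_le hf r y).1 (by omega) y (mem_nb.2 hy)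

theorem eq_pred (h3 : D3 H) (hf : LI G H f) {r : ℕ} {z : W}
    (he : wc G (r + 1) z = wc H (r + 1) (f z)) : wc G r z = wc H r (f z) := by
  induction r generalizing z with
  | zero => simp [wc]
  | succ r ih =>
    obtain ⟨h1, h2⟩ := eq_succ h3 hf he
    have : ∑ y ∈ nb G z, wc G r y = ∑ y ∈ nb G z, wc H r (f y) :=
      Finset.sum_congr rfl fun y hy => ih (h2 y (mem_nb.1 hy))
    exact this.trans (sum_nb_eq hf h1 _)

theorem eq_of_le (h3 : D3 H) (hf : LI G H f) {r s : ℕ} (hs : s ≤ r) {z : W}
    (he : wc G r z = wc H r (f z)) : wc G s z = wc H s (f z) := by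
  induction r with
  | zero => obtain rfl : s = 0 := by omega
            exact he
  | succ r ih =>
    rcases Nat.lt_or_ge r s with h | h
    · obtain rfl : s = r + 1 := by omega
      exact he
    · exact ih h (eq_pred h3 hf he)

/-- counting with a height function that bounds the distance to the defects -/
theorem eq_of_ht {p : W → V} (hp : LI G H p) {ht : W → ℕ}
    (hlip : ∀ y z, G.Adj y z → ht y ≤ ht z + 1) (hs : ∀ z, 1 ≤ ht z → SurjAt H G p z) (r : ℕ) :
    ∀ z, r ≤ ht z → wc G r z = wc H r (p z) := by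
  induction r with
  | zero => intro z _; simp [wc]
  | succ r ih =>
    intro z hz
    have : ∑ y ∈ nb G z, wc G r y = ∑ y ∈ nb G z, wc H r (p y) :=
      Finset.sum_congr rfl fun y hy => ih y (by have := hlip z y (mem_nb.1 hy); omega)
    exact this.trans (sum_nb_eq hp (hs z (by omega)) _)

/-- the equality of the numbers of walks of a labelling `p` (in a full region) forces the same
equality for every `f`: first at a vertex whose label maximises the number of walks -/
theorem far {p : W → V} (h3 : D3 H) (hf : LI G H f) (hp : LI G H p) {ht : W → ℕ}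
    (hlip : ∀ y z, G.Adj y z → ht y ≤ ht z + 1) (hs : ∀ z, 1 ≤ ht z → SurjAt H G p z) {R : ℕ} {m : V}
    (hm : ∀ v, wc H R v ≤ wc H R m) (d : ℕ) :
    ∀ z, ∀ w : H.Walk (p z) m, w.length = d → R + d ≤ ht z → d ≤ R →
      wc G (R - d) z = wc H (R - d) (f z) := by
  induction d with
  | zero =>
    intro z w hw hz _
    have e : p z = m := SimpleGraph.Walk.eq_of_length_eq_zero hw
    have h1 := eq_of_ht hp hlip hs R z (by omega)
    have h2 := wc_le hf R z
    have h4 := hm (f z)
    rw [e] at h1
    simp only [Nat.sub_zero]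
    omega
  | succ d ih =>
    intro z w hw hz hd
    cases w with
    | nil => simp at hw
    | @cons _ c _ hc w' =>
      obtain ⟨y, hy, e⟩ := hs z (by omega) c hc
      subst e
      have := hlip z y hy
      have h1 := ih y w' (by simpa using hw) (by omega) (by omega)
      rw [show R - d = R - (d + 1) + 1 by omega] at h1
      exact (eq_succ h3 hf h1).2 z hy.symm

end

/-- the same numbers of walks -/
def Sim [Fintype V] (H : SimpleGraph V) (u v : V) : Prop := ∀ r, wc H r u = wc H r v

theorem exists_sim_bound [Fintype V] (H : SimpleGraph V) :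
    ∃ N, ∀ u v, (∀ r ≤ N, wc H r u = wc H r v) → Sim H u v := by
  classical
  have : ∀ q : V × V, ∃ N, (∀ r ≤ N, wc H r q.1 = wc H r q.2) → Sim H q.1 q.2 := by
    intro q
    by_cases h : Sim H q.1 q.2
    · exact ⟨0, fun _ => h⟩
    · simp only [Sim, not_forall] at h
      obtain ⟨r, hr⟩ := h
      exact ⟨r, fun h => absurd (h r le_rfl) hr⟩
  choose N hN using this
  refine ⟨∑ q, N q, fun u v h => hN (u, v) fun r hr => h r (hr.trans ?_)⟩
  exact Finset.single_le_sum (f := N) (fun _ _ => Nat.zero_le _) (Finset.mem_univ (u, v))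

theorem exists_walk_bound [Fintype V] {H : SimpleGraph V} (hc : H.Connected) :
    ∃ D, ∀ u v, ∃ w : H.Walk u v, w.length ≤ D := by
  classical
  have : ∀ q : V × V, ∃ w : H.Walk q.1 q.2, True := fun q => by
    obtain ⟨w⟩ := hc.preconnected q.1 q.2
    exact ⟨w, trivial⟩
  choose w _ using this
  refine ⟨∑ q, (w q).length, fun u v => ⟨w (u, v), ?_⟩⟩
  exact Finset.single_le_sum (f := fun q => (w q).length) (fun _ _ => Nat.zero_le _)
    (Finset.mem_univ (u, v))

/-- a locally injective homomorphism from a connected finite graph with all degrees at least 3 to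
itself is an automorphism -/
theorem li_self_iso [Finite V] {H : SimpleGraph V} (hconn : H.Connected) (h3 : D3 H) {φ : V → V}
    (h : LI H H φ) : ∃ α : H ≃g H, ∀ v, α v = φ v := by
  cases nonempty_fintype V
  have := hconn.nonempty
  obtain ⟨D, hD⟩ := exists_walk_bound hconn
  obtain ⟨m, -, hm⟩ := Finset.exists_max_image Finset.univ (wc H (D + 1)) Finset.univ_nonempty
  have h0 : ∀ d, ∀ z, ∀ w : H.Walk z m, w.length = d → d ≤ D →
      wc H (D + 1 - d) z = wc H (D + 1 - d) (φ z) := by
    intro d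
    induction d with
    | zero =>
      intro z w hw _
      have e : z = m := SimpleGraph.Walk.eq_of_length_eq_zero hw
      have h1 := wc_le h (D + 1) z
      have h2 := hm (φ z) (Finset.mem_univ _)
      subst e
      simp only [Nat.sub_zero]
      omega
    | succ d ih =>
      intro z w hw hd
      cases w with
      | nil => simp at hw
      | @cons _ c _ hc w' =>
        have h1 := ih c w' (by simpa using hw) (by omega)
        rw [show D + 1 - d = D + 1 - (d + 1) + 1 by omega] at h1
        exact (eq_succ h3 h h1).2 z hc.symm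
  have hsurj : ∀ z, SurjAt H H φ z := by
    intro z
    obtain ⟨w, hw⟩ := hD z m
    have h1 := h0 _ z w rfl hw
    rw [show D + 1 - w.length = D - w.length + 1 by omega] at h1
    exact (eq_succ h3 h h1).1
  have hs : Function.Surjective φ := by
    have : ∀ x y, H.Walk x y → x ∈ Set.range φ → y ∈ Set.range φ := by
      intro x y w
      induction w with
      | nil => exact id
      | @cons u v w hc w' ih =>
        intro hu
        obtain ⟨z, rfl⟩ := hu
        obtain ⟨y, -, rfl⟩ := hsurj z v hc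
        exact ih ⟨y, rfl⟩
    intro v
    obtain ⟨w⟩ := hconn.preconnected (φ m) v
    exact this _ _ w ⟨m, rfl⟩
  have hi : Function.Injective φ := Finite.injective_iff_surjective.2 hs
  refine ⟨⟨Equiv.ofBijective φ ⟨hi, hs⟩, ?_⟩, fun v => rfl⟩
  intro u v
  refine ⟨fun e => ?_, fun e => h.1 _ _ e⟩
  obtain ⟨y, hy, e'⟩ := hsurj u (φ v) e
  rwa [← hi e']

end Run7.h180
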